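import Pool.Agent.H97.QD.Median

/-!
# Tournaments of bounded VC-dimension and oriented cubes: definitions

Project BV (helper9), MP_f69362_co. THEOREM: there is `C` such that every tournament of VC-dimension
`≤ k` (of the system of out-neighbourhoods) with at least `2^d (k+2)^(C(k+1))` vertices contains the
oriented hypercube `Q_d`. So the linear bound asked for in Q1 holds for the hosts of bounded
VC-dimension.
-/

namespace Pool.Agent.H9.BV

open Finset

variable {V : Type}

/-- `S` is shattered by the out-neighbourhoods: every subset `R` of `S` is the set of the elements of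
`S` dominated by some vertex -/
def Shat (T : V → V → Prop) (S : Finset V) : Prop :=
  ∀ R ⊆ S, ∃ v : V, ∀ s ∈ S, (T v s ↔ s ∈ R)

/-- the VC-dimension of the out-neighbourhoods is at most `k` -/
def VCle (T : V → V → Prop) (k : ℕ) : Prop := ∀ S : Finset V, Shat T S → S.card ≤ k

open Classical in
/-- the elements of `Y` on which `u` and `v` differ -/
noncomputable def df (T : V → V → Prop) (Y : Finset V) (u v : V) : Finset V :=
  Y.filter (fun y => ¬ (T u y ↔ T v y))

open Classical in
/-- the number of pairs of `X × Y` that are not arcs -/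
noncomputable def miss (T : V → V → Prop) (X Y : Finset V) : ℕ :=
  ((X ×ˢ Y).filter (fun p => ¬ T p.1 p.2)).card

/-- `u` and `v` are near twins with respect to `Y` -/
def Twin (T : V → V → Prop) (Y : Finset V) (D : ℕ) (u v : V) : Prop :=
  D * (df T Y u v).card ≤ 2 * Y.card

/-- the bound of the packing lemma -/
def KK (k D : ℕ) : ℕ := (6 * D * (k + 1)) ^ (2 * k + 2)

/-- a family of disjoint subsets of `X` of size `s`, each consisting of near twins with respect to
each of the sets in `F` -/
structure Parts (T : V → V → Prop) (X : Finset V) (F : Finset (Finset V)) (D s : ℕ)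
    (P : Finset (Finset V)) : Prop where
  sub : ∀ A ∈ P, A ⊆ X
  card : ∀ A ∈ P, A.card = s
  disj : ∀ A ∈ P, ∀ B ∈ P, A ≠ B → Disjoint A B
  twin : ∀ A ∈ P, ∀ Y ∈ F, ∀ u ∈ A, ∀ v ∈ A, Twin T Y D u v

/-- adjacency of classes of the cube: the class of `x` at level `q` is `x ∩ {0..q-1}`; if `y` arises
from `x` by adding one element then the classes satisfy `Adj` -/
def Adj (z z' : Finset ℕ) : Prop := z ⊆ z' ∧ z'.card ≤ z.card + 1

/-- a blueprint of level `q`: disjoint sets `X h z` of size `S h` for all `h ≤ d` and all
`z ⊆ {0..q-1}`; for adjacent `z, z'` almost all pairs of `X h z × X (h+1) z'` are arcs. The vertices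
`x` of the cube (subsets of `{0..d-1}`) of size `h` with `x ∩ {0..q-1} = z` will be placed
in `X h z`. -/
structure Blue (T : V → V → Prop) (d q : ℕ) (ε : ℝ) (S : ℕ → ℕ) (X : ℕ → Finset ℕ → Finset V) :
    Prop where
  card : ∀ h ≤ d, ∀ z ⊆ range q, (X h z).card = S h
  disj : ∀ h ≤ d, ∀ h' ≤ d, ∀ z ⊆ range q, ∀ z' ⊆ range q, (h ≠ h' ∨ z ≠ z') →
    Disjoint (X h z) (X h' z')
  arc : ∀ h < d, ∀ z ⊆ range q, ∀ z' ⊆ range q, Adj z z' →
    (miss T (X h z) (X (h + 1) z') : ℝ) ≤ ε * S h * S (h + 1)

lemma df_comm (T : V → V → Prop) (Y : Finset V) (u v : V) : df T Y u v = df T Y v u := by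
  classical
  unfold df
  ext y
  simp only [mem_filter]
  tauto

lemma df_self (T : V → V → Prop) (Y : Finset V) (u : V) : df T Y u u = ∅ := by
  classical
  unfold df
  ext y
  simp

lemma df_mono (T : V → V → Prop) {Y Z : Finset V} (h : Y ⊆ Z) (u v : V) :
    df T Y u v ⊆ df T Z u v := by
  classical
  exact Finset.filter_subset_filter _ h

lemma df_triangle [DecidableEq V] (T : V → V → Prop) (Y : Finset V) (u v w : V) :
    df T Y u w ⊆ df T Y u v ∪ df T Y v w := by
  classical
  intro y hy
  simp only [df, mem_filter, mem_union] at hy ⊢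
  tauto

lemma miss_le (T : V → V → Prop) (X Y : Finset V) : miss T X Y ≤ X.card * Y.card := by
  classical
  unfold miss
  exact (Finset.card_filter_le _ _).trans (by rw [Finset.card_product])

lemma miss_mono (T : V → V → Prop) {X X' Y Y' : Finset V} (h : X ⊆ X') (h' : Y ⊆ Y') :
    miss T X Y ≤ miss T X' Y' := by
  classical
  unfold miss
  exact Finset.card_le_card (Finset.filter_subset_filter _ (Finset.product_subset_product h h'))

open Classical in
lemma miss_eq_left (T : V → V → Prop) (X Y : Finset V) :
    miss T X Y = ∑ x ∈ X, (Y.filter (fun y => ¬ T x y)).card := by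
  unfold miss
  simp only [Finset.card_filter]
  exact Finset.sum_product _ _ _

open Classical in
lemma miss_eq_right (T : V → V → Prop) (X Y : Finset V) :
    miss T X Y = ∑ y ∈ Y, (X.filter (fun x => ¬ T x y)).card := by
  unfold miss
  simp only [Finset.card_filter]
  exact Finset.sum_product_right _ _ _

end Pool.Agent.H9.BV
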