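import Mathlib

/-!
# JOB BV-11: binomial coefficients in windows

`central_le`: induction, `Nat.succ_mul_centralBinom_succ : (n+1) C(2n+2,n+1) = 2(2n+1) C(2n,n)` and
`(3n+4)(2n+1)^2 ≤ 4(3n+1)(n+1)^2` (difference `n`).
`choose_sq_le`: `Nat.choose_le_middle`; `N = 2n`: `C(N,j)^2 (2n+1) ≤ C(2n,n)^2 (3n+1) ≤ 16^n`;
`N = 2n+1`: `C(2n+1,j) ≤ C(2n+1,n) ≤ 2 C(2n,n)`, `2n+2 ≤ 2(3n+1)`.
`class_card_le`: `x ↦ x \ range q` maps the class injectively into the subsets of size
`h - z.card` of `range d \ range q` (a set of `d - q` elements); `z.card ≤ q`; if `z.card > h` the class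
is empty.
`window_sum`: `N = d - q`. For `h ≤ N/2` every `C(N,h-i)`, `i ≤ h`, is at most `C(N,h)`
(`Nat.choose_le_succ_of_lt_half_left` and induction, or `Nat.choose_mono`-like lemmas); for
`h - q ≥ N/2` (that is `2(h - q) ≥ N`) it is at most `C(N,h-q)`; the remaining `h`
(`N < 2h`, `2(h-q) < N`) are at most `q` in number and the terms are at most
`C(N,N/2)`. So the sum is at most `2^N + 2^N + q C(N,N/2)`, and
`(q C(N,N/2))^2 ≤ q^2 2 4^N/(N+1) ≤ 2 d 4^N/(N+1) ≤ 4 * 4^N` because
`N + 1 = d - q + 1 ≥ d/2` (`q^2 ≤ d`). So the sum is at most `4 * 2^N`.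
-/

namespace Pool.Agent.H9.BV

open Finset

theorem Binom_central (h : ℕ) : (h.centralBinom : ℝ) ^ 2 * (3 * h + 1) ≤ 16 ^ h := by
  induction h with
  | zero => simp
  | succ h ih =>
    have e : ((h + 1 : ℕ) : ℝ) * ((h + 1).centralBinom : ℝ) =
        2 * (2 * h + 1) * (h.centralBinom : ℝ) := by
      exact_mod_cast Nat.succ_mul_centralBinom_succ h
    generalize (h.centralBinom : ℝ) = c at *
    generalize ((h + 1).centralBinom : ℝ) = d at *
    have hx0 : (0 : ℝ) ≤ h := Nat.cast_nonneg h
    push_cast at e ⊢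
    generalize (h : ℝ) = x at *
    have hpos : 0 < (x + 1) ^ 2 := by positivity
    have h1 : (x + 1) ^ 2 * d ^ 2 = (2 * (2 * x + 1)) ^ 2 * c ^ 2 := by
      rw [← mul_pow, e, mul_pow]
    have h4 : (2 * (2 * x + 1)) ^ 2 * (3 * x + 4) ≤ 16 * (x + 1) ^ 2 * (3 * x + 1) := by
      nlinarith
    have h5 : (x + 1) ^ 2 * (d ^ 2 * (3 * (x + 1) + 1)) ≤ (x + 1) ^ 2 * 16 ^ (h + 1) := by
      calc (x + 1) ^ 2 * (d ^ 2 * (3 * (x + 1) + 1))
          = ((x + 1) ^ 2 * d ^ 2) * (3 * x + 4) := by ring
        _ = c ^ 2 * ((2 * (2 * x + 1)) ^ 2 * (3 * x + 4)) := by rw [h1]; ring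
        _ ≤ c ^ 2 * (16 * (x + 1) ^ 2 * (3 * x + 1)) := by gcongr
        _ = 16 * (x + 1) ^ 2 * (c ^ 2 * (3 * x + 1)) := by ring
        _ ≤ 16 * (x + 1) ^ 2 * 16 ^ h := by gcongr
        _ = (x + 1) ^ 2 * 16 ^ (h + 1) := by ring
    exact le_of_mul_le_mul_left h5 hpos

theorem central_le (n : ℕ) : Nat.centralBinom n ^ 2 * (3 * n + 1) ≤ 16 ^ n := by
  have := Binom_central n
  exact_mod_cast this

theorem Binom_choose (m j : ℕ) : (m.choose j : ℝ) ^ 2 * (m + 1) ≤ 4 ^ m := by
  rcases Nat.even_or_odd' m with ⟨h, rfl | rfl⟩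
  · have h1 : ((2 * h).choose j : ℝ) ≤ (h.centralBinom : ℝ) := by
      exact_mod_cast Nat.choose_le_centralBinom j h
    have h2 := Binom_central h
    have h3 : (0 : ℝ) ≤ h := Nat.cast_nonneg h
    calc ((2 * h).choose j : ℝ) ^ 2 * (((2 * h : ℕ) : ℝ) + 1)
        ≤ (h.centralBinom : ℝ) ^ 2 * (3 * h + 1) := by
          push_cast
          gcongr
          norm_num
      _ ≤ 16 ^ h := h2
      _ = 4 ^ (2 * h) := by rw [pow_mul]; norm_num
  · have h1 : ((2 * h + 1).choose j : ℝ) ≤ ((2 * h + 1).choose h : ℝ) := by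
      have := Nat.choose_le_middle j (2 * h + 1)
      have e : (2 * h + 1) / 2 = h := by omega
      rw [e] at this
      exact_mod_cast this
    have h2 := Binom_central (h + 1)
    have h3 : (0 : ℝ) ≤ h := Nat.cast_nonneg h
    have h4 : ((h + 1).centralBinom : ℝ) = 2 * ((2 * h + 1).choose h : ℝ) := by
      have : (h + 1).centralBinom = 2 * (2 * h + 1).choose h := by
        rw [Nat.centralBinom_eq_two_mul_choose]
        have e : 2 * (h + 1) = (2 * h + 1) + 1 := by ring
        rw [e, Nat.choose_succ_succ, Nat.choose_symm_half]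
        ring
      exact_mod_cast this
    rw [h4] at h2
    have h5 : ((2 * h + 1).choose j : ℝ) ^ 2 * (((2 * h + 1 : ℕ) : ℝ) + 1) ≤
        ((2 * h + 1).choose h : ℝ) ^ 2 * (3 * h + 4) := by
      push_cast
      have h7 : (2 : ℝ) * h + 1 + 1 ≤ 3 * h + 4 := by linarith
      gcongr
    push_cast at h2
    have h6 : (16 : ℝ) ^ (h + 1) = 4 * 4 ^ (2 * h + 1) := by
      rw [pow_succ 4 (2 * h), pow_mul, pow_succ]
      norm_num
      ring
    rw [h6] at h2
    nlinarith

theorem choose_sq_le (N j : ℕ) : N.choose j ^ 2 * (N + 1) ≤ 2 * 4 ^ N := by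
  have h := Binom_choose N j
  have h1 : N.choose j ^ 2 * (N + 1) ≤ 4 ^ N := by exact_mod_cast h
  have h2 : 0 < 4 ^ N := by positivity
  omega

/-- the largest `C(d-q, h-i)`, `i ≤ q` -/
def mx (d q h : ℕ) : ℕ :=
  (range (q + 1)).sup (fun i => if i ≤ h then (d - q).choose (h - i) else 0)

open Classical in
theorem class_card_le {d q h : ℕ} (hq : q ≤ d) {z : Finset ℕ} (hz : z ⊆ range q) :
    ((range d).powerset.filter (fun x => x.card = h ∧ x ∩ range q = z)).card ≤ mx d q h := by
  by_cases hzh : z.card ≤ h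
  · have h1 : ((range d).powerset.filter (fun x => x.card = h ∧ x ∩ range q = z)).card ≤
        ((range d \ range q).powersetCard (h - z.card)).card := by
      apply Finset.card_le_card_of_injOn (fun x => x \ range q)
      · intro x hx
        rw [Finset.mem_coe, Finset.mem_filter, Finset.mem_powerset] at hx
        obtain ⟨hx1, hx2, hx3⟩ := hx
        rw [Finset.mem_coe, Finset.mem_powersetCard]
        refine ⟨Finset.sdiff_subset_sdiff hx1 (le_refl _), ?_⟩
        have h2 := Finset.card_sdiff_add_card_inter x (range q)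
        rw [hx3, hx2] at h2
        show (x \ range q).card = h - z.card
        omega
      · intro x hx y hy hxy
        rw [Finset.mem_coe, Finset.mem_filter] at hx hy
        have hxy' : x \ range q = y \ range q := hxy
        rw [← Finset.sdiff_union_inter x (range q), ← Finset.sdiff_union_inter y (range q), hxy',
          hx.2.2, hy.2.2]
    rw [Finset.card_powersetCard, Finset.card_sdiff_of_subset (Finset.range_mono hq),
      Finset.card_range, Finset.card_range] at h1
    refine h1.trans ?_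
    have h3 : z.card ∈ range (q + 1) := by
      rw [Finset.mem_range]
      have := Finset.card_le_card hz
      rw [Finset.card_range] at this
      omega
    have h4 := Finset.le_sup (f := fun i => if i ≤ h then (d - q).choose (h - i) else 0) h3
    simp only [hzh, if_true] at h4
    exact h4
  · have h1 : (range d).powerset.filter (fun x => x.card = h ∧ x ∩ range q = z) = ∅ := by
      apply Finset.filter_eq_empty_iff.mpr
      rintro x _ ⟨h2, h3⟩
      apply hzh
      rw [← h2, ← h3]
      exact Finset.card_le_card Finset.inter_subset_left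
    rw [h1, Finset.card_empty]
    exact Nat.zero_le _

theorem Binom_mono {N a b : ℕ} (hab : a ≤ b) (hb : 2 * b ≤ N) : N.choose a ≤ N.choose b := by
  induction b, hab using Nat.le_induction with
  | base => exact le_refl _
  | succ b hab ih =>
    exact (ih (by omega)).trans (Nat.choose_le_succ_of_lt_half_left (by omega))

theorem Binom_anti {N a b : ℕ} (hab : a ≤ b) (ha : N ≤ 2 * a) : N.choose b ≤ N.choose a := by
  by_cases hb : b ≤ N
  · rw [← Nat.choose_symm hb, ← Nat.choose_symm (hab.trans hb)]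
    exact Binom_mono (by omega) (by omega)
  · rw [Nat.choose_eq_zero_of_lt (by omega)]
    exact Nat.zero_le _

theorem Binom_mx {d q h N : ℕ} (hN : d - q = N) : mx d q h ≤
    N.choose h + (if q ≤ h then N.choose (h - q) else 0) +
      (if N < 2 * h ∧ 2 * h < N + 2 * q then N.choose (N / 2) else 0) := by
  unfold mx
  apply Finset.sup_le
  intro i hi
  rw [Finset.mem_range] at hi
  rw [hN]
  by_cases hih : i ≤ h
  · rw [if_pos hih]
    by_cases h1 : 2 * h ≤ N
    · have := Binom_mono (N := N) (a := h - i) (b := h) (by omega) h1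
      omega
    · by_cases h2 : 2 * h < N + 2 * q
      · rw [if_pos (show N < 2 * h ∧ 2 * h < N + 2 * q from ⟨by omega, h2⟩)]
        have := Nat.choose_le_middle (h - i) N
        omega
      · rw [if_pos (show q ≤ h by omega)]
        have := Binom_anti (N := N) (a := h - q) (b := h - i) (by omega) (by omega)
        omega
  · rw [if_neg hih]
    exact Nat.zero_le _

theorem Binom_mid {d q N : ℕ} (hq : q ^ 2 ≤ d) (hN : d - q = N) :
    q * N.choose (N / 2) ≤ 2 * 2 ^ N := by
  have h1 := choose_sq_le N (N / 2)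
  have hqd : q ≤ d := (Nat.le_self_pow (by norm_num) q).trans hq
  have h2 : d ≤ 2 * (N + 1) := by
    have : 2 * q ≤ q ^ 2 + 2 := by
      zify
      nlinarith [sq_nonneg ((q : ℤ) - 1)]
    omega
  have h3 : (q * N.choose (N / 2)) ^ 2 * (N + 1) ≤ (2 * 2 ^ N) ^ 2 * (N + 1) := by
    calc (q * N.choose (N / 2)) ^ 2 * (N + 1)
        = q ^ 2 * (N.choose (N / 2) ^ 2 * (N + 1)) := by ring
      _ ≤ d * (2 * 4 ^ N) := Nat.mul_le_mul hq h1
      _ ≤ (2 * (N + 1)) * (2 * 4 ^ N) := Nat.mul_le_mul_right _ h2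
      _ = (2 * 2 ^ N) ^ 2 * (N + 1) := by
        have : (4 : ℕ) ^ N = (2 ^ N) ^ 2 := by
          rw [← pow_mul, mul_comm N 2, pow_mul]
          norm_num
        rw [this]
        ring
  have h4 := Nat.le_of_mul_le_mul_right h3 (Nat.succ_pos N)
  exact (Nat.pow_le_pow_iff_left (by norm_num)).mp h4

theorem window_sum {d q : ℕ} (hq : q ^ 2 ≤ d) :
    ∑ h ∈ range (d + 1), mx d q h ≤ 5 * 2 ^ (d - q) := by
  obtain ⟨N, hN⟩ : ∃ N, d - q = N := ⟨_, rfl⟩
  have hqd : q ≤ d := (Nat.le_self_pow (by norm_num) q).trans hq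
  have hd : d + 1 = q + (N + 1) := by omega
  have h1 : ∑ h ∈ range (d + 1), mx d q h ≤
      ∑ h ∈ range (d + 1), (N.choose h + (if q ≤ h then N.choose (h - q) else 0) +
      (if N < 2 * h ∧ 2 * h < N + 2 * q then N.choose (N / 2) else 0)) :=
    Finset.sum_le_sum fun h _ => Binom_mx hN
  rw [Finset.sum_add_distrib, Finset.sum_add_distrib] at h1
  have h2 : ∑ h ∈ range (d + 1), N.choose h = 2 ^ N := by
    rw [← Nat.sum_range_choose N]
    symm
    apply Finset.sum_subset (Finset.range_mono (by omega))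
    intro x _ hx
    rw [Finset.mem_range] at hx
    exact Nat.choose_eq_zero_of_lt (by omega)
  have h3 : ∑ h ∈ range (d + 1), (if q ≤ h then N.choose (h - q) else 0) = 2 ^ N := by
    rw [hd, Finset.sum_range_add (fun h => if q ≤ h then N.choose (h - q) else 0) q (N + 1)]
    have h4 : ∑ x ∈ range q, (if q ≤ x then N.choose (x - q) else 0) = 0 := by
      apply Finset.sum_eq_zero
      intro x hx
      rw [Finset.mem_range] at hx
      rw [if_neg (by omega)]
    rw [h4, zero_add, ← Nat.sum_range_choose N]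
    apply Finset.sum_congr rfl
    intro x _
    rw [if_pos (by omega)]
    congr 1
    omega
  have h5 : ∑ h ∈ range (d + 1), (if N < 2 * h ∧ 2 * h < N + 2 * q then N.choose (N / 2) else 0) ≤
      q * N.choose (N / 2) := by
    rw [← Finset.sum_filter, Finset.sum_const, smul_eq_mul]
    apply Nat.mul_le_mul_right
    have h6 : (range (d + 1)).filter (fun h => N < 2 * h ∧ 2 * h < N + 2 * q) ⊆
        Finset.Ico (N / 2 + 1) (N / 2 + 1 + q) := by
      intro x hx
      rw [Finset.mem_filter] at hx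
      rw [Finset.mem_Ico]
      omega
    have h7 := Finset.card_le_card h6
    rw [Nat.card_Ico] at h7
    omega
  have h8 := Binom_mid hq hN
  rw [hN]
  rw [h2, h3] at h1
  omega

end Pool.Agent.H9.BV
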