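import Pool.Agent.H9.BV.Itv

/-!
# JOB BV-9: the chain

`chain_fwd`: recursion on `h` with `chain_step`. Start: `a 0 = 0` and `Y 0` = a cluster
(`exists_cluster`) of `itv pos 0 (m 0)` with respect to `itv pos (m 0) (4 m 1)`. Invariant:
`a h + m h ≤ ∑_{j ≤ h} 4 m j`, `Y h` consists of near twins with respect to
`itv pos (a h + m h) (4 m (h+1))`, `m h ≤ 8 (KK k D * |Y h|)` (so `Y h` is nonempty as `m h > 0`). In the
step from `h` to `h+1 ≤ d` use `m1 = m (h+1)`, `m2 = m (h+2)`, `h + 2 ≤ d + 1`.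
`min_subset`: a subset of size `s` with small sum: induction on `|Y| - s`, remove an element with the
largest value.
`chain`: `|Y h| ≥ S h` (from `8 KK S h ≤ m h ≤ 8 KK |Y h|`, `KK > 0`). Backwards from `X d ⊆ Y d` of
size `S d`: given `X (h+1) ⊆ Y (h+1)` choose with `min_subset` a subset `X h ⊆ Y h` of size `S h` for the
function `c v = #{z ∈ X (h+1) : ¬ T v z}`: `∑_{v ∈ Y h} c v = ∑_{z ∈ X (h+1)} #{v ∈ Y h : ¬ T v z}
≤ S (h+1) ε |Y h|` (`miss_eq_left`, `miss_eq_right`), so `miss T (X h) (X (h+1)) = ∑_{X h} c ≤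
ε S h S (h+1)`. The sets are disjoint since they lie in the disjoint intervals
`itv pos (a h) (m h)`, `a h + m h ≤ a (h+1)`.

Status: complete (helper26).
-/

namespace Pool.Agent.H9.BV

open Finset Pool.Agent.H97.QD

variable {V : Type}

open Classical in
theorem chain_fwd [Fintype V] {T : V → V → Prop} (hT : IsTournament T) {k D : ℕ}
    (hk : VCle T k) (hD : 0 < D) {pos : V → ℕ} (hM : Med T pos) {ε : ℝ} (hε : 0 < ε)
    (hεD : 64 ≤ ε * D) {d : ℕ} {m : ℕ → ℕ} (hm : ∀ h, m h ≤ 2 * m (h + 1)) (hm0 : ∀ h, 0 < m h)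
    (hn : ∑ h ∈ range (d + 2), 4 * m h ≤ Fintype.card V) :
    ∃ (a : ℕ → ℕ) (Y : ℕ → Finset V),
      (∀ h ≤ d, Y h ⊆ itv pos (a h) (m h) ∧ m h ≤ 8 * (KK k D * (Y h).card)) ∧
      (∀ h < d, a h + m h ≤ a (h + 1)) ∧
      (∀ h < d, ∀ z ∈ Y (h + 1),
        (((Y h).filter (fun v => ¬ T v z)).card : ℝ) ≤ ε * (Y h).card) := by
  obtain ⟨Y0, hY0, htw0, hc0⟩ :=
    exists_cluster hk hD (itv pos 0 (m 0)) (itv pos (m 0) (4 * m 1))
  have hle : ∀ h, h + 1 ≤ d + 2 → ∑ j ∈ range (h + 1), 4 * m j ≤ Fintype.card V := by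
    intro h hh
    exact (Finset.sum_le_sum_of_subset (Finset.range_mono hh)).trans hn
  have h0 := hle 0 (by omega)
  rw [sum_range_succ, sum_range_zero] at h0
  have hc00 : (itv pos 0 (m 0)).card = m 0 := itv_card hM (by omega)
  let Inv : ℕ → ℕ × Finset V → Prop := fun h p =>
    p.1 + m h ≤ ∑ j ∈ range (h + 1), 4 * m j ∧ p.2 ⊆ itv pos p.1 (m h) ∧
      m h ≤ 8 * (KK k D * p.2.card) ∧
      ∀ u ∈ p.2, ∀ v ∈ p.2, Twin T (itv pos (p.1 + m h) (4 * m (h + 1))) D u v
  let Rel : ℕ → ℕ × Finset V → ℕ × Finset V → Prop := fun h p q =>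
    p.1 + m h ≤ q.1 ∧ ∀ z ∈ q.2, ((p.2.filter (fun v => ¬ T v z)).card : ℝ) ≤ ε * p.2.card
  have step : ∀ (h : ℕ) (p : ℕ × Finset V), ∃ q : ℕ × Finset V,
      h < d → Inv h p → Inv (h + 1) q ∧ Rel h p q := by
    intro h p
    by_cases hh : h < d
    · by_cases hp : Inv h p
      · obtain ⟨h1, h2, h3, h4⟩ := hp
        have hne : p.2.Nonempty := by
          rw [← card_pos]
          rcases Nat.eq_zero_or_pos p.2.card with h0 | h0
          · rw [h0] at h3
            have := hm0 h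
            omega
          · exact h0
        have hn' : p.1 + m h + 4 * m (h + 1) + 4 * m (h + 2) ≤ Fintype.card V := by
          have h5 := hle (h + 2) (by omega)
          rw [sum_range_succ, sum_range_succ] at h5
          omega
        obtain ⟨a1, Y1, g1, g2, g3, g4, g5, g6⟩ :=
          chain_step hT hk hD hM hε hεD (hm h) hn' h2 hne h4
        refine ⟨(a1, Y1), fun _ _ => ⟨⟨?_, g3, g4, g5⟩, g1, g6⟩⟩
        show a1 + m (h + 1) ≤ ∑ j ∈ range (h + 1 + 1), 4 * m j
        rw [sum_range_succ]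
        omega
      · exact ⟨p, fun _ h' => absurd h' hp⟩
    · exact ⟨p, fun h' => absurd h' hh⟩
  choose nxt hnxt using step
  let s : ℕ → ℕ × Finset V := fun n => Nat.rec (0, Y0) (fun h p => nxt h p) n
  have hs : ∀ h ≤ d, Inv h (s h) := by
    intro h
    induction h with
    | zero =>
      intro _
      refine ⟨?_, hY0, ?_, ?_⟩
      · show 0 + m 0 ≤ ∑ j ∈ range (0 + 1), 4 * m j
        rw [sum_range_succ, sum_range_zero]
        omega
      · show m 0 ≤ 8 * (KK k D * Y0.card)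
        rw [hc00] at hc0
        omega
      · show ∀ u ∈ Y0, ∀ v ∈ Y0, Twin T (itv pos (0 + m 0) (4 * m (0 + 1))) D u v
        rw [zero_add, zero_add]
        exact htw0
    | succ h ih =>
      intro hh
      exact (hnxt h (s h) (by omega) (ih (by omega))).1
  refine ⟨fun h => (s h).1, fun h => (s h).2, fun h hh => ?_, fun h hh => ?_, fun h hh => ?_⟩
  · exact ⟨(hs h hh).2.1, (hs h hh).2.2.1⟩
  · exact (hnxt h (s h) hh (hs h hh.le)).2.1
  · exact (hnxt h (s h) hh (hs h hh.le)).2.2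

theorem min_subset (Y : Finset V) (c : V → ℝ) {s : ℕ} (hs : s ≤ Y.card) :
    ∃ X ⊆ Y, X.card = s ∧ (Y.card : ℝ) * ∑ v ∈ X, c v ≤ s * ∑ v ∈ Y, c v := by
  classical
  induction Y using Finset.strongInduction with
  | H Y ih =>
    rcases hs.eq_or_lt with h | h
    · exact ⟨Y, Subset.refl _, h.symm, by rw [h]⟩
    · have hne : Y.Nonempty := by
        rw [← card_pos]
        omega
      obtain ⟨w, hw, hmax⟩ := exists_max_image Y c hne
      have hcard : (Y.erase w).card = Y.card - 1 := card_erase_of_mem hw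
      obtain ⟨X, hX, hXs, hXc⟩ := ih (Y.erase w) (erase_ssubset hw) (by omega)
      refine ⟨X, hX.trans (erase_subset _ _), hXs, ?_⟩
      have h1 : ∑ v ∈ X, c v ≤ s * c w := by
        calc ∑ v ∈ X, c v ≤ ∑ _v ∈ X, c w :=
              Finset.sum_le_sum fun v hv => hmax v (mem_of_mem_erase (hX hv))
          _ = s * c w := by rw [Finset.sum_const, hXs, nsmul_eq_mul]
      have h2 : ∑ v ∈ Y.erase w, c v + c w = ∑ v ∈ Y, c v := sum_erase_add _ _ hw
      have h3 : ((Y.erase w).card : ℝ) = (Y.card : ℝ) - 1 := by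
        rw [hcard, Nat.cast_sub (by omega)]
        simp
      rw [h3] at hXc
      rw [← h2]
      nlinarith

theorem chain [Fintype V] {T : V → V → Prop} (hT : IsTournament T) {k D : ℕ}
    (hk : VCle T k) (hD : 0 < D) {ε : ℝ} (hε : 0 < ε)
    (hεD : 64 ≤ ε * D) {d : ℕ} {m S : ℕ → ℕ} (hm : ∀ h, m h ≤ 2 * m (h + 1)) (hm0 : ∀ h, 0 < m h)
    (hn : ∑ h ∈ range (d + 2), 4 * m h ≤ Fintype.card V)
    (hS : ∀ h ≤ d, 8 * KK k D * S h ≤ m h) :
    ∃ X : ℕ → Finset V, (∀ h ≤ d, (X h).card = S h) ∧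
      (∀ h ≤ d, ∀ h' ≤ d, h ≠ h' → Disjoint (X h) (X h')) ∧
      (∀ h < d, (miss T (X h) (X (h + 1)) : ℝ) ≤ ε * S h * S (h + 1)) := by
  classical
  obtain ⟨pos, hM⟩ := exists_med hT
  obtain ⟨a, Y, hY, ha, hYm⟩ := chain_fwd hT hk hD hM hε hεD hm hm0 hn
  have hKK : 0 < KK k D := by
    unfold KK
    positivity
  have hSY : ∀ h ≤ d, S h ≤ (Y h).card := by
    intro h hh
    have h1 := hS h hh
    have h2 := (hY h hh).2
    have h3 : KK k D * S h ≤ KK k D * (Y h).card := by
      have h4 : 8 * (KK k D * S h) ≤ m h := by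
        rw [← mul_assoc]
        exact h1
      omega
    exact Nat.le_of_mul_le_mul_left h3 hKK
  have hYpos : ∀ h ≤ d, 0 < (Y h).card := by
    intro h hh
    have h2 := (hY h hh).2
    rcases Nat.eq_zero_or_pos (Y h).card with h0 | h0
    · rw [h0] at h2
      have := hm0 h
      omega
    · exact h0
  let G : ℕ → Finset V → Prop := fun h p => p ⊆ Y h ∧ p.card = S h
  have step : ∀ (h : ℕ) (p : Finset V), ∃ q : Finset V, h < d → G (h + 1) p →
      G h q ∧ (miss T q p : ℝ) ≤ ε * S h * S (h + 1) := by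
    intro h p
    by_cases hh : h < d
    · by_cases hp : G (h + 1) p
      · obtain ⟨X, hX, hXs, hXc⟩ := min_subset (Y h)
          (fun v => ((p.filter (fun z => ¬ T v z)).card : ℝ)) (hSY h hh.le)
        refine ⟨X, fun _ _ => ⟨⟨hX, hXs⟩, ?_⟩⟩
        have h1 : (miss T X p : ℝ) = ∑ v ∈ X, ((p.filter (fun z => ¬ T v z)).card : ℝ) := by
          rw [miss_eq_left]
          push_cast
          rfl
        have h2 : ∑ v ∈ Y h, ((p.filter (fun z => ¬ T v z)).card : ℝ) ≤
            S (h + 1) * (ε * (Y h).card) := by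
          have h3 : ∑ v ∈ Y h, ((p.filter (fun z => ¬ T v z)).card : ℝ) =
              ∑ z ∈ p, (((Y h).filter (fun v => ¬ T v z)).card : ℝ) := by
            have h4 := miss_eq_left T (Y h) p
            rw [miss_eq_right] at h4
            have h5 : ((∑ z ∈ p, ((Y h).filter (fun v => ¬ T v z)).card : ℕ) : ℝ) =
                ((∑ v ∈ Y h, (p.filter (fun z => ¬ T v z)).card : ℕ) : ℝ) := by
              exact_mod_cast h4
            push_cast at h5
            exact h5.symm
          rw [h3]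
          calc ∑ z ∈ p, (((Y h).filter (fun v => ¬ T v z)).card : ℝ)
              ≤ ∑ _z ∈ p, ε * (Y h).card :=
                Finset.sum_le_sum fun z hz => hYm h hh z (hp.1 hz)
            _ = S (h + 1) * (ε * (Y h).card) := by
                rw [Finset.sum_const, hp.2, nsmul_eq_mul]
        have hc : (0 : ℝ) < (Y h).card := by exact_mod_cast hYpos h hh.le
        have h3 : ((Y h).card : ℝ) * miss T X p ≤
            ((Y h).card : ℝ) * (ε * S h * S (h + 1)) := by
          rw [h1]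
          calc ((Y h).card : ℝ) * ∑ v ∈ X, ((p.filter (fun z => ¬ T v z)).card : ℝ)
              ≤ S h * ∑ v ∈ Y h, ((p.filter (fun z => ¬ T v z)).card : ℝ) := hXc
            _ ≤ S h * (S (h + 1) * (ε * (Y h).card)) :=
                mul_le_mul_of_nonneg_left h2 (Nat.cast_nonneg _)
            _ = ((Y h).card : ℝ) * (ε * S h * S (h + 1)) := by ring
        exact le_of_mul_le_mul_left h3 hc
      · exact ⟨p, fun _ h' => absurd h' hp⟩
    · exact ⟨p, fun h' => absurd h' hh⟩
  choose nx hnx using step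
  obtain ⟨Xd, hXd, hXdc⟩ := exists_subset_card_eq (hSY d le_rfl)
  let Z : ℕ → Finset V := fun n => Nat.rec Xd (fun i p => nx (d - (i + 1)) p) n
  have hZ : ∀ i ≤ d, G (d - i) (Z i) := by
    intro i
    induction i with
    | zero =>
      intro _
      exact ⟨hXd, hXdc⟩
    | succ i ih =>
      intro hh
      have h1 : d - (i + 1) + 1 = d - i := by omega
      have h2 := ih (by omega)
      rw [← h1] at h2
      exact (hnx (d - (i + 1)) (Z i) (by omega) h2).1
  have hX : ∀ h ≤ d, G h (Z (d - h)) := by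
    intro h hh
    have := hZ (d - h) (by omega)
    rwa [show d - (d - h) = h by omega] at this
  have hmon : ∀ h h', h < h' → h' ≤ d → a h + m h ≤ a h' := by
    intro h h' hlt
    induction h' with
    | zero => omega
    | succ h' ih =>
      intro hh
      rcases Nat.lt_succ_iff_lt_or_eq.1 hlt with h1 | h1
      · have h2 := ih h1 (by omega)
        have h3 := ha h' (by omega)
        omega
      · rw [h1]
        exact ha h' (by omega)
  have hdis : ∀ h h', h < h' → h' ≤ d → Disjoint (Z (d - h)) (Z (d - h')) := by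
    intro h h' hlt hh
    rw [disjoint_left]
    intro x hx hx'
    have h1 := bv8_itv_mem.1 ((hY h (by omega)).1 ((hX h (by omega)).1 hx))
    have h2 := bv8_itv_mem.1 ((hY h' hh).1 ((hX h' hh).1 hx'))
    have h3 := hmon h h' hlt hh
    omega
  refine ⟨fun h => Z (d - h), fun h hh => (hX h hh).2, fun h hh h' hh' hne => ?_, fun h hh => ?_⟩
  · rcases Nat.lt_or_gt_of_ne hne with h1 | h1
    · exact hdis h h' h1 hh'
    · exact (hdis h' h h1 hh).symm
  · have h1 : Z (d - h) = nx h (Z (d - (h + 1))) := by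
      have h2 : d - h = (d - (h + 1)) + 1 := by omega
      have h3 : d - (d - (h + 1) + 1) = h := by omega
      have h4 : Z (d - (h + 1) + 1) = nx (d - (d - (h + 1) + 1)) (Z (d - (h + 1))) := rfl
      rw [h2, h4, h3]
    show (miss T (Z (d - h)) (Z (d - (h + 1))) : ℝ) ≤ ε * S h * S (h + 1)
    rw [h1]
    exact (hnx h (Z (d - (h + 1))) hh (hX (h + 1) (by omega))).2

end Pool.Agent.H9.BV
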