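import Pool.Agent.H9.BV.Pack

/-!
# JOB BV-3: clusters of near twins, cut into parts of equal size

`exists_split`: induction on the number of elements (`Finset.exists_subset_card_eq`): if
`X.card < s` take the empty family, else remove a subset of size `s`.
`exists_parts`: for `Y ∈ F` let `C Y ⊆ X` be a subset of largest cardinality such that
`Y.card < D * (df T Y u v).card` for all `u ≠ v` in `C Y`. By `pack` it has at most `KK k D` elements,
and by maximality every `u ∈ X` has some `c Y u ∈ C Y` with `D * (df T Y u (c Y u)).card ≤ Y.card`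
(`c Y u = u` if `u ∈ C Y`). Let `Φ u = (fun Y : F => c Y u)`. If `Φ u = Φ v` then
`D (df T Y u v).card ≤ D (df T Y u c).card + D (df T Y c v).card ≤ 2 Y.card` (`df_triangle`,
`df_comm`), so `Twin T Y D u v` for all `Y ∈ F`. `Φ` takes at most `KK^(F.card) ≤ KK^t` values on `X`
(`KK k D ≥ 1`): the image is contained in `Fintype.piFinset` or `Finset.pi`. Apply `exists_split` to
each fibre and take the union of the families (a part of size `s > 0` determines its fibre, so the
cardinalities add up): `X.card = ∑ fibres ≤ ∑ (number of parts + 1) s`.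
`exists_cluster`: the same with one set `I` and without cutting: the largest fibre of `u ↦ c I u`.
-/

namespace Pool.Agent.H9.BV

open Finset

variable {V : Type}

theorem exists_split {s : ℕ} (hs : 0 < s) (X : Finset V) :
    ∃ P : Finset (Finset V), (∀ A ∈ P, A ⊆ X ∧ A.card = s) ∧
      (∀ A ∈ P, ∀ B ∈ P, A ≠ B → Disjoint A B) ∧ X.card ≤ (P.card + 1) * s := by
  classical
  induction X using Finset.strongInduction with
  | H X ih =>
    rcases Nat.lt_or_ge X.card s with h | h
    · refine ⟨∅, by simp, by simp, ?_⟩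
      simp only [card_empty, zero_add, one_mul]
      exact h.le
    · obtain ⟨A, hA, hAc⟩ := exists_subset_card_eq h
      have hAne : A.Nonempty := by
        rw [← card_pos, hAc]
        exact hs
      have hss : X \ A ⊂ X := by
        refine Finset.ssubset_iff_subset_ne.2 ⟨sdiff_subset, ?_⟩
        intro he
        obtain ⟨a, ha⟩ := hAne
        have : a ∈ X \ A := by
          rw [he]
          exact hA ha
        exact (mem_sdiff.1 this).2 ha
      obtain ⟨P, hP1, hP2, hP3⟩ := ih (X \ A) hss
      have hdis : ∀ B ∈ P, Disjoint A B := by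
        intro B hB
        have := (hP1 B hB).1
        rw [disjoint_left]
        intro x hx hxB
        exact (mem_sdiff.1 (this hxB)).2 hx
      have hAP : A ∉ P := by
        intro hAP
        have := hdis A hAP
        rw [disjoint_self_iff_empty] at this
        rw [this] at hAne
        exact not_nonempty_empty hAne
      refine ⟨insert A P, ?_, ?_, ?_⟩
      · intro B hB
        rcases mem_insert.1 hB with rfl | hB
        · exact ⟨hA, hAc⟩
        · exact ⟨(hP1 B hB).1.trans sdiff_subset, (hP1 B hB).2⟩
      · intro B hB C hC hBC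
        rcases mem_insert.1 hB with hB1 | hB1
        · rcases mem_insert.1 hC with hC1 | hC1
          · exact absurd (hB1.trans hC1.symm) hBC
          · rw [hB1]
            exact hdis C hC1
        · rcases mem_insert.1 hC with hC1 | hC1
          · rw [hC1]
            exact (hdis B hB1).symm
          · exact hP2 B hB1 C hC1 hBC
      · rw [card_insert_of_notMem hAP]
        have h1 : (X \ A).card = X.card - s := by rw [card_sdiff_of_subset hA, hAc]
        rw [h1] at hP3
        have : X.card = (X.card - s) + s := by omega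
        rw [this]
        calc X.card - s + s ≤ (P.card + 1) * s + s := by omega
          _ = (P.card + 1 + 1) * s := by ring

private theorem clus_net [Fintype V] {T : V → V → Prop} {k D : ℕ} (hk : VCle T k) (hD : 0 < D)
    (X Y : Finset V) : ∃ (C : Finset V) (c : V → V), C.card ≤ KK k D ∧
      ∀ u ∈ X, c u ∈ C ∧ D * (df T Y u (c u)).card ≤ Y.card := by
  classical
  set Q : Finset (Finset V) := X.powerset.filter
    (fun C => ∀ u ∈ C, ∀ v ∈ C, u ≠ v → Y.card < D * (df T Y u v).card) with hQ
  have hQne : Q.Nonempty := ⟨∅, by simp [hQ]⟩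
  obtain ⟨C, hC, hmax⟩ := exists_max_image Q card hQne
  rw [hQ, mem_filter, mem_powerset] at hC
  have hex : ∀ u ∈ X, ∃ w ∈ C, D * (df T Y u w).card ≤ Y.card := by
    intro u hu
    by_cases huC : u ∈ C
    · refine ⟨u, huC, ?_⟩
      rw [df_self]
      simp
    · by_contra hcon
      push Not at hcon
      have hin : insert u C ∈ Q := by
        rw [hQ, mem_filter, mem_powerset]
        refine ⟨insert_subset hu hC.1, ?_⟩
        intro a ha b hb hab
        rcases mem_insert.1 ha with ha1 | ha1
        · rcases mem_insert.1 hb with hb1 | hb1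
          · exact absurd (ha1.trans hb1.symm) hab
          · rw [ha1]
            exact hcon b hb1
        · rcases mem_insert.1 hb with hb1 | hb1
          · rw [df_comm, hb1]
            exact hcon a ha1
          · exact hC.2 a ha1 b hb1 hab
      have h1 := hmax _ hin
      rw [card_insert_of_notMem huC] at h1
      omega
  refine ⟨C, fun u => if hu : u ∈ X then (hex u hu).choose else u, pack hk hD Y C hC.2, ?_⟩
  intro u hu
  simp only [dif_pos hu]
  exact (hex u hu).choose_spec

private theorem clus_twin {T : V → V → Prop} {D : ℕ} {Y : Finset V} {u v w : V}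
    (hu : D * (df T Y u w).card ≤ Y.card) (hv : D * (df T Y v w).card ≤ Y.card) :
    Twin T Y D u v := by
  classical
  unfold Twin
  have h1 : (df T Y u v).card ≤ (df T Y u w).card + (df T Y v w).card := by
    calc (df T Y u v).card ≤ (df T Y u w ∪ df T Y w v).card := card_le_card (df_triangle T Y u w v)
      _ ≤ (df T Y u w).card + (df T Y w v).card := card_union_le _ _
      _ = (df T Y u w).card + (df T Y v w).card := by rw [df_comm T Y w v]
  calc D * (df T Y u v).card ≤ D * ((df T Y u w).card + (df T Y v w).card) :=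
        Nat.mul_le_mul_left D h1
    _ = D * (df T Y u w).card + D * (df T Y v w).card := by ring
    _ ≤ 2 * Y.card := by omega

theorem exists_parts [Fintype V] {T : V → V → Prop} {k D s t : ℕ} (hk : VCle T k) (hD : 0 < D)
    (hs : 0 < s) (X : Finset V) (F : Finset (Finset V)) (hF : F.card ≤ t) :
    ∃ P : Finset (Finset V), Parts T X F D s P ∧ X.card ≤ (P.card + KK k D ^ t) * s := by
  classical
  choose C c hCc hc using fun Y : Finset V => clus_net hk hD X Y
  set Φ : V → ({Y // Y ∈ F} → V) := fun u Y => c Y.1 u with hΦ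
  set I : Finset ({Y // Y ∈ F} → V) := X.image Φ with hI
  have hKK : 1 ≤ KK k D := by
    unfold KK
    exact Nat.one_le_pow _ _ (by positivity)
  have hIc : I.card ≤ KK k D ^ t := by
    have h1 : I ⊆ Fintype.piFinset (fun Y : {Y // Y ∈ F} => C Y.1) := by
      intro φ hφ
      rw [hI, mem_image] at hφ
      obtain ⟨u, hu, rfl⟩ := hφ
      rw [Fintype.mem_piFinset]
      intro Y
      exact (hc Y.1 u hu).1
    calc I.card ≤ (Fintype.piFinset (fun Y : {Y // Y ∈ F} => C Y.1)).card := card_le_card h1
      _ = ∏ Y : {Y // Y ∈ F}, (C Y.1).card := Fintype.card_piFinset _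
      _ ≤ ∏ _Y : {Y // Y ∈ F}, KK k D := prod_le_prod' (fun Y _ => hCc Y.1)
      _ = KK k D ^ F.card := by simp
      _ ≤ KK k D ^ t := Nat.pow_le_pow_right hKK hF
  choose P hP1 hP2 hP3 using fun φ : ({Y // Y ∈ F} → V) =>
    exists_split hs (X.filter (fun u => Φ u = φ))
  have hne : ∀ φ, ∀ A ∈ P φ, A.Nonempty := by
    intro φ A hA
    rw [← card_pos, (hP1 φ A hA).2]
    exact hs
  have hfib : ∀ φ, ∀ A ∈ P φ, ∀ u ∈ A, u ∈ X ∧ Φ u = φ := by
    intro φ A hA u hu
    have := (hP1 φ A hA).1 hu
    exact mem_filter.1 this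
  have hdisjP : ∀ φ ∈ I, ∀ ψ ∈ I, φ ≠ ψ → Disjoint (P φ) (P ψ) := by
    intro φ _ ψ _ hne'
    rw [disjoint_left]
    intro A hA hA'
    obtain ⟨u, hu⟩ := hne φ A hA
    exact hne' ((hfib φ A hA u hu).2.symm.trans (hfib ψ A hA' u hu).2)
  refine ⟨I.biUnion P, ⟨?_, ?_, ?_, ?_⟩, ?_⟩
  · intro A hA
    rw [mem_biUnion] at hA
    obtain ⟨φ, _, hA⟩ := hA
    exact fun u hu => (hfib φ A hA u hu).1
  · intro A hA
    rw [mem_biUnion] at hA
    obtain ⟨φ, _, hA⟩ := hA
    exact (hP1 φ A hA).2
  · intro A hA B hB hAB
    rw [mem_biUnion] at hA hB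
    obtain ⟨φ, _, hA⟩ := hA
    obtain ⟨ψ, _, hB⟩ := hB
    by_cases hφ : φ = ψ
    · subst hφ
      exact hP2 φ A hA B hB hAB
    · rw [disjoint_left]
      intro u hu hu'
      exact hφ ((hfib φ A hA u hu).2.symm.trans (hfib ψ B hB u hu').2)
  · intro A hA Y hY u hu v hv
    rw [mem_biUnion] at hA
    obtain ⟨φ, _, hA⟩ := hA
    have h1 := hfib φ A hA u hu
    have h2 := hfib φ A hA v hv
    have h3 : c Y u = c Y v := by
      have := congrFun (h1.2.trans h2.2.symm) ⟨Y, hY⟩
      exact this
    refine clus_twin (hc Y u h1.1).2 ?_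
    rw [h3]
    exact (hc Y v h2.1).2
  · have h1 : X.card = ∑ φ ∈ I, (X.filter (fun u => Φ u = φ)).card :=
      card_eq_sum_card_image Φ X
    have h2 : (I.biUnion P).card = ∑ φ ∈ I, (P φ).card := card_biUnion hdisjP
    calc X.card = ∑ φ ∈ I, (X.filter (fun u => Φ u = φ)).card := h1
      _ ≤ ∑ φ ∈ I, ((P φ).card + 1) * s := sum_le_sum (fun φ _ => hP3 φ)
      _ = (∑ φ ∈ I, ((P φ).card + 1)) * s := (sum_mul _ _ _).symm
      _ = ((I.biUnion P).card + I.card) * s := by
          rw [sum_add_distrib, h2]
          simp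
      _ ≤ ((I.biUnion P).card + KK k D ^ t) * s :=
          Nat.mul_le_mul_right s (Nat.add_le_add_left hIc _)

theorem exists_cluster [Fintype V] {T : V → V → Prop} {k D : ℕ} (hk : VCle T k) (hD : 0 < D)
    (X I : Finset V) : ∃ Y ⊆ X, (∀ u ∈ Y, ∀ v ∈ Y, Twin T I D u v) ∧
      X.card ≤ KK k D * Y.card := by
  classical
  obtain ⟨C, c, hCc, hc⟩ := clus_net hk hD X I
  rcases X.eq_empty_or_nonempty with hX | hX
  · subst hX
    exact ⟨∅, Subset.refl _, by simp, by simp⟩
  · obtain ⟨x0, hx0⟩ := hX
    have hCne : C.Nonempty := ⟨c x0, (hc x0 hx0).1⟩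
    obtain ⟨w, hw, hmax⟩ := exists_max_image C (fun w => (X.filter (fun u => c u = w)).card) hCne
    refine ⟨X.filter (fun u => c u = w), filter_subset _ _, ?_, ?_⟩
    · intro u hu v hv
      rw [mem_filter] at hu hv
      have h1 := (hc u hu.1).2
      have h2 := (hc v hv.1).2
      rw [hu.2] at h1
      rw [hv.2] at h2
      exact clus_twin h1 h2
    · have h1 : X.card = ∑ b ∈ C, (X.filter (fun u => c u = b)).card :=
        card_eq_sum_card_fiberwise (fun u hu => (hc u hu).1)
      calc X.card = ∑ b ∈ C, (X.filter (fun u => c u = b)).card := h1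
        _ ≤ ∑ _b ∈ C, (X.filter (fun u => c u = w)).card := sum_le_sum hmax
        _ = C.card * (X.filter (fun u => c u = w)).card := by simp
        _ ≤ KK k D * (X.filter (fun u => c u = w)).card := Nat.mul_le_mul_right _ hCc

end Pool.Agent.H9.BV
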