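import Pool.Agent.H9.BV.Basic

/-!
# JOB BV-5: distinct representatives, and few atypical parts (two small lemmas)

`sdr`: induction on `I` (`Finset.induction_on`; generalise the hypothesis `hcard` to the subset, it
is inherited by subsets): given `f` on `I` and a new index `i`, the values `f j`, `j ∈ I`, which lie
in `A i` belong to `j` with `g j = g i`; these are fewer than `(A i).card`, so some element of `A i` is
not a value of `f`; define `f i` to be this element (`Function.update`).

`atyp_card` (Markov and union bound): for `j ∈ J` the number of `A ∈ P` with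
`η * |Y j| < s' * #{B ∈ Q j : bad A B}` times `η |Y j|` is at most
`s' * #{(A,B) : bad A B} ≤ 3 ε |X||Y j| / s`.
-/

namespace Pool.Agent.H9.BV

open Finset

variable {V : Type}

theorem sdr {ι κ α : Type} [DecidableEq ι] [DecidableEq κ] [DecidableEq α] [Nonempty α]
    (I : Finset ι)
    (A : ι → Finset α) (g : ι → κ) (hdisj : ∀ i ∈ I, ∀ j ∈ I, g i ≠ g j → Disjoint (A i) (A j))
    (hcard : ∀ i ∈ I, (I.filter (fun j => g j = g i)).card ≤ (A i).card) :
    ∃ f : ι → α, (∀ i ∈ I, f i ∈ A i) ∧ Set.InjOn f I := by
  induction I using Finset.induction_on with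
  | empty => exact ⟨fun _ => Classical.arbitrary α, by simp, by simp⟩
  | insert i I hi ih =>
    obtain ⟨f, hf, hinj⟩ := ih
      (fun a ha b hb => hdisj a (mem_insert_of_mem ha) b (mem_insert_of_mem hb))
      (fun a ha => (card_le_card (filter_subset_filter _ (subset_insert i I))).trans
        (hcard a (mem_insert_of_mem ha)))
    have hlt : ((I.filter (fun j => g j = g i)).image f).card < (A i).card := by
      refine lt_of_le_of_lt card_image_le (lt_of_lt_of_le ?_ (hcard i (mem_insert_self i I)))
      refine card_lt_card ?_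
      rw [ssubset_iff_of_subset (filter_subset_filter _ (subset_insert i I))]
      exact ⟨i, mem_filter.2 ⟨mem_insert_self i I, rfl⟩, fun h => hi (mem_filter.1 h).1⟩
    obtain ⟨a, haA, haf⟩ := exists_mem_notMem_of_card_lt_card hlt
    have hne : ∀ j ∈ I, f j ≠ a := by
      intro j hj hja
      by_cases hg : g j = g i
      · exact haf (mem_image.2 ⟨j, mem_filter.2 ⟨hj, hg⟩, hja⟩)
      · have hd := hdisj j (mem_insert_of_mem hj) i (mem_insert_self i I) hg
        have h1 := hf j hj
        rw [hja] at h1
        exact (Finset.disjoint_left.1 hd) h1 haA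
    have hupd : ∀ j ∈ I, Function.update f i a j = f j := by
      intro j hj
      have hji : j ≠ i := by
        rintro rfl
        exact hi hj
      exact Function.update_of_ne hji _ _
    refine ⟨Function.update f i a, ?_, ?_⟩
    · intro j hj
      rcases mem_insert.1 hj with rfl | hj
      · simpa using haA
      · rw [hupd j hj]; exact hf j hj
    · intro j hj k hk hjk
      rcases mem_insert.1 (mem_coe.1 hj) with hj1 | hj1 <;>
        rcases mem_insert.1 (mem_coe.1 hk) with hk1 | hk1
      · rw [hj1, hk1]
      · subst hj1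
        rw [hupd k hk1, Function.update_self] at hjk
        exact absurd hjk.symm (hne k hk1)
      · subst hk1
        rw [hupd j hj1, Function.update_self] at hjk
        exact absurd hjk (hne j hj1)
      · rw [hupd j hj1, hupd k hk1] at hjk
        exact hinj hj1 hk1 hjk

open Classical in
theorem atyp_card {ι : Type} (J : Finset ι) (P : Finset (Finset V)) (Q : ι → Finset (Finset V))
    (bad : Finset V → Finset V → Prop) {x y s s' ε η : ℝ} (hη : 0 < η) (hy : 0 < y) (hs : 0 < s)
    (hs' : 0 < s')
    (hbad : ∀ j ∈ J, (((P ×ˢ Q j).filter (fun p => bad p.1 p.2)).card : ℝ) * (s * s') ≤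
      3 * ε * x * y) :
    ((P.filter (fun A => ∃ j ∈ J, η * y < s' * ((Q j).filter (fun B => bad A B)).card)).card : ℝ) *
      (s * η) ≤ J.card * (3 * ε * x) := by
  have key : ∀ j ∈ J,
      ((P.filter (fun A => η * y < s' * ((Q j).filter (fun B => bad A B)).card)).card : ℝ) *
        (s * η) ≤ 3 * ε * x := by
    intro j hj
    set W := P.filter (fun A => η * y < s' * ((Q j).filter (fun B => bad A B)).card) with hW
    have h1 : (((P ×ˢ Q j).filter (fun p => bad p.1 p.2)).card : ℝ) =
        ∑ A ∈ P, (((Q j).filter (fun B => bad A B)).card : ℝ) := by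
      rw [card_filter, sum_product]
      push_cast
      refine sum_congr rfl (fun A _ => ?_)
      rw [card_filter]
      push_cast
      rfl
    have h2 : (W.card : ℝ) * (η * y) ≤ s' * ∑ A ∈ P, (((Q j).filter (fun B => bad A B)).card : ℝ) := by
      have h3 : (W.card : ℝ) * (η * y) = ∑ _A ∈ W, η * y := by
        rw [sum_const, nsmul_eq_mul]
      rw [h3, mul_sum]
      calc ∑ _A ∈ W, η * y ≤ ∑ A ∈ W, s' * (((Q j).filter (fun B => bad A B)).card : ℝ) :=
            sum_le_sum (fun A hA => ((mem_filter.1 hA).2).le)
        _ ≤ ∑ A ∈ P, s' * (((Q j).filter (fun B => bad A B)).card : ℝ) :=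
            sum_le_sum_of_subset_of_nonneg (filter_subset _ _)
              (fun A _ _ => mul_nonneg hs'.le (Nat.cast_nonneg _))
    have h4 := hbad j hj
    rw [h1] at h4
    have h5 : ((W.card : ℝ) * (s * η)) * y ≤ (3 * ε * x) * y := by
      calc ((W.card : ℝ) * (s * η)) * y = s * ((W.card : ℝ) * (η * y)) := by ring
        _ ≤ s * (s' * ∑ A ∈ P, (((Q j).filter (fun B => bad A B)).card : ℝ)) :=
            mul_le_mul_of_nonneg_left h2 hs.le
        _ = (∑ A ∈ P, (((Q j).filter (fun B => bad A B)).card : ℝ)) * (s * s') := by ring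
        _ ≤ (3 * ε * x) * y := h4
    exact le_of_mul_le_mul_right h5 hy
  have hsub : P.filter (fun A => ∃ j ∈ J, η * y < s' * ((Q j).filter (fun B => bad A B)).card) ⊆
      J.biUnion (fun j => P.filter (fun A => η * y < s' * ((Q j).filter (fun B => bad A B)).card)) := by
    intro A hA
    obtain ⟨hAP, j, hj, hlt⟩ := mem_filter.1 hA
    exact mem_biUnion.2 ⟨j, hj, mem_filter.2 ⟨hAP, hlt⟩⟩
  have hc : ((P.filter (fun A => ∃ j ∈ J,
      η * y < s' * ((Q j).filter (fun B => bad A B)).card)).card : ℝ) ≤
      ∑ j ∈ J, ((P.filter (fun A => η * y < s' * ((Q j).filter (fun B => bad A B)).card)).card : ℝ) := by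
    have := (card_le_card hsub).trans card_biUnion_le
    exact_mod_cast this
  have hpos : 0 ≤ s * η := (mul_pos hs hη).le
  calc _ ≤ (∑ j ∈ J, ((P.filter (fun A =>
        η * y < s' * ((Q j).filter (fun B => bad A B)).card)).card : ℝ)) * (s * η) :=
        mul_le_mul_of_nonneg_right hc hpos
    _ = ∑ j ∈ J, ((P.filter (fun A =>
        η * y < s' * ((Q j).filter (fun B => bad A B)).card)).card : ℝ) * (s * η) := by
        rw [sum_mul]
    _ ≤ ∑ _j ∈ J, 3 * ε * x := sum_le_sum key
    _ = J.card * (3 * ε * x) := by rw [sum_const, nsmul_eq_mul]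

end Pool.Agent.H9.BV
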