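import Pool.Agent.H9.BV.Nbr
import Pool.Agent.H9.BV.Sdr

/-!
# JOB BV-10: embedding the cube into a blueprint of high quality

Write `cls x = x ∩ range q`. (1) Cleaning. For `h < d`, `z ⊆ range q` let `X' h z` be the set of the
`v ∈ X h z` such that for all `z' ∈ outN q z` at most `S (h+1) / (8 d)` vertices `w ∈ X (h+1) z'` have
`¬ T v w`; `X' d z = X d z`. By `miss_eq_left`, Markov and `outN_card` at most
`(q+1) * (ε S h S (h+1)) / (S (h+1)/(8d)) = 8 d (q+1) ε S h ≤ S h / 4` vertices are removed.
(2) Greedy, layer by layer (layer `h`: the `x ⊆ range d` with `x.card = h`; induction on the layers as in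
`layers`): `sdr` with `I` = layer `h`, `g x = cls x`,
`A x = (X' h (cls x)).filter (fun w => ∀ i ∈ x, T (φ (x.erase i)) w)`. For `i ∈ x` the vertex
`φ (x.erase i)` lies in `X' (h-1) (cls (x.erase i))` and `Adj (cls (x.erase i)) (cls x)` (`adj_inter`), so
it excludes at most `S h/(8d)` vertices; all `h ≤ d` of them exclude at most `S h/8`. So
`|A x| ≥ 3/4 S h - 1/8 S h ≥ S h / 2 ≥` the number of the `y` in the layer with `cls y = cls x` (`hS`).
The sets `A x`, `A y` with `cls x ≠ cls y` are disjoint by `hB.disj`.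
(3) `φ` is injective: within a layer by `sdr`, for different layers by `hB.disj`. For `i ∉ x`:
`(insert i x).erase i = x`, so `T (φ x) (φ (insert i x))`.
-/

namespace Pool.Agent.H9.BV

open Finset

variable {V : Type}

open Classical in
/-- the cleaned sets -/
noncomputable def embC (T : V → V → Prop) (d q : ℕ) (S : ℕ → ℕ) (X : ℕ → Finset ℕ → Finset V)
    (h : ℕ) (z : Finset ℕ) : Finset V :=
  (X h z).filter (fun v => h < d → ∀ z' ∈ outN q z,
    8 * d * ((X (h + 1) z').filter (fun w => ¬ T v w)).card ≤ S (h + 1))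

open Classical in
lemma embC_card {T : V → V → Prop} {d q : ℕ} {ε : ℝ} {S : ℕ → ℕ} {X : ℕ → Finset ℕ → Finset V}
    (hB : Blue T d q ε S X) (hε : 32 * d * (q + 1) * ε ≤ 1)
    (hS0 : ∀ h ≤ d, 0 < S h) {h : ℕ} (hh : h ≤ d) {z : Finset ℕ} (hz : z ⊆ range q) :
    3 * S h ≤ 4 * (embC T d q S X h z).card := by
  rcases Nat.lt_or_ge h d with hlt | hge
  · have hS1 : 0 < S (h + 1) := hS0 _ hlt
    have hS1' : (0 : ℝ) < S (h + 1) := by exact_mod_cast hS1
    set R : Finset ℕ → Finset V := fun z' => (X h z).filter (fun v =>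
      S (h + 1) < 8 * d * ((X (h + 1) z').filter (fun w => ¬ T v w)).card) with hR
    have hRc : ∀ z' ∈ outN q z, ((R z').card : ℝ) ≤ 8 * d * ε * S h := by
      intro z' hz'
      obtain ⟨h1, h2⟩ := mem_outN.1 hz'
      have h3 := hB.arc h hlt z hz z' h1 h2
      have h4 : (R z').card * S (h + 1) ≤ 8 * d * miss T (X h z) (X (h + 1) z') := by
        rw [miss_eq_left, Finset.mul_sum]
        calc (R z').card * S (h + 1) = ∑ _v ∈ R z', S (h + 1) := by
              rw [Finset.sum_const, smul_eq_mul]
          _ ≤ ∑ v ∈ R z', 8 * d * ((X (h + 1) z').filter (fun w => ¬ T v w)).card := by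
              apply Finset.sum_le_sum
              intro v hv
              exact (Finset.mem_filter.1 hv).2.le
          _ ≤ _ := Finset.sum_le_sum_of_subset (Finset.filter_subset _ _)
      have h5 : ((R z').card : ℝ) * S (h + 1) ≤ 8 * d * (miss T (X h z) (X (h + 1) z') : ℝ) := by
        exact_mod_cast h4
      have h6 : 8 * (d : ℝ) * (miss T (X h z) (X (h + 1) z') : ℝ) ≤
          8 * d * (ε * S h * S (h + 1)) := mul_le_mul_of_nonneg_left h3 (by positivity)
      have h7 : ((R z').card : ℝ) * S (h + 1) ≤ (8 * d * ε * S h) * S (h + 1) := by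
        refine (h5.trans h6).trans (le_of_eq (by ring))
      exact le_of_mul_le_mul_right h7 hS1'
    have hsub : X h z ⊆ embC T d q S X h z ∪ (outN q z).biUnion R := by
      intro v hv
      by_cases hvc : v ∈ embC T d q S X h z
      · exact Finset.mem_union_left _ hvc
      · apply Finset.mem_union_right
        unfold embC at hvc
        rw [Finset.mem_filter] at hvc
        push Not at hvc
        obtain ⟨-, z', hz', hlt'⟩ := hvc hv
        exact Finset.mem_biUnion.2 ⟨z', hz', Finset.mem_filter.2 ⟨hv, hlt'⟩⟩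
    have h8 := (Finset.card_le_card hsub).trans (Finset.card_union_le _ _)
    rw [hB.card h hh z hz] at h8
    have h9 : (((outN q z).biUnion R).card : ℝ) ≤ (q + 1) * (8 * d * ε * S h) := by
      have e1 : (((outN q z).biUnion R).card : ℝ) ≤ ∑ z' ∈ outN q z, ((R z').card : ℝ) := by
        exact_mod_cast Finset.card_biUnion_le
      have e2 : ∑ z' ∈ outN q z, ((R z').card : ℝ) ≤ (outN q z).card • (8 * d * ε * (S h : ℝ)) :=
        Finset.sum_le_card_nsmul _ _ _ hRc
      rw [nsmul_eq_mul] at e2
      rcases (outN q z).eq_empty_or_nonempty with he | ⟨z', hz'⟩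
      · exfalso
        have : z ∈ outN q z := mem_outN.2 ⟨hz, ⟨Finset.Subset.refl _, Nat.le_succ _⟩⟩
        rw [he] at this
        exact absurd this (Finset.notMem_empty _)
      · have e3 : 0 ≤ 8 * d * ε * (S h : ℝ) := le_trans (Nat.cast_nonneg _) (hRc z' hz')
        have e4 : ((outN q z).card : ℝ) ≤ q + 1 := by exact_mod_cast outN_card q z
        exact e1.trans (e2.trans (mul_le_mul_of_nonneg_right e4 e3))
    have h10 : (q + 1) * (8 * d * ε * S h) ≤ (S h : ℝ) / 4 := by
      have e1 : (q + 1) * (8 * d * ε * S h) = (32 * d * (q + 1) * ε) * ((S h : ℝ) / 4) := by ring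
      rw [e1]
      have e2 : (0 : ℝ) ≤ (S h : ℝ) / 4 := by positivity
      nlinarith
    have h11 : 4 * ((outN q z).biUnion R).card ≤ S h := by
      have : (4 : ℝ) * (((outN q z).biUnion R).card : ℝ) ≤ S h := by linarith
      exact_mod_cast this
    omega
  · have he : embC T d q S X h z = X h z := by
      unfold embC
      apply Finset.filter_true_of_mem
      intro v _ hlt
      omega
    rw [he, hB.card h hh z hz]
    omega

open Classical in
lemma emb_layer {T : V → V → Prop} {d q : ℕ} {ε : ℝ} {S : ℕ → ℕ} {X : ℕ → Finset ℕ → Finset V}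
    (hB : Blue T d q ε S X) (hd : 1 ≤ d) (hε : 32 * d * (q + 1) * ε ≤ 1)
    (hS0 : ∀ h ≤ d, 0 < S h)
    (hS : ∀ h ≤ d, ∀ z ⊆ range q,
      4 * ((range d).powerset.filter (fun x => x.card = h ∧ x ∩ range q = z)).card ≤ S h)
    {e : ℕ} (he : e ≤ d + 1) :
    ∃ φ : Finset ℕ → V, (∀ x ⊆ range d, x.card < e → φ x ∈ embC T d q S X x.card (x ∩ range q)) ∧
      (∀ x ⊆ range d, ∀ y ⊆ range d, x.card < e → x.card = y.card → φ x = φ y → x = y) ∧
      (∀ x ⊆ range d, x.card < e → ∀ i ∈ x, T (φ (x.erase i)) (φ x)) := by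
  induction e with
  | zero =>
    have h1 := embC_card hB hε hS0 (Nat.zero_le d) (Finset.empty_subset (range q))
    have h2 := hS0 0 (Nat.zero_le d)
    have h3 : 0 < (embC T d q S X 0 ∅).card := by omega
    obtain ⟨v, -⟩ := Finset.card_pos.1 h3
    exact ⟨fun _ => v, fun x _ hx => absurd hx (Nat.not_lt_zero _),
      fun x _ y _ hx => absurd hx (Nat.not_lt_zero _), fun x _ hx => absurd hx (Nat.not_lt_zero _)⟩
  | succ e ih =>
    have hed : e ≤ d := by omega
    obtain ⟨φ, hφ1, hφ2, hφ3⟩ := ih (by omega)
    set I : Finset (Finset ℕ) := (range d).powerset.filter (fun x => x.card = e) with hI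
    set A : Finset ℕ → Finset V := fun x => (embC T d q S X e (x ∩ range q)).filter
      (fun w => ∀ i ∈ x, T (φ (x.erase i)) w) with hA
    have hmemI : ∀ x, x ∈ I ↔ x ⊆ range d ∧ x.card = e := by
      intro x
      rw [hI, Finset.mem_filter, Finset.mem_powerset]
    have hdisj : ∀ x ∈ I, ∀ y ∈ I, x ∩ range q ≠ y ∩ range q → Disjoint (A x) (A y) := by
      intro x hx y hy hne
      have h1 := hB.disj e hed e hed (x ∩ range q) Finset.inter_subset_right
        (y ∩ range q) Finset.inter_subset_right (Or.inr hne)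
      refine Finset.disjoint_of_subset_left ?_ (Finset.disjoint_of_subset_right ?_ h1)
      · exact (Finset.filter_subset _ _).trans (Finset.filter_subset _ _)
      · exact (Finset.filter_subset _ _).trans (Finset.filter_subset _ _)
    have hcard : ∀ x ∈ I, (I.filter (fun y => y ∩ range q = x ∩ range q)).card ≤ (A x).card := by
      intro x hx
      obtain ⟨hxd, hxe⟩ := (hmemI x).1 hx
      have hz : x ∩ range q ⊆ range q := Finset.inter_subset_right
      have h1 := hS e hed (x ∩ range q) hz
      have h2 : (I.filter (fun y => y ∩ range q = x ∩ range q)) =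
          (range d).powerset.filter (fun y => y.card = e ∧ y ∩ range q = x ∩ range q) := by
        rw [hI, Finset.filter_filter]
      rw [h2]
      have h3 := embC_card hB hε hS0 hed hz
      set Bd : ℕ → Finset V := fun i => (X e (x ∩ range q)).filter
        (fun w => ¬ T (φ (x.erase i)) w) with hBd
      have h4 : ∀ i ∈ x, 8 * d * (Bd i).card ≤ S e := by
        intro i hi
        have hxi : (x.erase i).card = e - 1 := by rw [Finset.card_erase_of_mem hi, hxe]
        have hpos : 0 < x.card := Finset.card_pos.2 ⟨i, hi⟩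
        have he1 : e - 1 + 1 = e := by omega
        have h5 := hφ1 (x.erase i) ((Finset.erase_subset _ _).trans hxd) (by omega)
        rw [hxi] at h5
        unfold embC at h5
        have h6 := (Finset.mem_filter.1 h5).2 (by omega) (x ∩ range q)
          (mem_outN.2 ⟨hz, adj_inter ⟨Finset.erase_subset _ _, by omega⟩ _⟩)
        rw [he1] at h6
        exact h6
      have h7 : embC T d q S X e (x ∩ range q) ⊆ A x ∪ x.biUnion Bd := by
        intro w hw
        by_cases hwA : w ∈ A x
        · exact Finset.mem_union_left _ hwA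
        · apply Finset.mem_union_right
          simp only [hA, Finset.mem_filter, not_and] at hwA
          have h8 := hwA hw
          push Not at h8
          obtain ⟨i, hi, hni⟩ := h8
          refine Finset.mem_biUnion.2 ⟨i, hi, Finset.mem_filter.2 ⟨?_, hni⟩⟩
          exact (Finset.filter_subset _ _) hw
      have h8 := (Finset.card_le_card h7).trans (Finset.card_union_le _ _)
      have h9 : 8 * d * (x.biUnion Bd).card ≤ d * S e := by
        calc 8 * d * (x.biUnion Bd).card ≤ 8 * d * ∑ i ∈ x, (Bd i).card :=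
              Nat.mul_le_mul_left _ Finset.card_biUnion_le
          _ = ∑ i ∈ x, 8 * d * (Bd i).card := by rw [Finset.mul_sum]
          _ ≤ ∑ _i ∈ x, S e := Finset.sum_le_sum h4
          _ = e * S e := by rw [Finset.sum_const, smul_eq_mul, hxe]
          _ ≤ d * S e := Nat.mul_le_mul_right _ hed
      have h10 : 8 * (x.biUnion Bd).card ≤ S e := by
        have : d * (8 * (x.biUnion Bd).card) ≤ d * S e := by
          rw [← mul_assoc, mul_comm d 8]; exact h9
        exact Nat.le_of_mul_le_mul_left this (by omega)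
      omega
    have hne : Nonempty V := ⟨φ ∅⟩
    obtain ⟨f, hf1, hf2⟩ := sdr I A (fun x => x ∩ range q) hdisj hcard
    have hlt : ∀ x : Finset ℕ, x.card < e → (if x.card = e then f x else φ x) = φ x :=
      fun x hx => if_neg (by omega)
    have heq : ∀ x : Finset ℕ, x.card = e → (if x.card = e then f x else φ x) = f x :=
      fun x hx => if_pos hx
    refine ⟨fun x => if x.card = e then f x else φ x, ?_, ?_, ?_⟩
    · intro x hx hxe
      rcases Nat.lt_succ_iff_lt_or_eq.1 hxe with h | h
      · simp only [hlt x h]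
        exact hφ1 x hx h
      · simp only [heq x h]
        have h1 := hf1 x ((hmemI x).2 ⟨hx, h⟩)
        rw [h]
        exact (Finset.filter_subset _ _) h1
    · intro x hx y hy hxe hxy hxy'
      rcases Nat.lt_succ_iff_lt_or_eq.1 hxe with h | h
      · simp only [hlt x h, hlt y (by omega)] at hxy'
        exact hφ2 x hx y hy h hxy hxy'
      · simp only [heq x h, heq y (by omega)] at hxy'
        exact hf2 ((hmemI x).2 ⟨hx, h⟩) ((hmemI y).2 ⟨hy, by omega⟩) hxy'
    · intro x hx hxe i hi
      have hxi : (x.erase i).card = x.card - 1 := Finset.card_erase_of_mem hi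
      have hpos : 0 < x.card := Finset.card_pos.2 ⟨i, hi⟩
      simp only [hlt (x.erase i) (by omega)]
      rcases Nat.lt_succ_iff_lt_or_eq.1 hxe with h | h
      · simp only [hlt x h]
        exact hφ3 x hx h i hi
      · simp only [heq x h]
        have h1 := hf1 x ((hmemI x).2 ⟨hx, h⟩)
        exact (Finset.mem_filter.1 h1).2 i hi

open Classical in
theorem embed {T : V → V → Prop} {d q : ℕ} {ε : ℝ} {S : ℕ → ℕ} {X : ℕ → Finset ℕ → Finset V}
    (hB : Blue T d q ε S X) (hd : 1 ≤ d) (hε : 32 * d * (q + 1) * ε ≤ 1)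
    (hS0 : ∀ h ≤ d, 0 < S h)
    (hS : ∀ h ≤ d, ∀ z ⊆ range q,
      4 * ((range d).powerset.filter (fun x => x.card = h ∧ x ∩ range q = z)).card ≤ S h) :
    ∃ φ : Finset ℕ → V, (∀ x ⊆ range d, ∀ y ⊆ range d, φ x = φ y → x = y) ∧
      ∀ x ⊆ range d, ∀ i ∈ range d, i ∉ x → T (φ x) (φ (insert i x)) := by
  obtain ⟨φ, h1, h2, h3⟩ := emb_layer hB hd hε hS0 hS (le_refl (d + 1))
  have hc : ∀ x ⊆ range d, x.card < d + 1 := by
    intro x hx
    have := Finset.card_le_card hx
    rw [Finset.card_range] at this
    omega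
  refine ⟨φ, ?_, ?_⟩
  · intro x hx y hy hxy
    by_cases hcard : x.card = y.card
    · exact h2 x hx y hy (hc x hx) hcard hxy
    · exfalso
      have h4 := hB.disj x.card (by have := hc x hx; omega) y.card (by have := hc y hy; omega)
        (x ∩ range q) Finset.inter_subset_right (y ∩ range q) Finset.inter_subset_right
        (Or.inl hcard)
      have h5 := (Finset.filter_subset _ _) (h1 x hx (hc x hx))
      have h6 := (Finset.filter_subset _ _) (h1 y hy (hc y hy))
      rw [hxy] at h5
      exact Finset.disjoint_left.1 h4 h5 h6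
  · intro x hx i hi hix
    have h4 : insert i x ⊆ range d := Finset.insert_subset hi hx
    have h5 := h3 (insert i x) h4 (hc _ h4) i (Finset.mem_insert_self _ _)
    rwa [Finset.erase_insert hix] at h5

end Pool.Agent.H9.BV
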