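import Pool.Agent.H9.BV.Basic

/-!
# JOB BV-4: most pairs of parts are nearly complete

(1) `hom_ineq`. Let `a = miss T P Q`, `A x y := T x y` on `P × Q`. The number of the quadruples
`(u,y,v,y')`, `u,v ∈ P`, `y,y' ∈ Q` with `A u y ≠ A v y'` is `2 a (|P||Q| - a)`. Each of them has
`A u y ≠ A v y` (there are `|Q| ∑_{u,v ∈ P} (df T Q u v).card` quadruples of this kind) or
`A v y ≠ A v y'`; as `P`, `Q` are disjoint and `T` is a tournament, `A v y ≠ A v y'` iff
`v ∈ df T P y y'` (`T v y ↔ ¬ T y v`), which gives `|P| ∑_{y,y' ∈ Q} (df T P y y').card` quadruples.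
(2) `sum_df`: for `u, v ∈ A ∈ P`: `∑_{B ∈ Q} (df T B u v).card ≤ (df T Y u v).card` (the sets `B ∈ Q`
are disjoint subsets of `Y`) and `D (df T Y u v).card ≤ 2 |Y|`.
(3) `bad_pairs`. Sum (1) over all `A ∈ P, B ∈ Q` (`|A| = s`, `|B| = s'`), by (2) and
`|P| s ≤ |X|`, `|Q| s' ≤ |Y|`:  `∑ 2 a (s s' - a) ≤ s' |P| s^2 2|Y|/D + s |Q| s'^2 2|X|/D
≤ 4 s s' |X||Y| / D`. Let a pair be bad if `a > ρ s s'`. Bad pairs with `a ≥ s s'/2`: their number
times `s s'/2` is at most `∑ a ≤ miss T X Y ≤ ε |X||Y|`. Bad pairs with `a < s s'/2`: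
`2a(s s' - a) ≥ a s s' ≥ ρ (s s')^2`, so their number times `ρ (s s')^2` is at most
`4 s s' |X||Y|/D`, that is, number times `s s'` at most `4|X||Y|/(ρ D) ≤ ε |X||Y|`.
-/

namespace Pool.Agent.H9.BV

open Finset Pool.Agent.H97.QD

variable {V : Type}

open Classical in
/-- indicator of the pairs that are not arcs -/
private noncomputable def bv4a (T : V → V → Prop) (x y : V) : ℝ := if T x y then 0 else 1

private lemma bv4a_nonneg (T : V → V → Prop) (x y : V) : 0 ≤ bv4a T x y := by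
  unfold bv4a
  split_ifs <;> norm_num

private lemma bv4_miss (T : V → V → Prop) (P Q : Finset V) :
    (miss T P Q : ℝ) = ∑ x ∈ P, ∑ y ∈ Q, bv4a T x y := by
  classical
  rw [miss_eq_left]
  push_cast
  refine Finset.sum_congr rfl fun x _ => ?_
  rw [Finset.card_filter]
  push_cast
  refine Finset.sum_congr rfl fun y _ => ?_
  unfold bv4a
  by_cases h : T x y <;> simp [h]

private lemma bv4_df (T : V → V → Prop) (Q : Finset V) (u v : V) :
    ((df T Q u v).card : ℝ) =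
      ∑ y ∈ Q, (bv4a T u y + bv4a T v y - 2 * (bv4a T u y * bv4a T v y)) := by
  classical
  unfold df
  rw [Finset.card_filter]
  push_cast
  refine Finset.sum_congr rfl fun y _ => ?_
  unfold bv4a
  by_cases h : T u y <;> by_cases h' : T v y <;> simp [h, h'] <;> norm_num

private lemma bv4_df' {T : V → V → Prop} (hT : IsTournament T) {P : Finset V} {y y' : V}
    (hy : y ∉ P) (hy' : y' ∉ P) :
    ((df T P y y').card : ℝ) =
      ∑ v ∈ P, (bv4a T v y + bv4a T v y' - 2 * (bv4a T v y * bv4a T v y')) := by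
  classical
  unfold df
  rw [Finset.card_filter]
  push_cast
  refine Finset.sum_congr rfl fun v hv => ?_
  have h1 : v ≠ y := fun h => hy (h ▸ hv)
  have h2 : v ≠ y' := fun h => hy' (h ▸ hv)
  have e1 : T y v ↔ ¬ T v y := hT.2 y v h1.symm
  have e2 : T y' v ↔ ¬ T v y' := hT.2 y' v h2.symm
  rw [e1, e2]
  unfold bv4a
  by_cases h : T v y <;> by_cases h' : T v y' <;> simp [h, h'] <;> norm_num

private lemma bv4_tri (T : V → V → Prop) (u v y y' : V) :
    bv4a T u y + bv4a T v y' - 2 * (bv4a T u y * bv4a T v y') ≤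
      (bv4a T u y + bv4a T v y - 2 * (bv4a T u y * bv4a T v y)) +
      (bv4a T v y + bv4a T v y' - 2 * (bv4a T v y * bv4a T v y')) := by
  unfold bv4a
  by_cases h1 : T u y <;> by_cases h2 : T v y <;> by_cases h3 : T v y' <;> simp [h1, h2, h3] <;>
    norm_num

theorem hom_ineq {T : V → V → Prop} (hT : IsTournament T) {P Q : Finset V} (hPQ : Disjoint P Q) :
    2 * (miss T P Q : ℝ) * (P.card * Q.card - miss T P Q) ≤
      Q.card * ∑ u ∈ P, ∑ v ∈ P, ((df T Q u v).card : ℝ) +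
      P.card * ∑ u ∈ Q, ∑ v ∈ Q, ((df T P u v).card : ℝ) := by
  classical
  have hmem : ∀ y ∈ Q, y ∉ P := fun y hy hyP => (Finset.disjoint_left.mp hPQ) hyP hy
  -- the sum over the quadruples
  have key : ∑ u ∈ P, ∑ v ∈ P, ∑ y ∈ Q, ∑ y' ∈ Q,
      (bv4a T u y + bv4a T v y' - 2 * (bv4a T u y * bv4a T v y')) ≤
      ∑ u ∈ P, ∑ v ∈ P, ∑ y ∈ Q, ∑ y' ∈ Q,
      ((bv4a T u y + bv4a T v y - 2 * (bv4a T u y * bv4a T v y)) +
      (bv4a T v y + bv4a T v y' - 2 * (bv4a T v y * bv4a T v y'))) :=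
    Finset.sum_le_sum fun u _ => Finset.sum_le_sum fun v _ => Finset.sum_le_sum fun y _ =>
      Finset.sum_le_sum fun y' _ => bv4_tri T u v y y'
  have eL : ∑ u ∈ P, ∑ v ∈ P, ∑ y ∈ Q, ∑ y' ∈ Q,
      (bv4a T u y + bv4a T v y' - 2 * (bv4a T u y * bv4a T v y')) =
      2 * (miss T P Q : ℝ) * (P.card * Q.card - miss T P Q) := by
    rw [bv4_miss]
    have e1 : ∀ u v : V, ∑ y ∈ Q, ∑ y' ∈ Q,
        (bv4a T u y + bv4a T v y' - 2 * (bv4a T u y * bv4a T v y')) =
        (Q.card : ℝ) * (∑ y ∈ Q, bv4a T u y) + (Q.card : ℝ) * (∑ y ∈ Q, bv4a T v y) -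
          2 * ((∑ y ∈ Q, bv4a T u y) * (∑ y ∈ Q, bv4a T v y)) := by
      intro u v
      simp only [Finset.sum_sub_distrib, Finset.sum_add_distrib, Finset.sum_const, nsmul_eq_mul,
        ← Finset.mul_sum, ← Finset.sum_mul]
    simp only [e1, Finset.sum_sub_distrib, Finset.sum_add_distrib, Finset.sum_const, nsmul_eq_mul,
      ← Finset.mul_sum, ← Finset.sum_mul]
    ring
  have eR : ∑ u ∈ P, ∑ v ∈ P, ∑ y ∈ Q, ∑ y' ∈ Q,
      ((bv4a T u y + bv4a T v y - 2 * (bv4a T u y * bv4a T v y)) +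
      (bv4a T v y + bv4a T v y' - 2 * (bv4a T v y * bv4a T v y'))) =
      Q.card * ∑ u ∈ P, ∑ v ∈ P, ((df T Q u v).card : ℝ) +
      P.card * ∑ u ∈ Q, ∑ v ∈ Q, ((df T P u v).card : ℝ) := by
    have e1 : ∀ u v : V, ∑ y ∈ Q, ∑ y' ∈ Q,
        ((bv4a T u y + bv4a T v y - 2 * (bv4a T u y * bv4a T v y)) +
        (bv4a T v y + bv4a T v y' - 2 * (bv4a T v y * bv4a T v y'))) =
        (Q.card : ℝ) * ((df T Q u v).card : ℝ) +
          ∑ y ∈ Q, ∑ y' ∈ Q, (bv4a T v y + bv4a T v y' - 2 * (bv4a T v y * bv4a T v y')) := by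
      intro u v
      rw [bv4_df]
      simp only [Finset.sum_add_distrib, Finset.sum_const, nsmul_eq_mul, Finset.mul_sum]
    simp only [e1]
    rw [Finset.sum_congr rfl (fun u _ => Finset.sum_add_distrib), Finset.sum_add_distrib]
    congr 1
    · simp only [Finset.mul_sum]
    · rw [Finset.sum_const, nsmul_eq_mul]
      congr 1
      rw [Finset.sum_comm]
      refine Finset.sum_congr rfl fun y hy => ?_
      rw [Finset.sum_comm]
      refine Finset.sum_congr rfl fun y' hy' => ?_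
      rw [bv4_df' hT (hmem y hy) (hmem y' hy')]
  rw [eL, eR] at key
  exact key

open Classical in
private lemma bv4_sum_parts {X : Finset V} {P : Finset (Finset V)} (hsub : ∀ A ∈ P, A ⊆ X)
    (hdisj : ∀ A ∈ P, ∀ B ∈ P, A ≠ B → Disjoint A B) (f : V → ℝ) (hf : ∀ x ∈ X, 0 ≤ f x) :
    ∑ A ∈ P, ∑ x ∈ A, f x ≤ ∑ x ∈ X, f x := by
  have h1 : ∑ x ∈ P.biUnion id, f x = ∑ A ∈ P, ∑ x ∈ A, f x :=
    Finset.sum_biUnion (fun A hA B hB hAB => hdisj A hA B hB hAB)
  rw [← h1]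
  refine Finset.sum_le_sum_of_subset_of_nonneg ?_ (fun x hx _ => hf x hx)
  intro x hx
  rw [Finset.mem_biUnion] at hx
  obtain ⟨A, hA, hxA⟩ := hx
  exact hsub A hA hxA

private lemma bv4_card {X : Finset V} {P : Finset (Finset V)} {s : ℕ} (hsub : ∀ A ∈ P, A ⊆ X)
    (hcard : ∀ A ∈ P, A.card = s)
    (hdisj : ∀ A ∈ P, ∀ B ∈ P, A ≠ B → Disjoint A B) :
    (P.card : ℝ) * s ≤ X.card := by
  have h := bv4_sum_parts hsub hdisj (fun _ => (1 : ℝ)) (fun _ _ => zero_le_one)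
  simp only [Finset.sum_const, nsmul_eq_mul, mul_one] at h
  calc (P.card : ℝ) * s = ∑ A ∈ P, (A.card : ℝ) := by
        rw [Finset.sum_congr rfl (fun A hA => by rw [hcard A hA]), Finset.sum_const, nsmul_eq_mul]
    _ ≤ X.card := h

/-- one half of the sum over the pairs of parts -/
private lemma bv4_half {T : V → V → Prop} {X Y : Finset V} {F : Finset (Finset V)} (hF : Y ∈ F)
    {D s s' : ℕ} (hD : 0 < D) {P Q : Finset (Finset V)} (hP : Parts T X F D s P)
    (hQs : ∀ B ∈ Q, B ⊆ Y) (hQd : ∀ A ∈ Q, ∀ B ∈ Q, A ≠ B → Disjoint A B) :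
    ∑ A ∈ P, ∑ B ∈ Q, (s' : ℝ) * ∑ u ∈ A, ∑ v ∈ A, ((df T B u v).card : ℝ) ≤
      2 * s * s' * X.card * Y.card / D := by
  classical
  have hD' : (0 : ℝ) < D := by exact_mod_cast hD
  have h1 : ∀ A ∈ P, ∑ B ∈ Q, (s' : ℝ) * ∑ u ∈ A, ∑ v ∈ A, ((df T B u v).card : ℝ) ≤
      (s' : ℝ) * (s * (s * (2 * Y.card / D))) := by
    intro A hA
    rw [← Finset.mul_sum]
    refine mul_le_mul_of_nonneg_left ?_ (Nat.cast_nonneg _)
    rw [Finset.sum_comm]
    have hc : A.card = s := hP.card A hA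
    calc ∑ u ∈ A, ∑ B ∈ Q, ∑ v ∈ A, ((df T B u v).card : ℝ)
        ≤ ∑ _u ∈ A, (s : ℝ) * (2 * Y.card / D) := by
          refine Finset.sum_le_sum fun u hu => ?_
          rw [Finset.sum_comm]
          calc ∑ v ∈ A, ∑ B ∈ Q, ((df T B u v).card : ℝ)
              ≤ ∑ _v ∈ A, (2 * (Y.card : ℝ) / D) := by
                refine Finset.sum_le_sum fun v hv => ?_
                have h2 : ∑ B ∈ Q, ((df T B u v).card : ℝ) ≤ ((df T Y u v).card : ℝ) := by
                  rw [bv4_df T Y]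
                  rw [Finset.sum_congr rfl (fun B _ => bv4_df T B u v)]
                  refine bv4_sum_parts hQs hQd _ (fun y _ => ?_)
                  unfold bv4a
                  split_ifs <;> norm_num
                refine h2.trans ?_
                have h3 : D * (df T Y u v).card ≤ 2 * Y.card := hP.twin A hA Y hF u hu v hv
                have h4 : (D : ℝ) * ((df T Y u v).card : ℝ) ≤ 2 * (Y.card : ℝ) := by
                  exact_mod_cast h3
                rw [le_div_iff₀ hD']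
                linarith
            _ = (s : ℝ) * (2 * Y.card / D) := by
                rw [Finset.sum_const, nsmul_eq_mul, hc]
      _ = s * (s * (2 * Y.card / D)) := by
          rw [Finset.sum_const, nsmul_eq_mul, hc]
  have h5 : (P.card : ℝ) * s ≤ X.card := bv4_card hP.sub hP.card hP.disj
  calc ∑ A ∈ P, ∑ B ∈ Q, (s' : ℝ) * ∑ u ∈ A, ∑ v ∈ A, ((df T B u v).card : ℝ)
      ≤ ∑ _A ∈ P, (s' : ℝ) * (s * (s * (2 * Y.card / D))) := Finset.sum_le_sum h1
    _ = (P.card * s) * (s' * (s * (2 * Y.card / D))) := by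
        rw [Finset.sum_const, nsmul_eq_mul]; ring
    _ ≤ X.card * (s' * (s * (2 * Y.card / D))) :=
        mul_le_mul_of_nonneg_right h5 (by positivity)
    _ = 2 * s * s' * X.card * Y.card / D := by ring

open Classical in
theorem bad_pairs {T : V → V → Prop} (hT : IsTournament T) {X Y : Finset V} (hXY : Disjoint X Y)
    {F G : Finset (Finset V)} (hF : Y ∈ F) (hG : X ∈ G) {D s s' : ℕ} {P Q : Finset (Finset V)}
    (hs : 0 < s) (hs' : 0 < s') (hP : Parts T X F D s P) (hQ : Parts T Y G D s' Q) {ε ρ : ℝ}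
    (hε : 0 < ε) (hρ : 0 < ρ) (hmiss : (miss T X Y : ℝ) ≤ ε * X.card * Y.card)
    (hD : 4 ≤ ρ * ε * D) :
    (((P ×ˢ Q).filter (fun p => ρ * s * s' < (miss T p.1 p.2 : ℝ))).card : ℝ) * (s * s') ≤
      3 * ε * X.card * Y.card := by
  have hD0 : 0 < D := by
    rcases Nat.eq_zero_or_pos D with h | h
    · exfalso
      rw [h] at hD
      norm_num at hD
    · exact h
  have hD' : (0 : ℝ) < D := by exact_mod_cast hD0
  have hsr : (0 : ℝ) < s := by exact_mod_cast hs
  have hsr' : (0 : ℝ) < s' := by exact_mod_cast hs'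
  have hss : (0 : ℝ) < s * s' := mul_pos hsr hsr'
  -- sum of the misses
  have hsum1 : ∑ A ∈ P, ∑ B ∈ Q, (miss T A B : ℝ) ≤ ε * X.card * Y.card := by
    refine le_trans ?_ hmiss
    rw [bv4_miss T X Y]
    calc ∑ A ∈ P, ∑ B ∈ Q, (miss T A B : ℝ)
        = ∑ A ∈ P, ∑ x ∈ A, ∑ B ∈ Q, ∑ y ∈ B, bv4a T x y := by
          refine Finset.sum_congr rfl fun A _ => ?_
          rw [Finset.sum_comm]
          exact Finset.sum_congr rfl fun B _ => bv4_miss T A B
      _ ≤ ∑ A ∈ P, ∑ x ∈ A, ∑ y ∈ Y, bv4a T x y := by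
          refine Finset.sum_le_sum fun A _ => Finset.sum_le_sum fun x _ => ?_
          exact bv4_sum_parts hQ.sub hQ.disj _ (fun y _ => bv4a_nonneg T x y)
      _ ≤ ∑ x ∈ X, ∑ y ∈ Y, bv4a T x y :=
          bv4_sum_parts hP.sub hP.disj _
            (fun x _ => Finset.sum_nonneg fun y _ => bv4a_nonneg T x y)
  -- sum of the products
  have hsum2 : ∑ A ∈ P, ∑ B ∈ Q, 2 * (miss T A B : ℝ) * (s * s' - miss T A B) ≤
      4 * (s * s') * X.card * Y.card / D := by
    have h1 : ∀ A ∈ P, ∀ B ∈ Q, 2 * (miss T A B : ℝ) * (s * s' - miss T A B) ≤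
        (s' : ℝ) * (∑ u ∈ A, ∑ v ∈ A, ((df T B u v).card : ℝ)) +
        (s : ℝ) * (∑ u ∈ B, ∑ v ∈ B, ((df T A u v).card : ℝ)) := by
      intro A hA B hB
      have hdis : Disjoint A B :=
        Finset.disjoint_of_subset_left (hP.sub A hA)
          (Finset.disjoint_of_subset_right (hQ.sub B hB) hXY)
      have h := hom_ineq hT hdis
      rw [hP.card A hA, hQ.card B hB] at h
      exact h
    calc ∑ A ∈ P, ∑ B ∈ Q, 2 * (miss T A B : ℝ) * (s * s' - miss T A B)
        ≤ ∑ A ∈ P, ∑ B ∈ Q, ((s' : ℝ) * (∑ u ∈ A, ∑ v ∈ A, ((df T B u v).card : ℝ)) +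
        (s : ℝ) * (∑ u ∈ B, ∑ v ∈ B, ((df T A u v).card : ℝ))) :=
          Finset.sum_le_sum fun A hA => Finset.sum_le_sum fun B hB => h1 A hA B hB
      _ = ∑ A ∈ P, ∑ B ∈ Q, (s' : ℝ) * (∑ u ∈ A, ∑ v ∈ A, ((df T B u v).card : ℝ)) +
          ∑ B ∈ Q, ∑ A ∈ P, (s : ℝ) * (∑ u ∈ B, ∑ v ∈ B, ((df T A u v).card : ℝ)) := by
          rw [Finset.sum_congr rfl (fun A _ => Finset.sum_add_distrib), Finset.sum_add_distrib]
          congr 1
          exact Finset.sum_comm
      _ ≤ 2 * s * s' * X.card * Y.card / D + 2 * s' * s * Y.card * X.card / D :=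
          add_le_add (bv4_half hF hD0 hP hQ.sub hQ.disj) (bv4_half hG hD0 hQ hP.sub hP.disj)
      _ = 4 * (s * s') * X.card * Y.card / D := by ring
  -- nonnegativity
  have hle : ∀ A ∈ P, ∀ B ∈ Q, (miss T A B : ℝ) ≤ s * s' := by
    intro A hA B hB
    have h := miss_le T A B
    rw [hP.card A hA, hQ.card B hB] at h
    exact_mod_cast h
  -- pointwise
  have hpt : ∀ p ∈ P ×ˢ Q, (if ρ * s * s' < (miss T p.1 p.2 : ℝ) then (s * s' : ℝ) else 0) ≤
      2 * (miss T p.1 p.2 : ℝ) +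
        1 / (ρ * (s * s')) * (2 * (miss T p.1 p.2 : ℝ) * (s * s' - miss T p.1 p.2)) := by
    intro p hp
    rw [Finset.mem_product] at hp
    have hl := hle p.1 hp.1 p.2 hp.2
    have h0 : (0 : ℝ) ≤ (miss T p.1 p.2 : ℝ) := Nat.cast_nonneg _
    generalize (miss T p.1 p.2 : ℝ) = a at *
    have hq : 0 < ρ * (s * s' : ℝ) := mul_pos hρ hss
    have hn : 0 ≤ 1 / (ρ * (s * s' : ℝ)) * (2 * a * (s * s' - a)) := by
      apply mul_nonneg (by positivity)
      apply mul_nonneg (by positivity)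
      linarith
    split_ifs with hb
    · by_cases hc : (s * s' : ℝ) / 2 ≤ a
      · linarith
      · push Not at hc
        have hstep : (s * s' : ℝ) ≤ 1 / (ρ * (s * s')) * (2 * a * (s * s' - a)) := by
          rw [one_div, ← div_eq_inv_mul, le_div_iff₀ hq]
          have h1 : ρ * (s * s' : ℝ) ≤ a := by
            have : ρ * (s * s' : ℝ) = ρ * s * s' := by ring
            linarith
          have h2 : (s * s' : ℝ) ≤ 2 * (s * s' - a) := by linarith
          calc (s * s' : ℝ) * (ρ * (s * s')) ≤ (2 * (s * s' - a)) * a :=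
                mul_le_mul h2 h1 hq.le (by linarith)
            _ = 2 * a * (s * s' - a) := by ring
        linarith
    · linarith
  have hcardeq : (((P ×ˢ Q).filter (fun p => ρ * s * s' < (miss T p.1 p.2 : ℝ))).card : ℝ) *
      (s * s') = ∑ p ∈ P ×ˢ Q,
        (if ρ * s * s' < (miss T p.1 p.2 : ℝ) then (s * s' : ℝ) else 0) := by
    rw [← Finset.sum_filter, Finset.sum_const, nsmul_eq_mul]
  rw [hcardeq]
  calc ∑ p ∈ P ×ˢ Q, (if ρ * s * s' < (miss T p.1 p.2 : ℝ) then (s * s' : ℝ) else 0)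
      ≤ ∑ p ∈ P ×ˢ Q, (2 * (miss T p.1 p.2 : ℝ) +
        1 / (ρ * (s * s')) * (2 * (miss T p.1 p.2 : ℝ) * (s * s' - miss T p.1 p.2))) :=
        Finset.sum_le_sum hpt
    _ = 2 * (∑ A ∈ P, ∑ B ∈ Q, (miss T A B : ℝ)) + 1 / (ρ * (s * s')) *
        (∑ A ∈ P, ∑ B ∈ Q, 2 * (miss T A B : ℝ) * (s * s' - miss T A B)) := by
        rw [Finset.sum_add_distrib, ← Finset.mul_sum, ← Finset.mul_sum, Finset.sum_product,
          Finset.sum_product]
    _ ≤ 2 * (ε * X.card * Y.card) + 1 / (ρ * (s * s')) *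
        (4 * (s * s') * X.card * Y.card / D) := by
        gcongr
    _ = 2 * (ε * X.card * Y.card) + (4 / (ρ * D)) * (X.card * Y.card) := by
        field_simp
    _ ≤ 2 * (ε * X.card * Y.card) + ε * (X.card * Y.card) := by
        have h6 : 4 / (ρ * D) ≤ ε := by
          rw [div_le_iff₀ (by positivity)]
          linarith
        gcongr
    _ = 3 * ε * X.card * Y.card := by ring

end Pool.Agent.H9.BV
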