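import Pool.Agent.H9.BV.Basic

/-!
# JOB BV-13: the parameters

`c = Nat.clog 2 (k+1)`, so `k + 1 ≤ 2^c` (`Nat.le_pow_clog`); `b0 k = 16 + 2c`.
`b_big`: induction from `b0 k` (`Nat.le_induction`): base `261 (k+1) (16 + 2c) ≤ 261 2^c 16 2^c ≤
2^16 4^c = 2^(b0 k)` (`16 + 2c ≤ 16 2^c`); step: `261 (k+1)(b+1) ≤ 2 * 261 (k+1) b` for `b ≥ 1`.
`qq_bound`: induction: with `b = bb k j`,
`qq k (j+1) + 1 = (qq k j + 1) + 256 (k+1) b (qq k j + 1) + 2b + 2 ≤ (qq k j + 1)(261 (k+1) b)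
≤ 2^b 2^b = 2^(bb k (j+1))`.
`KK_bound`: `6 * DD k j * (k+1) ≤ 2^(48b + 5 + c) ≤ 2^(64 b)`, so
`KK k (DD k j) ≤ 2^(64 b (2k+2)) = 2^(128 (k+1) b)`.
`KKpow_bound`: `KK^(2(q+1)) ≤ 2^(256 (k+1) b (q+1))`, times `4 * 2^(2b)`.
`exists_J`: `J` = the least `J` with `32 d ≤ 2^(15 bb k J)`. `J = 0`: `qq k 0 = 0`. `J ≥ 1`:
`2^(15 bb k (J-1)) < 32 d` and `bb k J = 2 bb k (J-1)`, so `(2^(bb k J))^15 < (32 d)^2`. So
`2^(2 bb k J) ≤ 32 d` (else the 15th power of `2^(bb k J)` squared would be more than `(32d)^15`) and,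
with `q = qq k J`, `(q+1)^15 < 1024 d^2`; if `q ≥ 1` then `(q+1)^15 ≥ 2^11 (q+1)^4`, so
`(q+1)^4 < d^2`.
`pow_lin`: `2^q d (d+1) ≤ 8 * 2^d` if `q^2 ≤ d`: for `d ≤ 9` check, for `d ≥ 9`: `q ≤ d/3` and
`d (d+1) ≤ 8 * 2^(2d/3)`, e.g. `(d(d+1))^3 ≤ 512 * 4^d` by induction for `d ≥ 9`.
`final_num`: `c ≤ Nat.log 2 (k+2) + 1` hence with `l = Nat.log 2 (k+2) ≥ 1` (`2^l ≤ k+2`):
`b0 k ≤ 16 + 2(l+1) ≤ 20 l`, and the exponent `20 + 2 b0 k + 128 (k+1) b0 k ≤ 3000 (k+1) l`.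
-/

namespace Pool.Agent.H9.BV

/-- `b_0` -/
def b0 (k : ℕ) : ℕ := 16 + 2 * Nat.clog 2 (k + 1)

/-- `b_j` -/
def bb (k j : ℕ) : ℕ := b0 k * 2 ^ j

/-- the level after `j` steps -/
def qq (k : ℕ) : ℕ → ℕ
  | 0 => 0
  | j + 1 => qq k j + (256 * (k + 1) * bb k j * (qq k j + 1) + 2 * bb k j + 2)

/-- the number of new coordinates in step `j` -/
def pp (k j : ℕ) : ℕ := 256 * (k + 1) * bb k j * (qq k j + 1) + 2 * bb k j + 2

/-- the twin parameter in step `j` -/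
def DD (k j : ℕ) : ℕ := 4 * 2 ^ (48 * bb k j)

theorem qq_succ (k j : ℕ) : qq k (j + 1) = qq k j + pp k j := rfl

theorem bv13_k_le (k : ℕ) : k + 1 ≤ 2 ^ Nat.clog 2 (k + 1) :=
  Nat.le_pow_clog (by norm_num) (k + 1)

theorem bv13_b0_ge (k : ℕ) : 16 ≤ b0 k := by unfold b0; omega

theorem bv13_b0_le_bb (k j : ℕ) : b0 k ≤ bb k j := by
  unfold bb
  exact Nat.le_mul_of_pos_right _ (by positivity)

theorem bv13_bb_succ (k j : ℕ) : bb k (j + 1) = 2 * bb k j := by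
  unfold bb
  rw [pow_succ]; ring

theorem b_big {k b : ℕ} (h : b0 k ≤ b) : 261 * (k + 1) * b ≤ 2 ^ b := by
  induction b, h using Nat.le_induction with
  | base =>
    unfold b0
    set c := Nat.clog 2 (k + 1) with hc
    have h1 : k + 1 ≤ 2 ^ c := bv13_k_le k
    have h2 : c < 2 ^ c := Nat.lt_two_pow_self
    have h3 : 16 + 2 * c ≤ 16 * 2 ^ c := by
      have : 1 ≤ 2 ^ c := Nat.one_le_two_pow
      omega
    calc 261 * (k + 1) * (16 + 2 * c) ≤ 261 * 2 ^ c * (16 * 2 ^ c) := by gcongr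
      _ = 4176 * (2 ^ c * 2 ^ c) := by ring
      _ ≤ 65536 * (2 ^ c * 2 ^ c) := by gcongr; norm_num
      _ = 2 ^ (16 + 2 * c) := by rw [pow_add, two_mul c, pow_add]; norm_num
  | succ b hb ih =>
    have h16 := bv13_b0_ge k
    have hb1 : 1 ≤ b := by omega
    calc 261 * (k + 1) * (b + 1) ≤ 261 * (k + 1) * (2 * b) := by gcongr; omega
      _ = (261 * (k + 1) * b) * 2 := by ring
      _ ≤ 2 ^ b * 2 := by gcongr
      _ = 2 ^ (b + 1) := by rw [pow_succ]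

theorem qq_bound (k j : ℕ) : qq k j + 1 ≤ 2 ^ bb k j := by
  induction j with
  | zero => simp only [qq]; exact Nat.one_le_two_pow
  | succ j ih =>
    have hb := b_big (bv13_b0_le_bb k j)
    have h16 : 16 ≤ bb k j := (bv13_b0_ge k).trans (bv13_b0_le_bb k j)
    rw [bv13_bb_succ]
    simp only [qq]
    set b := bb k j with hbdef
    set q := qq k j with hq
    have h1 : q + (256 * (k + 1) * b * (q + 1) + 2 * b + 2) + 1 ≤ (q + 1) * (261 * (k + 1) * b) := by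
      have e1 : b ≤ (q + 1) * ((k + 1) * b) := by
        calc b = 1 * (1 * b) := by ring
          _ ≤ (q + 1) * ((k + 1) * b) := by gcongr <;> omega
      have e2 : q + 1 ≤ (q + 1) * ((k + 1) * b) := by
        apply Nat.le_mul_of_pos_right
        positivity
      have e3 : (q + 1) * (261 * (k + 1) * b) = 256 * (k + 1) * b * (q + 1) +
          5 * ((q + 1) * ((k + 1) * b)) := by ring
      rw [e3]
      omega
    calc q + (256 * (k + 1) * b * (q + 1) + 2 * b + 2) + 1 ≤ (q + 1) * (261 * (k + 1) * b) := h1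
      _ ≤ 2 ^ b * 2 ^ b := by gcongr
      _ = 2 ^ (2 * b) := by rw [two_mul, pow_add]

theorem KK_bound (k j : ℕ) : KK k (DD k j) ≤ 2 ^ (128 * (k + 1) * bb k j) := by
  have h0 : b0 k ≤ bb k j := bv13_b0_le_bb k j
  unfold KK DD
  set b := bb k j with hb
  have h1 := bv13_k_le k
  have h2 : 6 * (4 * 2 ^ (48 * b)) * (k + 1) ≤ 2 ^ (64 * b) := by
    set c := Nat.clog 2 (k + 1) with hc
    have h3 : 16 + 2 * c ≤ b := by rw [hc]; exact h0
    calc 6 * (4 * 2 ^ (48 * b)) * (k + 1) ≤ 6 * (4 * 2 ^ (48 * b)) * 2 ^ c := by gcongr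
      _ = 24 * (2 ^ (48 * b) * 2 ^ c) := by ring
      _ ≤ 32 * (2 ^ (48 * b) * 2 ^ c) := by gcongr; norm_num
      _ = 2 ^ (5 + (48 * b + c)) := by rw [pow_add, pow_add]; norm_num
      _ ≤ 2 ^ (64 * b) := by
        apply Nat.pow_le_pow_right (by norm_num)
        omega
  calc (6 * (4 * 2 ^ (48 * b)) * (k + 1)) ^ (2 * k + 2) ≤ (2 ^ (64 * b)) ^ (2 * k + 2) := by gcongr
    _ = 2 ^ (128 * (k + 1) * b) := by rw [← pow_mul]; congr 1; ring

theorem KKpow_bound (k j : ℕ) :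
    KK k (DD k j) ^ (2 * (qq k j + 1)) * (4 * 2 ^ (2 * bb k j)) ≤ 2 ^ pp k j := by
  have h := KK_bound k j
  unfold pp
  calc KK k (DD k j) ^ (2 * (qq k j + 1)) * (4 * 2 ^ (2 * bb k j))
      ≤ (2 ^ (128 * (k + 1) * bb k j)) ^ (2 * (qq k j + 1)) * (4 * 2 ^ (2 * bb k j)) := by gcongr
    _ = 2 ^ (256 * (k + 1) * bb k j * (qq k j + 1) + 2 * bb k j + 2) := by
      rw [← pow_mul, show (4 : ℕ) = 2 ^ 2 by norm_num, ← pow_add, ← pow_add]
      congr 1; ring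

theorem exists_J (k : ℕ) {d : ℕ} (hd : 1 ≤ d) :
    ∃ J : ℕ, 32 * d ≤ 2 ^ (15 * bb k J) ∧ qq k J ^ 2 ≤ d ∧
      2 ^ (2 * bb k J) ≤ 32 * d * 2 ^ (2 * b0 k) := by
  have hex : ∃ J : ℕ, 32 * d ≤ 2 ^ (15 * bb k J) := by
    refine ⟨32 * d, ?_⟩
    have h1 : 32 * d < 2 ^ (32 * d) := Nat.lt_two_pow_self
    have h2 : 2 ^ (32 * d) ≤ bb k (32 * d) := by
      unfold bb
      exact Nat.le_mul_of_pos_left _ (by have := bv13_b0_ge k; omega)
    calc 32 * d ≤ bb k (32 * d) := by omega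
      _ ≤ 15 * bb k (32 * d) := by omega
      _ ≤ 2 ^ (15 * bb k (32 * d)) := Nat.lt_two_pow_self.le
  classical
  obtain ⟨hJ, hmin⟩ := (⟨Nat.find_spec hex, fun m hm => Nat.find_min hex hm⟩ :
    32 * d ≤ 2 ^ (15 * bb k (Nat.find hex)) ∧ ∀ m < Nat.find hex, ¬ 32 * d ≤ 2 ^ (15 * bb k m))
  refine ⟨Nat.find hex, hJ, ?_⟩
  generalize Nat.find hex = J at hJ hmin
  cases J with
  | zero =>
    refine ⟨by simp [qq], ?_⟩
    have : bb k 0 = b0 k := by simp [bb]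
    rw [this]
    exact Nat.le_mul_of_pos_left _ (by omega)
  | succ J =>
    have h1 : 2 ^ (15 * bb k J) < 32 * d := by
      have := hmin J (Nat.lt_succ_self J)
      omega
    have h16 : 16 ≤ bb k J := (bv13_b0_ge k).trans (bv13_b0_le_bb k J)
    have hq := qq_bound k (J + 1)
    rw [bv13_bb_succ] at hq ⊢
    set b := bb k J with hb
    have h2 : 2 ^ (4 * b) * 32 ≤ 2 ^ (15 * b) := by
      rw [show (32 : ℕ) = 2 ^ 5 by norm_num, ← pow_add]
      exact Nat.pow_le_pow_right (by norm_num) (by omega)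
    have h3 : 2 ^ (4 * b) < d := by omega
    constructor
    · have h4 : (qq k (J + 1) + 1) ^ 2 ≤ 2 ^ (4 * b) := by
        calc (qq k (J + 1) + 1) ^ 2 ≤ (2 ^ (2 * b)) ^ 2 := by gcongr
          _ = 2 ^ (4 * b) := by rw [← pow_mul]; congr 1; ring
      have h5 : qq k (J + 1) ^ 2 ≤ (qq k (J + 1) + 1) ^ 2 := by gcongr; omega
      omega
    · calc 2 ^ (2 * (2 * b)) = 2 ^ (4 * b) := by congr 1; ring
        _ ≤ 32 * d := by omega
        _ ≤ 32 * d * 2 ^ (2 * b0 k) := Nat.le_mul_of_pos_right _ (by positivity)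

theorem bv13_cube {d : ℕ} (h : 4 ≤ d) : (d * (d + 1)) ^ 3 ≤ 512 * 4 ^ d := by
  induction d, h using Nat.le_induction with
  | base => norm_num
  | succ d hd ih =>
    have h1 : (d + 2) ^ 3 ≤ 4 * d ^ 3 := by
      obtain ⟨e, rfl⟩ := Nat.exists_eq_add_of_le hd
      ring_nf
      nlinarith [Nat.zero_le e]
    calc ((d + 1) * (d + 1 + 1)) ^ 3 = (d + 1) ^ 3 * (d + 2) ^ 3 := by ring
      _ ≤ (d + 1) ^ 3 * (4 * d ^ 3) := by gcongr
      _ = 4 * (d * (d + 1)) ^ 3 := by ring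
      _ ≤ 4 * (512 * 4 ^ d) := by gcongr
      _ = 512 * 4 ^ (d + 1) := by rw [pow_succ]; ring

theorem pow_lin {q d : ℕ} (h : q ^ 2 ≤ d) : 2 ^ q * (d * (d + 1)) ≤ 8 * 2 ^ d := by
  rcases Nat.lt_or_ge d 9 with hd | hd
  · have hq : q ≤ 2 := by nlinarith
    interval_cases q <;> interval_cases d <;> simp_all
  · have h3 : 3 * q ≤ d := by
      rcases Nat.lt_or_ge q 3 with hq | hq
      · omega
      · nlinarith
    have hc := bv13_cube (d := d) (by omega)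
    have h4 : (2 ^ q * (d * (d + 1))) ^ 3 ≤ (8 * 2 ^ d) ^ 3 := by
      calc (2 ^ q * (d * (d + 1))) ^ 3 = 2 ^ (3 * q) * (d * (d + 1)) ^ 3 := by
            rw [mul_pow, ← pow_mul, mul_comm q 3]
        _ ≤ 2 ^ d * (512 * 4 ^ d) := by
            gcongr
            · norm_num
        _ = (8 * 2 ^ d) ^ 3 := by
            rw [show (4 : ℕ) = 2 ^ 2 by norm_num, ← pow_mul, mul_pow, ← pow_mul]
            rw [show (8 : ℕ) ^ 3 = 512 by norm_num]
            rw [show 2 ^ d * (512 * 2 ^ (2 * d)) = 512 * (2 ^ d * 2 ^ (2 * d)) by ring, ← pow_add]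
            congr 2; ring
    exact (Nat.pow_le_pow_iff_left (by norm_num)).1 h4

theorem final_num (k : ℕ) :
    2 ^ (20 + 2 * b0 k + 128 * (k + 1) * b0 k) ≤ (k + 2) ^ (3000 * (k + 1)) := by
  set l := Nat.log 2 (k + 2) with hl
  have hl1 : 1 ≤ l := by
    rw [hl]
    exact Nat.log_pos (by norm_num) (by omega)
  have h2l : 2 ^ l ≤ k + 2 := Nat.pow_log_le_self 2 (by omega)
  have hlt : k + 2 < 2 ^ (l + 1) := Nat.lt_pow_succ_log_self (by norm_num) _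
  have hc : Nat.clog 2 (k + 1) ≤ l + 1 := by
    apply Nat.clog_le_of_le_pow
    omega
  have hb : b0 k ≤ 20 * l := by
    unfold b0
    omega
  have hE : 20 + 2 * b0 k + 128 * (k + 1) * b0 k ≤ l * (3000 * (k + 1)) := by
    calc 20 + 2 * b0 k + 128 * (k + 1) * b0 k
        ≤ 20 + 2 * (20 * l) + 128 * (k + 1) * (20 * l) := by gcongr
      _ ≤ l * (3000 * (k + 1)) := by nlinarith [Nat.zero_le (k * l)]
  calc 2 ^ (20 + 2 * b0 k + 128 * (k + 1) * b0 k) ≤ 2 ^ (l * (3000 * (k + 1))) :=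
        Nat.pow_le_pow_right (by norm_num) hE
    _ = (2 ^ l) ^ (3000 * (k + 1)) := by rw [pow_mul]
    _ ≤ (k + 2) ^ (3000 * (k + 1)) := by gcongr

end Pool.Agent.H9.BV
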