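import Pool.Agent.H9.BV.Step
import Pool.Agent.H9.BV.Seqs

/-!
# JOB BV-14: iterating the refinement step

`gg k J j = 2^(2 bb k J) + 2 ∑_{j ≤ i < J} 2^(2 bb k J - 2 bb k i)` (`bb` is increasing),
`SS k J s j h = s h * 2^(qq k J - qq k j) * gg k J j`, `ep k j = 2^(-16 bb k j)`.
`gg_le`: `gg k J j ≤ 2 * 2^(2 bb k J)`: `∑_i 2^(-2 bb k i) ≤ ∑_i 2^(-32 (i+1)) ≤ 1/2`
(`bb k i ≥ 16 2^i ≥ 16 (i+1)`).
`gg_step`: `gg k J (j+1) = gg k J j - 2 * 2^(2 bb k J - 2 bb k j)`, and with `η = 2^(-2 bb k j)`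
`gg k J (j+1) ≤ (1 - η) gg k J j` is `η gg k J j ≤ 2 * 2^(2 bb k J) η`: `gg_le`.
`iter`: induction on `j`. Step: `refine_step` with `q = qq k j`, `p = pp k j`, `D = DD k j`,
`ε = ep k j`, `ρ = ep k (j+1) = ε^2` (`bb k (j+1) = 2 bb k j`), `η = 2^(-2 bb k j)`, `S = SS k J s j`,
`S' = SS k J s (j+1)`. Hypotheses: `ρ ε D = 2^(-48 b) 4 2^(48 b) = 4`; `hSS`:
`2^p 2^(qq k J - qq k (j+1)) = 2^(qq k J - qq k j)` (`qq` is increasing) and `gg_step`; `h1`: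
`KKpow_bound` gives `KK^(2(q+1)) ≤ 2^p η/4`, and `2^p S' h ≤ (1-η) S h ≤ S h`; `h2`: `q + 1 ≤ 2^b`,
`q + p + 1 = qq k (j+1) + 1 ≤ 2^(2b)` (`qq_bound`), so the left side is at most
`48 * 2^(-13 b) ≤ 2^(-4 b) = η^2` as `b ≥ 16`.
-/

namespace Pool.Agent.H9.BV

open Finset Pool.Agent.H97.QD

variable {V : Type}

/-- the growth factors of the sizes -/
def gg (k J j : ℕ) : ℕ :=
  2 ^ (2 * bb k J) + 2 * ∑ i ∈ Ico j J, 2 ^ (2 * bb k J - 2 * bb k i)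

/-- the sizes at level `j` -/
def SS (k J : ℕ) (s : ℕ → ℕ) (j h : ℕ) : ℕ := s h * 2 ^ (qq k J - qq k j) * gg k J j

/-- the errors -/
noncomputable def ep (k j : ℕ) : ℝ := ((2 : ℝ) ^ (16 * bb k j))⁻¹

lemma bviter_b0 (k : ℕ) : 16 ≤ b0 k := Nat.le_add_right _ _

lemma bviter_bb (k i : ℕ) : 16 * (i + 1) ≤ bb k i := by
  have h1 : i + 1 ≤ 2 ^ i := Nat.lt_two_pow_self
  calc 16 * (i + 1) ≤ b0 k * 2 ^ i := Nat.mul_le_mul (bviter_b0 k) h1
    _ = bb k i := rfl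

lemma bviter_bb_succ (k j : ℕ) : bb k (j + 1) = 2 * bb k j := by
  unfold bb
  rw [pow_succ]
  ring

lemma bviter_bb_mono (k : ℕ) : Monotone (bb k) := by
  refine monotone_nat_of_le_succ (fun j => ?_)
  rw [bviter_bb_succ]
  omega

lemma bviter_qq_mono (k : ℕ) : Monotone (qq k) := by
  refine monotone_nat_of_le_succ (fun j => ?_)
  rw [qq_succ]
  omega

lemma bviter_geo (N m : ℕ) (h : m + 1 ≤ N) :
    ∑ i ∈ range m, 2 ^ (N - (i + 2)) + 2 ^ (N - (m + 1)) = 2 ^ (N - 1) := by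
  induction m with
  | zero => simp
  | succ m ih =>
    have h1 := ih (by omega)
    rw [sum_range_succ]
    have h2 : N - (m + 1) = (N - (m + 2)) + 1 := by omega
    rw [h2, pow_succ] at h1
    have h3 : N - (m + 1 + 1) = N - (m + 2) := by omega
    rw [h3]
    omega

theorem gg_le {k J j : ℕ} (h : j ≤ J) : gg k J j ≤ 2 * 2 ^ (2 * bb k J) := by
  unfold gg
  have hJ := bviter_bb k J
  have h1 := bviter_geo (2 * bb k J) J (by omega)
  have h2 : ∑ i ∈ Ico j J, 2 ^ (2 * bb k J - 2 * bb k i)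
      ≤ ∑ i ∈ range J, 2 ^ (2 * bb k J - (i + 2)) := by
    calc ∑ i ∈ Ico j J, 2 ^ (2 * bb k J - 2 * bb k i)
        ≤ ∑ i ∈ Ico j J, 2 ^ (2 * bb k J - (i + 2)) := by
          refine sum_le_sum (fun i _ => Nat.pow_le_pow_right (by norm_num) ?_)
          have := bviter_bb k i
          omega
      _ ≤ ∑ i ∈ range J, 2 ^ (2 * bb k J - (i + 2)) := by
          refine sum_le_sum_of_subset (fun i hi => ?_)
          rw [mem_Ico] at hi
          exact mem_range.mpr hi.2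
  have h3 : 2 ^ (2 * bb k J) = 2 * 2 ^ (2 * bb k J - 1) := by
    rw [← pow_succ']
    congr 1
    omega
  have h4 : 0 < 2 ^ (2 * bb k J - (J + 1)) := by positivity
  omega

theorem gg_step {k J j : ℕ} (h : j < J) :
    (gg k J (j + 1) : ℝ) ≤ (1 - ((2 : ℝ) ^ (2 * bb k j))⁻¹) * gg k J j := by
  have h1 : gg k J j = gg k J (j + 1) + 2 * 2 ^ (2 * bb k J - 2 * bb k j) := by
    unfold gg
    rw [sum_eq_sum_Ico_succ_bot h]
    ring
  have h2 : (gg k J j : ℝ) = gg k J (j + 1) + 2 * 2 ^ (2 * bb k J - 2 * bb k j) := by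
    rw [h1]
    push_cast
    ring
  have hle : 2 * bb k j ≤ 2 * bb k J := Nat.mul_le_mul_left _ (bviter_bb_mono k h.le)
  have h3 : ((2 : ℝ) ^ (2 * bb k J - 2 * bb k j)) = 2 ^ (2 * bb k J) * ((2 : ℝ) ^ (2 * bb k j))⁻¹ :=
    pow_sub₀ _ (by norm_num) hle
  have h4 : (gg k J j : ℝ) ≤ 2 * 2 ^ (2 * bb k J) := by exact_mod_cast gg_le (k := k) h.le
  have h5 : (0 : ℝ) < ((2 : ℝ) ^ (2 * bb k j))⁻¹ := by positivity
  have h6 : ((2 : ℝ) ^ (2 * bb k j))⁻¹ * gg k J j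
      ≤ ((2 : ℝ) ^ (2 * bb k j))⁻¹ * (2 * 2 ^ (2 * bb k J)) :=
    mul_le_mul_of_nonneg_left h4 h5.le
  rw [h3] at h2
  linarith

lemma bviter_gg_pos (k J j : ℕ) : 0 < gg k J j := by
  unfold gg
  positivity

lemma bviter_SS_pos {k J j h : ℕ} {s : ℕ → ℕ} (hs : 0 < s h) : 0 < SS k J s j h := by
  unfold SS
  have := bviter_gg_pos k J j
  positivity

lemma bviter_hSS {k J j h : ℕ} {s : ℕ → ℕ} (hj : j < J) :
    (2 : ℝ) ^ pp k j * SS k J s (j + 1) h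
      ≤ (1 - ((2 : ℝ) ^ (2 * bb k j))⁻¹) * SS k J s j h := by
  have hq : qq k (j + 1) ≤ qq k J := bviter_qq_mono k hj
  have hq' : qq k J - qq k j = pp k j + (qq k J - qq k (j + 1)) := by
    have := qq_succ k j
    omega
  unfold SS
  rw [hq', pow_add]
  push_cast
  have h1 := gg_step (k := k) hj
  have h2 : (0 : ℝ) ≤ s h * (2 ^ pp k j * 2 ^ (qq k J - qq k (j + 1))) := by positivity
  calc (2 : ℝ) ^ pp k j * (s h * 2 ^ (qq k J - qq k (j + 1)) * gg k J (j + 1))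
      = (s h * (2 ^ pp k j * 2 ^ (qq k J - qq k (j + 1)))) * gg k J (j + 1) := by ring
    _ ≤ (s h * (2 ^ pp k j * 2 ^ (qq k J - qq k (j + 1))))
        * ((1 - ((2 : ℝ) ^ (2 * bb k j))⁻¹) * gg k J j) := mul_le_mul_of_nonneg_left h1 h2
    _ = (1 - ((2 : ℝ) ^ (2 * bb k j))⁻¹)
        * (s h * (2 ^ pp k j * 2 ^ (qq k J - qq k (j + 1))) * gg k J j) := by ring

lemma bviter_h1 {k J j h : ℕ} {s : ℕ → ℕ} (hj : j < J) :
    ((KK k (DD k j) : ℝ) ^ (2 * (qq k j + 1))) * SS k J s (j + 1) h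
      ≤ ((2 : ℝ) ^ (2 * bb k j))⁻¹ / 4 * SS k J s j h := by
  have h1 : ((KK k (DD k j) : ℝ) ^ (2 * (qq k j + 1))) * (4 * 2 ^ (2 * bb k j))
      ≤ 2 ^ pp k j := by exact_mod_cast KKpow_bound k j
  have hp : (0 : ℝ) < 2 ^ (2 * bb k j) := by positivity
  have h2 : ((KK k (DD k j) : ℝ) ^ (2 * (qq k j + 1)))
      ≤ ((2 : ℝ) ^ (2 * bb k j))⁻¹ / 4 * 2 ^ pp k j := by
    have : ((KK k (DD k j) : ℝ) ^ (2 * (qq k j + 1)))
        = ((2 : ℝ) ^ (2 * bb k j))⁻¹ / 4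
          * (((KK k (DD k j) : ℝ) ^ (2 * (qq k j + 1))) * (4 * 2 ^ (2 * bb k j))) := by
      field_simp
    rw [this]
    exact mul_le_mul_of_nonneg_left h1 (by positivity)
  have h3 := bviter_hSS (k := k) (h := h) (s := s) hj
  have h4 : (0 : ℝ) ≤ SS k J s (j + 1) h := Nat.cast_nonneg _
  have h5 : (0 : ℝ) ≤ SS k J s j h := Nat.cast_nonneg _
  have h6 : (0 : ℝ) < ((2 : ℝ) ^ (2 * bb k j))⁻¹ := by positivity
  calc ((KK k (DD k j) : ℝ) ^ (2 * (qq k j + 1))) * SS k J s (j + 1) h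
      ≤ ((2 : ℝ) ^ (2 * bb k j))⁻¹ / 4 * 2 ^ pp k j * SS k J s (j + 1) h :=
        mul_le_mul_of_nonneg_right h2 h4
    _ = ((2 : ℝ) ^ (2 * bb k j))⁻¹ / 4 * (2 ^ pp k j * SS k J s (j + 1) h) := by ring
    _ ≤ ((2 : ℝ) ^ (2 * bb k j))⁻¹ / 4
        * ((1 - ((2 : ℝ) ^ (2 * bb k j))⁻¹) * SS k J s j h) :=
        mul_le_mul_of_nonneg_left h3 (by positivity)
    _ ≤ ((2 : ℝ) ^ (2 * bb k j))⁻¹ / 4 * SS k J s j h := by
        refine mul_le_mul_of_nonneg_left ?_ (by positivity)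
        nlinarith

lemma bviter_h2 (k j : ℕ) :
    48 * ep k j * (qq k j + 1) * (qq k j + pp k j + 1)
      ≤ (((2 : ℝ) ^ (2 * bb k j))⁻¹) ^ 2 := by
  have hb : 16 ≤ bb k j := by
    have := bviter_bb k j
    omega
  have h1 : ((qq k j : ℝ) + 1) ≤ 2 ^ bb k j := by exact_mod_cast qq_bound k j
  have h2 : ((qq k j : ℝ) + pp k j + 1) ≤ 2 ^ (2 * bb k j) := by
    have := qq_bound k (j + 1)
    rw [qq_succ, bviter_bb_succ] at this
    exact_mod_cast this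
  have h3 : (0 : ℝ) ≤ (qq k j : ℝ) + pp k j + 1 := by positivity
  have h4 : (48 : ℝ) ≤ 2 ^ (9 * bb k j) := by
    calc (48 : ℝ) ≤ 2 ^ 6 := by norm_num
      _ ≤ 2 ^ (9 * bb k j) := pow_le_pow_right₀ (by norm_num) (by omega)
  have h5 : ((qq k j : ℝ) + 1) * ((qq k j : ℝ) + pp k j + 1) ≤ 2 ^ bb k j * 2 ^ (2 * bb k j) :=
    mul_le_mul h1 h2 h3 (by positivity)
  have he : (0 : ℝ) < ep k j := by
    unfold ep
    positivity
  calc 48 * ep k j * (qq k j + 1) * (qq k j + pp k j + 1)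
      = 48 * ep k j * (((qq k j : ℝ) + 1) * ((qq k j : ℝ) + pp k j + 1)) := by ring
    _ ≤ 2 ^ (9 * bb k j) * ep k j * (2 ^ bb k j * 2 ^ (2 * bb k j)) := by
        refine mul_le_mul ?_ h5 (by positivity) (by positivity)
        exact mul_le_mul_of_nonneg_right h4 he.le
    _ = (((2 : ℝ) ^ (2 * bb k j))⁻¹) ^ 2 := by
        unfold ep
        have e1 : (2 : ℝ) ^ (16 * bb k j)
            = 2 ^ (9 * bb k j) * (2 ^ bb k j * 2 ^ (2 * bb k j)) * (2 ^ (2 * bb k j)) ^ 2 := by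
          rw [← pow_mul, ← pow_add, ← pow_add, ← pow_add]
          congr 1
          ring
        rw [e1]
        field_simp

theorem iter [Fintype V] {T : V → V → Prop} (hT : IsTournament T) {k : ℕ} (hk : VCle T k)
    {d J : ℕ} {s : ℕ → ℕ} (hs : ∀ h ≤ d, 0 < s h) {X : ℕ → Finset ℕ → Finset V}
    (hB : Blue T d 0 (ep k 0) (SS k J s 0) X) {j : ℕ} (hj : j ≤ J) :
    ∃ X' : ℕ → Finset ℕ → Finset V, Blue T d (qq k j) (ep k j) (SS k J s j) X' := by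
  induction j with
  | zero => exact ⟨X, hB⟩
  | succ j ih =>
    obtain ⟨X₁, hX₁⟩ := ih (by omega)
    have hjJ : j < J := hj
    have hb : 16 ≤ bb k j := by
      have := bviter_bb k j
      omega
    have hη1 : ((2 : ℝ) ^ (2 * bb k j))⁻¹ < 1 := by
      refine inv_lt_one_of_one_lt₀ (one_lt_pow₀ (by norm_num) (by omega))
    have hD : (4 : ℝ) ≤ ep k (j + 1) * ep k j * DD k j := by
      unfold ep DD
      rw [bviter_bb_succ]
      push_cast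
      have e1 : (2 : ℝ) ^ (48 * bb k j) = 2 ^ (16 * (2 * bb k j)) * 2 ^ (16 * bb k j) := by
        rw [← pow_add]
        congr 1
        ring
      rw [e1]
      apply le_of_eq
      field_simp
    obtain ⟨X', hX'⟩ := refine_step (D := DD k j) (p := pp k j) (ρ := ep k (j + 1))
      (η := ((2 : ℝ) ^ (2 * bb k j))⁻¹) (S' := SS k J s (j + 1)) hT hk hX₁
      (by unfold ep; positivity) (by unfold ep; positivity) (by positivity) hη1 hD
      (fun h hh => bviter_SS_pos (hs h hh)) (fun h _ => bviter_hSS hjJ)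
      (fun h _ => bviter_h1 hjJ) (bviter_h2 k j)
    exact ⟨X', hX'⟩

end Pool.Agent.H9.BV
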