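import Pool.Agent.H9.BV.Clus

/-!
# JOB BV-8: intervals of a median order, one step of the chain

`exists_med`: from `Pool.Agent.H97.QD.exists_median`, `pos v = (σ v : ℕ)`.
`itv_card`: `pos` is a bijection of `V` onto `{0..n-1}`.
`dom_itv`: let `j = a + m + L`. All `u` with `pos v < pos u < j`: `j - pos v - 1 = r + L` vertices where
`r = a + m - 1 - pos v ≤ m`; by the median property at least half of them are dominated by `v`
(`T v u` or `T u v` holds, exactly one); at most `r` of those are outside the interval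
`itv pos (a+m) L`. So `2 #out ≥ (r + L) - 2 r = L - r ≥ L - m`.
`chain_step`: `v0 ∈ Y`, `I = itv pos (a+m) (4 m1)`. By `dom_itv`, `v0` dominates at least
`(4 m1 - m)/2 ≥ m1` vertices of `I`. `I` is the union of four intervals of length `m1`, so in one of
them, `J = itv pos a1 m1`, the set `Z` of the vertices dominated by `v0` has `4 |Z| ≥ m1`. For `v ∈ Y` the
number of `z ∈ Z` with `¬ T v z` is at most `(df T I v0 v).card ≤ 8 m1 / D`. So
`∑_{z ∈ Z} #{v ∈ Y : ¬ T v z} ≤ |Y| 8 m1 / D`, and the `z` with `#{..} > ε |Y|` are at most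
`8 m1/(ε D) ≤ m1/8`. The other ones form `Z1`, `|Z1| ≥ m1/8`. `exists_cluster` for `X = Z1` and
`I' = itv pos (a1 + m1) (4 m2)` gives `Y1`.
-/

namespace Pool.Agent.H9.BV

open Finset Pool.Agent.H97.QD

variable {V : Type}

open Classical in
/-- the vertices with positions in `[a, a+l)` -/
noncomputable def itv [Fintype V] (pos : V → ℕ) (a l : ℕ) : Finset V :=
  univ.filter (fun v => a ≤ pos v ∧ pos v < a + l)

open Classical in
/-- a median order -/
structure Med [Fintype V] (T : V → V → Prop) (pos : V → ℕ) : Prop where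
  inj : Function.Injective pos
  lt : ∀ v, pos v < Fintype.card V
  med : ∀ (v : V) (j : ℕ), (univ.filter (fun u => (pos v < pos u ∧ pos u < j) ∧ T u v)).card ≤
      (univ.filter (fun u => (pos v < pos u ∧ pos u < j) ∧ T v u)).card

theorem exists_med [Fintype V] {T : V → V → Prop} (hT : IsTournament T) :
    ∃ pos : V → ℕ, Med T pos := by
  classical
  obtain ⟨σ, hσ⟩ := exists_median T hT
  refine ⟨fun v => (σ v : ℕ), ⟨fun x y h => σ.injective (Fin.ext h), fun v => (σ v).2,
    fun v j => ?_⟩⟩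
  refine le_trans (le_of_eq ?_) (le_trans (hσ v j) (le_of_eq ?_))
  · congr 1
  · congr 1

lemma bv8_itv_mem [Fintype V] {pos : V → ℕ} {a l : ℕ} {v : V} :
    v ∈ itv pos a l ↔ a ≤ pos v ∧ pos v < a + l := by
  classical
  simp [itv]

lemma bv8_itv_surj [Fintype V] {T : V → V → Prop} {pos : V → ℕ} (hM : Med T pos) {x : ℕ}
    (hx : x < Fintype.card V) : ∃ v, pos v = x := by
  let f : V → Fin (Fintype.card V) := fun v => ⟨pos v, hM.lt v⟩
  have hf : Function.Bijective f := by
    rw [Fintype.bijective_iff_injective_and_card]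
    refine ⟨fun u v h => hM.inj ?_, by simp⟩
    exact congrArg Fin.val h
  obtain ⟨v, hv⟩ := hf.2 ⟨x, hx⟩
  exact ⟨v, congrArg Fin.val hv⟩

theorem itv_card [Fintype V] {T : V → V → Prop} {pos : V → ℕ} (hM : Med T pos) {a l : ℕ}
    (h : a + l ≤ Fintype.card V) : (itv pos a l).card = l := by
  classical
  rw [← Finset.card_image_of_injective _ hM.inj]
  have : (itv pos a l).image pos = Finset.Ico a (a + l) := by
    ext x
    simp only [Finset.mem_image, bv8_itv_mem, Finset.mem_Ico]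
    constructor
    · rintro ⟨v, hv, rfl⟩
      exact hv
    · intro hx
      obtain ⟨v, hv⟩ := bv8_itv_surj hM (lt_of_lt_of_le hx.2 h)
      exact ⟨v, by rw [hv]; exact hx, hv⟩
  rw [this, Nat.card_Ico]
  omega

open Classical in
theorem dom_itv [Fintype V] {T : V → V → Prop} (hT : IsTournament T) {pos : V → ℕ}
    (hM : Med T pos) {a m L : ℕ} (h : a + m + L ≤ Fintype.card V) {v : V}
    (hv : v ∈ itv pos a m) :
    L ≤ m + 2 * ((itv pos (a + m) L).filter (fun u => T v u)).card := by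
  have hv' := bv8_itv_mem.1 hv
  have hmed := hM.med v (a + m + L)
  set A := univ.filter (fun u => (pos v < pos u ∧ pos u < a + m + L) ∧ T u v) with hA
  set B := univ.filter (fun u => (pos v < pos u ∧ pos u < a + m + L) ∧ T v u) with hB
  have h1 : (itv pos (pos v + 1) (a + m + L - (pos v + 1))).card = a + m + L - (pos v + 1) :=
    itv_card hM (by omega)
  have h2 : itv pos (pos v + 1) (a + m + L - (pos v + 1)) ⊆ A ∪ B := by
    intro u hu
    have hu' := bv8_itv_mem.1 hu
    have hne : u ≠ v := by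
      rintro rfl
      omega
    rw [Finset.mem_union, hA, hB, Finset.mem_filter, Finset.mem_filter]
    by_cases huv : T u v
    · exact Or.inl ⟨Finset.mem_univ _, ⟨by omega, by omega⟩, huv⟩
    · exact Or.inr ⟨Finset.mem_univ _, ⟨by omega, by omega⟩,
        (hT.2 v u (Ne.symm hne)).2 huv⟩
  have h3 : a + m + L - (pos v + 1) ≤ A.card + B.card := by
    rw [← h1]
    exact (Finset.card_le_card h2).trans (Finset.card_union_le _ _)
  have h4 : (itv pos (pos v + 1) (a + m - (pos v + 1))).card = a + m - (pos v + 1) :=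
    itv_card hM (by omega)
  have h5 : B ⊆ itv pos (pos v + 1) (a + m - (pos v + 1)) ∪
      (itv pos (a + m) L).filter (fun u => T v u) := by
    intro u hu
    rw [hB, Finset.mem_filter] at hu
    rw [Finset.mem_union, Finset.mem_filter, bv8_itv_mem, bv8_itv_mem]
    by_cases hua : pos u < a + m
    · left
      omega
    · right
      exact ⟨by omega, hu.2.2⟩
  have h6 : B.card ≤ (a + m - (pos v + 1)) +
      ((itv pos (a + m) L).filter (fun u => T v u)).card := by
    calc B.card ≤ _ := Finset.card_le_card h5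
      _ ≤ _ := Finset.card_union_le _ _
      _ = _ := by rw [h4]
  omega

open Classical in
theorem chain_step [Fintype V] {T : V → V → Prop} (hT : IsTournament T) {k D : ℕ}
    (hk : VCle T k) (hD : 0 < D) {pos : V → ℕ} (hM : Med T pos) {ε : ℝ} (hε : 0 < ε)
    (hεD : 64 ≤ ε * D) {a m m1 m2 : ℕ} (hm : m ≤ 2 * m1)
    (hn : a + m + 4 * m1 + 4 * m2 ≤ Fintype.card V) {Y : Finset V} (hY : Y ⊆ itv pos a m)
    (hYne : Y.Nonempty)
    (htw : ∀ u ∈ Y, ∀ v ∈ Y, Twin T (itv pos (a + m) (4 * m1)) D u v) :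
    ∃ (a1 : ℕ) (Y1 : Finset V), a + m ≤ a1 ∧ a1 + m1 ≤ a + m + 4 * m1 ∧ Y1 ⊆ itv pos a1 m1 ∧
      m1 ≤ 8 * (KK k D * Y1.card) ∧
      (∀ u ∈ Y1, ∀ v ∈ Y1, Twin T (itv pos (a1 + m1) (4 * m2)) D u v) ∧
      ∀ z ∈ Y1, ((Y.filter (fun v => ¬ T v z)).card : ℝ) ≤ ε * Y.card := by
  obtain ⟨v0, hv0⟩ := hYne
  have hYpos : (0 : ℝ) < Y.card := by
    exact_mod_cast Finset.card_pos.2 ⟨v0, hv0⟩
  have hW := dom_itv hT hM (L := 4 * m1) (by omega) (hY hv0)
  -- four intervals
  have hcov : (itv pos (a + m) (4 * m1)).filter (fun u => T v0 u) ⊆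
      (Finset.range 4).biUnion (fun i =>
        (itv pos (a + m + i * m1) m1).filter (fun u => T v0 u)) := by
    intro u hu
    rw [Finset.mem_filter, bv8_itv_mem] at hu
    rw [Finset.mem_biUnion]
    obtain ⟨⟨h1, h2⟩, h3⟩ := hu
    by_cases c1 : pos u < a + m + m1
    · exact ⟨0, by simp, by rw [Finset.mem_filter, bv8_itv_mem]; exact ⟨by omega, h3⟩⟩
    by_cases c2 : pos u < a + m + 2 * m1
    · exact ⟨1, by simp, by rw [Finset.mem_filter, bv8_itv_mem]; exact ⟨by omega, h3⟩⟩
    by_cases c3 : pos u < a + m + 3 * m1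
    · exact ⟨2, by simp, by rw [Finset.mem_filter, bv8_itv_mem]; exact ⟨by omega, h3⟩⟩
    · exact ⟨3, by simp, by rw [Finset.mem_filter, bv8_itv_mem]; exact ⟨by omega, h3⟩⟩
  have hex : ∃ i < 4, m1 ≤ 4 * ((itv pos (a + m + i * m1) m1).filter (fun u => T v0 u)).card := by
    by_contra hcon
    push Not at hcon
    have h1 := (Finset.card_le_card hcov).trans Finset.card_biUnion_le
    rw [Finset.sum_range_succ, Finset.sum_range_succ, Finset.sum_range_succ,
      Finset.sum_range_succ, Finset.sum_range_zero] at h1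
    have c0 := hcon 0 (by norm_num)
    have c1 := hcon 1 (by norm_num)
    have c2 := hcon 2 (by norm_num)
    have c3 := hcon 3 (by norm_num)
    omega
  obtain ⟨i, hi, hZ⟩ := hex
  set a1 := a + m + i * m1 with ha1
  have hi3 : i * m1 ≤ 3 * m1 := Nat.mul_le_mul_right _ (by omega)
  set Z := (itv pos a1 m1).filter (fun u => T v0 u) with hZdef
  have hZI : ∀ z ∈ Z, z ∈ itv pos (a + m) (4 * m1) ∧ T v0 z := by
    intro z hz
    rw [hZdef, Finset.mem_filter, bv8_itv_mem] at hz
    rw [bv8_itv_mem]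
    exact ⟨by omega, hz.2⟩
  have hIcard : (itv pos (a + m) (4 * m1)).card = 4 * m1 := itv_card hM (by omega)
  have hone : ∀ v ∈ Y, D * (Z.filter (fun z => ¬ T v z)).card ≤ 8 * m1 := by
    intro v hv
    have h1 : Z.filter (fun z => ¬ T v z) ⊆ df T (itv pos (a + m) (4 * m1)) v0 v := by
      intro z hz
      rw [Finset.mem_filter] at hz
      have h2 := hZI z hz.1
      rw [df, Finset.mem_filter]
      exact ⟨h2.1, fun h => hz.2 (h.1 h2.2)⟩
    have h2 := htw v0 hv0 v hv
    unfold Twin at h2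
    rw [hIcard] at h2
    calc D * (Z.filter (fun z => ¬ T v z)).card
        ≤ D * (df T (itv pos (a + m) (4 * m1)) v0 v).card :=
          Nat.mul_le_mul_left _ (Finset.card_le_card h1)
      _ ≤ 2 * (4 * m1) := h2
      _ = 8 * m1 := by ring
  have hsum : D * ∑ z ∈ Z, (Y.filter (fun v => ¬ T v z)).card ≤ Y.card * (8 * m1) := by
    have h1 : ∑ z ∈ Z, (Y.filter (fun v => ¬ T v z)).card =
        ∑ v ∈ Y, (Z.filter (fun z => ¬ T v z)).card := by
      simp only [Finset.card_filter]
      exact Finset.sum_comm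
    rw [h1, Finset.mul_sum]
    calc ∑ v ∈ Y, D * (Z.filter (fun z => ¬ T v z)).card ≤ ∑ _v ∈ Y, 8 * m1 :=
          Finset.sum_le_sum hone
      _ = Y.card * (8 * m1) := by rw [Finset.sum_const, smul_eq_mul]
  set Zb := Z.filter (fun z => ε * Y.card < ((Y.filter (fun v => ¬ T v z)).card : ℝ)) with hZb
  set Z1 := Z.filter (fun z => ¬ (ε * Y.card < ((Y.filter (fun v => ¬ T v z)).card : ℝ))) with hZ1
  have hcard : Zb.card + Z1.card = Z.card := Finset.card_filter_add_card_filter_not _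
  have hbad : (Zb.card : ℝ) * (ε * Y.card) ≤
      ((∑ z ∈ Z, (Y.filter (fun v => ¬ T v z)).card : ℕ) : ℝ) := by
    push_cast
    calc (Zb.card : ℝ) * (ε * Y.card) = ∑ _z ∈ Zb, ε * Y.card := by
          rw [Finset.sum_const, nsmul_eq_mul]
      _ ≤ ∑ z ∈ Zb, ((Y.filter (fun v => ¬ T v z)).card : ℝ) := by
          refine Finset.sum_le_sum fun z hz => ?_
          rw [hZb, Finset.mem_filter] at hz
          exact hz.2.le
      _ ≤ ∑ z ∈ Z, ((Y.filter (fun v => ¬ T v z)).card : ℝ) :=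
          Finset.sum_le_sum_of_subset_of_nonneg (Finset.filter_subset _ _)
            (fun _ _ _ => Nat.cast_nonneg _)
  have hDpos : (0 : ℝ) < D := by exact_mod_cast hD
  have hsum' : (D : ℝ) * ((∑ z ∈ Z, (Y.filter (fun v => ¬ T v z)).card : ℕ) : ℝ) ≤
      Y.card * (8 * m1) := by
    exact_mod_cast hsum
  have hb2 : (Zb.card : ℝ) * (ε * D) ≤ 8 * m1 := by
    have h1 : ((Zb.card : ℝ) * (ε * D)) * Y.card ≤ (8 * m1) * Y.card := by
      calc ((Zb.card : ℝ) * (ε * D)) * Y.card = D * ((Zb.card : ℝ) * (ε * Y.card)) := by ring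
        _ ≤ D * ((∑ z ∈ Z, (Y.filter (fun v => ¬ T v z)).card : ℕ) : ℝ) :=
            mul_le_mul_of_nonneg_left hbad hDpos.le
        _ ≤ Y.card * (8 * m1) := hsum'
        _ = (8 * m1) * Y.card := by ring
    exact le_of_mul_le_mul_right h1 hYpos
  have hb3 : 8 * Zb.card ≤ m1 := by
    have h1 : (Zb.card : ℝ) * 64 ≤ 8 * m1 :=
      (mul_le_mul_of_nonneg_left hεD (Nat.cast_nonneg _)).trans hb2
    have h2 : Zb.card * 64 ≤ 8 * m1 := by exact_mod_cast h1
    omega
  have hZ1card : m1 ≤ 8 * Z1.card := by omega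
  obtain ⟨Y1, hY1, htw1, hcl⟩ := exists_cluster hk hD Z1 (itv pos (a1 + m1) (4 * m2))
  refine ⟨a1, Y1, by omega, by omega, fun z hz => ?_, ?_, htw1, fun z hz => ?_⟩
  · have := hY1 hz
    rw [hZ1, Finset.mem_filter, hZdef, Finset.mem_filter] at this
    exact this.1.1
  · exact hZ1card.trans (Nat.mul_le_mul_left _ hcl)
  · have := hY1 hz
    rw [hZ1, Finset.mem_filter] at this
    exact not_lt.1 this.2

end Pool.Agent.H9.BV
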