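import Pool.Agent.H9.BV.Nbr
import Pool.Agent.H9.BV.Sdr

/-!
# JOB BV-6: the layered greedy choice of parts

Recursion on `h` (construct `f` layer by layer, for instance: prove by induction on `e ≤ d` that there
is `f` with the properties for all `h ≤ e`, and pass from `e` to `e+1` with `Function.update f (e+1) _`).
Layer `0`: `sdr` with `I = (range (q+p)).powerset`, `A z' = Ty 0 (z' ∩ range q)`,
`g z' = z' ∩ range q`, `fib_card`. Layer `h+1`: the same with
`A z' = (Ty (h+1) (z' ∩ range q)).filter (fun B => ∀ z ∈ inN (q+p) z', ¬ bad (f h z) B)`. For each of the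
at most `q+p+1` elements `z ∈ inN (q+p) z'` (`inN_card`) the part `f h z` belongs to
`Ty h (z ∩ range q)` and `Adj (z ∩ range q) (z' ∩ range q)` (`adj_inter`), so at most `b (h+1)`
elements are excluded by `z`; so `A z'` has at least
`(Ty (h+1) (z' ∩ range q)).card - (q+p+1) b (h+1) ≥ 2^p` elements.
-/

namespace Pool.Agent.H9.BV

open Finset

variable {V : Type}

open Classical in
lemma lay_pick {q p : ℕ} (T : Finset ℕ → Finset (Finset V))
    (hdisj : ∀ z ⊆ range q, ∀ z' ⊆ range q, z ≠ z' → Disjoint (T z) (T z'))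
    (S : Finset ℕ → Finset (Finset V))
    (hS : ∀ z ⊆ range (q + p), S z ⊆ T (z ∩ range q))
    (hc : ∀ z ⊆ range (q + p), 2 ^ p ≤ (S z).card) :
    ∃ f : Finset ℕ → Finset V, (∀ z ⊆ range (q + p), f z ∈ S z) ∧
      (∀ z ⊆ range (q + p), ∀ z' ⊆ range (q + p), z ≠ z' → f z ≠ f z') := by
  obtain ⟨f, hf, hinj⟩ := sdr (range (q + p)).powerset S (fun z => z ∩ range q)
    (by
      intro i hi j hj hij
      have hi' := mem_powerset.1 hi
      have hj' := mem_powerset.1 hj
      exact Disjoint.mono (hS i hi') (hS j hj')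
        (hdisj _ inter_subset_right _ inter_subset_right hij))
    (by
      intro i hi
      exact (fib_card q p (i ∩ range q)).trans (hc i (mem_powerset.1 hi)))
  refine ⟨f, fun z hz => hf z (mem_powerset.2 hz), ?_⟩
  intro z hz z' hz' hne he
  exact hne (hinj (mem_coe.2 (mem_powerset.2 hz)) (mem_coe.2 (mem_powerset.2 hz')) he)

open Classical in
lemma lay_card {q p : ℕ} (T : Finset (Finset V)) (g : Finset ℕ → Finset V)
    (bad : Finset V → Finset V → Prop) (b : ℝ) (hb : 0 ≤ b) {z' : Finset ℕ}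
    (hz' : z' ⊆ range (q + p))
    (hT : (2 : ℝ) ^ p + (q + p + 1) * b ≤ T.card)
    (hbl : ∀ z ∈ inN (q + p) z', ((T.filter (fun B => bad (g z) B)).card : ℝ) ≤ b) :
    2 ^ p ≤ (T.filter (fun B => ∀ z ∈ inN (q + p) z', ¬ bad (g z) B)).card := by
  have h1 : T ⊆ (T.filter (fun B => ∀ z ∈ inN (q + p) z', ¬ bad (g z) B)) ∪
      (inN (q + p) z').biUnion (fun z => T.filter (fun B => bad (g z) B)) := by
    intro B hB
    by_cases h : ∀ z ∈ inN (q + p) z', ¬ bad (g z) B
    · exact mem_union_left _ (mem_filter.2 ⟨hB, h⟩)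
    · push Not at h
      obtain ⟨z, hz, hzb⟩ := h
      exact mem_union_right _ (mem_biUnion.2 ⟨z, hz, mem_filter.2 ⟨hB, hzb⟩⟩)
  have h2 := (card_le_card h1).trans (card_union_le _ _)
  have h3 : (((inN (q + p) z').biUnion (fun z => T.filter (fun B => bad (g z) B))).card : ℝ) ≤
      (q + p + 1) * b := by
    calc (((inN (q + p) z').biUnion (fun z => T.filter (fun B => bad (g z) B))).card : ℝ)
        ≤ ∑ z ∈ inN (q + p) z', ((T.filter (fun B => bad (g z) B)).card : ℝ) := by
          exact_mod_cast card_biUnion_le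
      _ ≤ ∑ _z ∈ inN (q + p) z', b := sum_le_sum hbl
      _ = (inN (q + p) z').card * b := by rw [sum_const, nsmul_eq_mul]
      _ ≤ (q + p + 1) * b := by
          apply mul_le_mul_of_nonneg_right _ hb
          have := inN_card hz'
          exact_mod_cast this
  have h4 : (T.card : ℝ) ≤ ((T.filter (fun B => ∀ z ∈ inN (q + p) z', ¬ bad (g z) B)).card : ℝ) +
      (((inN (q + p) z').biUnion (fun z => T.filter (fun B => bad (g z) B))).card : ℝ) := by
    exact_mod_cast h2
  have h5 : ((2 ^ p : ℕ) : ℝ) ≤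
      ((T.filter (fun B => ∀ z ∈ inN (q + p) z', ¬ bad (g z) B)).card : ℝ) := by
    push_cast
    linarith
  exact_mod_cast h5

open Classical in
theorem layers {d q p : ℕ} (Ty : ℕ → Finset ℕ → Finset (Finset V))
    (bad : Finset V → Finset V → Prop) (b : ℕ → ℝ) (hb : ∀ h, 0 ≤ b h)
    (hdisj : ∀ h ≤ d, ∀ z ⊆ range q, ∀ z' ⊆ range q, z ≠ z' → Disjoint (Ty h z) (Ty h z'))
    (hcard : ∀ h ≤ d, ∀ z ⊆ range q, (2 : ℝ) ^ p + (q + p + 1) * b h ≤ (Ty h z).card)
    (hbl : ∀ h < d, ∀ z ⊆ range q, ∀ z' ⊆ range q, Adj z z' → ∀ A ∈ Ty h z,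
      (((Ty (h + 1) z').filter (fun B => bad A B)).card : ℝ) ≤ b (h + 1)) :
    ∃ f : ℕ → Finset ℕ → Finset V,
      (∀ h ≤ d, ∀ z ⊆ range (q + p), f h z ∈ Ty h (z ∩ range q)) ∧
      (∀ h ≤ d, ∀ z ⊆ range (q + p), ∀ z' ⊆ range (q + p), z ≠ z' → f h z ≠ f h z') ∧
      (∀ h < d, ∀ z ⊆ range (q + p), ∀ z' ⊆ range (q + p), Adj z z' →
        ¬ bad (f h z) (f (h + 1) z')) := by
  have main : ∀ e ≤ d, ∃ f : ℕ → Finset ℕ → Finset V,
      (∀ h ≤ e, ∀ z ⊆ range (q + p), f h z ∈ Ty h (z ∩ range q)) ∧
      (∀ h ≤ e, ∀ z ⊆ range (q + p), ∀ z' ⊆ range (q + p), z ≠ z' → f h z ≠ f h z') ∧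
      (∀ h < e, ∀ z ⊆ range (q + p), ∀ z' ⊆ range (q + p), Adj z z' →
        ¬ bad (f h z) (f (h + 1) z')) := by
    intro e
    induction e with
    | zero =>
      intro _
      obtain ⟨f0, hf0, hinj⟩ := lay_pick (q := q) (p := p) (Ty 0) (hdisj 0 (Nat.zero_le d))
        (fun z => Ty 0 (z ∩ range q)) (fun z _ => Finset.Subset.refl _)
        (by
          intro z _
          have h1 := hcard 0 (Nat.zero_le d) (z ∩ range q) inter_subset_right
          have h2 : 0 ≤ ((q : ℝ) + p + 1) * b 0 := mul_nonneg (by positivity) (hb 0)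
          have h3 : ((2 ^ p : ℕ) : ℝ) ≤ ((Ty 0 (z ∩ range q)).card : ℝ) := by
            push_cast
            linarith
          exact_mod_cast h3)
      refine ⟨fun _ => f0, ?_, ?_, ?_⟩
      · intro h hh z hz
        obtain rfl : h = 0 := by omega
        exact hf0 z hz
      · intro h _ z hz z' hz' hne
        exact hinj z hz z' hz' hne
      · intro h hh
        omega
    | succ e ih =>
      intro he
      obtain ⟨f, hf1, hf2, hf3⟩ := ih (by omega)
      obtain ⟨g, hg1, hg2⟩ := lay_pick (q := q) (p := p) (Ty (e + 1)) (hdisj (e + 1) he)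
        (fun z' => (Ty (e + 1) (z' ∩ range q)).filter
          (fun B => ∀ z ∈ inN (q + p) z', ¬ bad (f e z) B))
        (fun z _ => filter_subset _ _)
        (by
          intro z' hz'
          refine lay_card (Ty (e + 1) (z' ∩ range q)) (f e) bad (b (e + 1)) (hb _) hz'
            (hcard (e + 1) he _ inter_subset_right) ?_
          intro z hz
          obtain ⟨hz1, hz2⟩ := mem_inN.1 hz
          exact hbl e (by omega) _ inter_subset_right _ inter_subset_right
            (adj_inter hz2 (range q)) _ (hf1 e le_rfl z hz1))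
      have hne : ∀ h ≤ e, Function.update f (e + 1) g h = f h := by
        intro h hh
        exact Function.update_of_ne (by omega) _ _
      refine ⟨Function.update f (e + 1) g, ?_, ?_, ?_⟩
      · intro h hh z hz
        rcases Nat.lt_or_ge e h with hlt | hle
        · obtain rfl : h = e + 1 := by omega
          rw [Function.update_self]
          exact (mem_filter.1 (hg1 z hz)).1
        · rw [hne h hle]
          exact hf1 h hle z hz
      · intro h hh z hz z' hz' hzz
        rcases Nat.lt_or_ge e h with hlt | hle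
        · obtain rfl : h = e + 1 := by omega
          rw [Function.update_self]
          exact hg2 z hz z' hz' hzz
        · rw [hne h hle]
          exact hf2 h hle z hz z' hz' hzz
      · intro h hh z hz z' hz' hadj
        rcases Nat.lt_or_ge h e with hlt | hle
        · rw [hne h (by omega), hne (h + 1) (by omega)]
          exact hf3 h hlt z hz z' hz' hadj
        · obtain rfl : h = e := by omega
          rw [hne h le_rfl, Function.update_self]
          exact (mem_filter.1 (hg1 z' hz')).2 z (mem_inN.2 ⟨hz, hadj⟩)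
  exact main d le_rfl

end Pool.Agent.H9.BV
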