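import Mathlib

/-!
# JOB BV-12: smoothing a sequence

`m h = 1 + ∑_{h' ≤ d} ((S h' + 2^e - 1) / 2^e)` with `e = |h - h'| = (h - h') + (h' - h)` (natural
subtraction); so the summand is the ceiling of `S h' / 2^e`.
(1) `S h ≤ m h` (`h' = h`, `e = 0`). (2) `⌈x/2^e⌉ ≤ 2 ⌈x/2^e'⌉` for `e' ≤ e + 1`, and the exponent for
`h+1` is at most the exponent for `h` plus 1. (3) `⌈x/2^e⌉ ≤ x/2^e + 1`; for fixed `h'` the sum over
`h ≤ d+1` of `S h' / 2^e` (natural division, or real) is at most `S h' (2 + 2)` (each exponent occurs at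
most twice); the number of pairs `(h,h')` is `(d+2)(d+1)`.
-/

namespace Pool.Agent.H9.BV

open Finset

theorem bvSm_half (x e : ℕ) : 2 * (x / 2 ^ (e + 1)) ≤ x / 2 ^ e := by
  rw [pow_succ, ← Nat.div_div_eq_div_mul]
  omega

theorem bvSm_ceil_two (x e e' : ℕ) (h : e' ≤ e + 1) :
    (x + 2 ^ e - 1) / 2 ^ e ≤ 2 * ((x + 2 ^ e' - 1) / 2 ^ e') := by
  have hp : 0 < 2 ^ e := by positivity
  have hp' : 0 < 2 ^ e' := by positivity
  have h1 : x ≤ 2 ^ e' * ((x + 2 ^ e' - 1) / 2 ^ e') := by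
    have h2 := Nat.div_add_mod (x + 2 ^ e' - 1) (2 ^ e')
    have h3 := Nat.mod_lt (x + 2 ^ e' - 1) hp'
    omega
  set q := (x + 2 ^ e' - 1) / 2 ^ e' with hq
  have h4 : 2 ^ e' * q ≤ 2 ^ (e + 1) * q :=
    Nat.mul_le_mul_right _ (Nat.pow_le_pow_right (by norm_num) h)
  have h5 : 2 ^ (e + 1) * q = 2 ^ e * (2 * q) := by ring
  have h6 : x ≤ 2 ^ e * (2 * q) := by omega
  have h7 : (x + 2 ^ e - 1) / 2 ^ e < 2 * q + 1 := by
    rw [Nat.div_lt_iff_lt_mul hp]
    have h8 : (2 * q + 1) * 2 ^ e = 2 ^ e * (2 * q) + 2 ^ e := by ring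
    omega
  omega

theorem bvSm_ceil_le (x e : ℕ) : (x + 2 ^ e - 1) / 2 ^ e ≤ x / 2 ^ e + 1 := by
  have hp : 0 < 2 ^ e := by positivity
  calc (x + 2 ^ e - 1) / 2 ^ e ≤ (x + 2 ^ e) / 2 ^ e := Nat.div_le_div_right (by omega)
    _ = x / 2 ^ e + 1 := Nat.add_div_right x hp

theorem bvSm_low (x k n : ℕ) (hn : n ≤ k) :
    ∑ h ∈ range n, x / 2 ^ ((h - k) + (k - h)) ≤ x / 2 ^ (k - n) := by
  induction n with
  | zero => simp
  | succ n ih =>
    rw [sum_range_succ]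
    have h1 := ih (by omega)
    have h2 := bvSm_half x (k - (n + 1))
    have h3 : k - (n + 1) + 1 = k - n := by omega
    have h4 : (n - k) + (k - n) = k - n := by omega
    rw [h3] at h2
    rw [h4]
    omega

theorem bvSm_high (x k j : ℕ) :
    ∑ h ∈ range (k + j), x / 2 ^ ((h - k) + (k - h)) + 2 * (x / 2 ^ j) ≤ 3 * x := by
  induction j with
  | zero =>
    have h1 := bvSm_low x k k le_rfl
    simp only [Nat.sub_self, pow_zero, Nat.div_one, add_zero] at h1 ⊢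
    omega
  | succ j ih =>
    rw [← add_assoc, sum_range_succ]
    have h2 := bvSm_half x j
    have h4 : (k + j - k) + (k - (k + j)) = j := by omega
    rw [h4]
    omega

theorem bvSm_sum (x k n : ℕ) :
    ∑ h ∈ range n, x / 2 ^ ((h - k) + (k - h)) ≤ 4 * x := by
  rcases le_total n k with h | h
  · have h1 := bvSm_low x k n h
    have h2 : x / 2 ^ (k - n) ≤ x := Nat.div_le_self _ _
    omega
  · obtain ⟨j, rfl⟩ := Nat.exists_eq_add_of_le h
    have h1 := bvSm_high x k j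
    omega

theorem smooth (S : ℕ → ℕ) (d : ℕ) :
    ∃ m : ℕ → ℕ, (∀ h ≤ d, S h ≤ m h) ∧ (∀ h, m h ≤ 2 * m (h + 1)) ∧ (∀ h, 0 < m h) ∧
      ∑ h ∈ range (d + 2), m h ≤ 4 * ∑ h ∈ range (d + 1), S h + 2 * (d + 2) ^ 2 := by
  refine ⟨fun h => 1 + ∑ k ∈ range (d + 1),
    (S k + 2 ^ ((h - k) + (k - h)) - 1) / 2 ^ ((h - k) + (k - h)), ?_, ?_, ?_, ?_⟩
  · intro h hh
    have h1 : (S h + 2 ^ ((h - h) + (h - h)) - 1) / 2 ^ ((h - h) + (h - h)) ≤
        ∑ k ∈ range (d + 1), (S k + 2 ^ ((h - k) + (k - h)) - 1) / 2 ^ ((h - k) + (k - h)) :=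
      Finset.single_le_sum (f := fun k =>
        (S k + 2 ^ ((h - k) + (k - h)) - 1) / 2 ^ ((h - k) + (k - h)))
        (fun _ _ => Nat.zero_le _) (Finset.mem_range.2 (by omega))
    have h2 : (S h + 2 ^ ((h - h) + (h - h)) - 1) / 2 ^ ((h - h) + (h - h)) = S h := by simp
    rw [h2] at h1
    show S h ≤ 1 + _
    omega
  · intro h
    show 1 + _ ≤ 2 * (1 + _)
    rw [mul_add, Finset.mul_sum]
    refine add_le_add (by norm_num) (Finset.sum_le_sum fun k _ => ?_)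
    exact bvSm_ceil_two _ _ _ (by omega)
  · intro h
    show 0 < 1 + _
    omega
  · show ∑ h ∈ range (d + 2), (1 + ∑ k ∈ range (d + 1), _) ≤ _
    rw [Finset.sum_add_distrib, Finset.sum_comm]
    have h1 : ∀ k ∈ range (d + 1), ∑ h ∈ range (d + 2),
        (S k + 2 ^ ((h - k) + (k - h)) - 1) / 2 ^ ((h - k) + (k - h)) ≤ 4 * S k + (d + 2) := by
      intro k _
      calc ∑ h ∈ range (d + 2),
          (S k + 2 ^ ((h - k) + (k - h)) - 1) / 2 ^ ((h - k) + (k - h))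
          ≤ ∑ h ∈ range (d + 2), (S k / 2 ^ ((h - k) + (k - h)) + 1) :=
            Finset.sum_le_sum fun h _ => bvSm_ceil_le _ _
        _ = ∑ h ∈ range (d + 2), S k / 2 ^ ((h - k) + (k - h)) + (d + 2) := by
            rw [Finset.sum_add_distrib]; simp
        _ ≤ 4 * S k + (d + 2) := Nat.add_le_add_right (bvSm_sum _ _ _) _
    have h2 := Finset.sum_le_sum h1
    rw [Finset.sum_add_distrib, ← Finset.mul_sum] at h2
    simp only [Finset.sum_const, Finset.card_range, smul_eq_mul, mul_one] at h2 ⊢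
    nlinarith [h2]

end Pool.Agent.H9.BV
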