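import Pool.Agent.H9.BV.Iter
import Pool.Agent.H9.BV.Chain
import Pool.Agent.H9.BV.Embed
import Pool.Agent.H9.BV.Binom
import Pool.Agent.H9.BV.Smooth

/-!
# JOB BV-15: `card_bound` (the rest of the file is proved)

`card_bound`. Write `q = qq k J`, `B = 2^(2 bb k J)`, `K = KK k (DD k 0)`, `s h = 4 mx d q h / B + 1`.
`gg_le` (`j = 0`): `SS k J s 0 h ≤ s h * 2^q * 2 * B ≤ 2 * 2^q * (4 mx d q h + B)` (`Nat.div_mul_le_self`).
`window_sum` and `hb`, `pow_lin` (`q ≤ d`, `2^q 2^(d-q) = 2^d`): `∑_{h ≤ d} SS ≤ 40 * 2^d +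
2 (d+1) 2^q B ≤ 40 * 2^d + 64 * 2^q d (d+1) 2^(2 b0 k) ≤ (40 + 512) 2^(2 b0 k) 2^d`. So the left side is
at most `4 (32 K * 552 * 2^(2 b0 k) 2^d + 2 (d+2)^2)` and `(d+2)^2 ≤ 5 * 2^d` for `d ≥ 1` (induction),
so it is at most `2^20 * 2^(2 b0 k) * K * 2^d` (`K ≥ 1`), and `K ≤ 2^(128 (k+1) b0 k)` (`KK_bound`,
`bb k 0 = b0 k`), then `final_num`.

Given `d ≥ 1`: `J` from `exists_J`, `q = qq k J`, `s h = 4 mx d q h / 2^(2 bb k J) + 1`, so
`4 mx d q h ≤ s h 2^(2 bb k J) = SS k J s J h`, `SS k J s 0 h ≤ 2^q * 2 * (4 mx + 2^(2 bb k J))`. Sizes of the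
chain: `S0 = SS k J s 0`, `m` from `smooth` for `8 KK S0`.
-/

namespace Pool.Agent.H9.BV

open Finset Pool.Agent.H97.QD

variable {V : Type}

theorem card_bound {k d : ℕ} (hd : 1 ≤ d) {J : ℕ} (hq : qq k J ^ 2 ≤ d)
    (hb : 2 ^ (2 * bb k J) ≤ 32 * d * 2 ^ (2 * b0 k)) {m : ℕ → ℕ}
    (hm : ∑ h ∈ range (d + 2), m h ≤
      4 * ∑ h ∈ range (d + 1), 8 * KK k (DD k 0) *
        SS k J (fun h => 4 * mx d (qq k J) h / 2 ^ (2 * bb k J) + 1) 0 h + 2 * (d + 2) ^ 2) :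
    ∑ h ∈ range (d + 2), 4 * m h ≤ 2 ^ d * (k + 2) ^ (3000 * (k + 1)) := by
  have hqd : qq k J ≤ d := (Nat.le_self_pow (by norm_num) _).trans hq
  have hSS : ∀ h, SS k J (fun h => 4 * mx d (qq k J) h / 2 ^ (2 * bb k J) + 1) 0 h ≤
      2 * 2 ^ qq k J * (4 * mx d (qq k J) h + 2 ^ (2 * bb k J)) := by
    intro h
    unfold SS
    have h1 : gg k J 0 ≤ 2 * 2 ^ (2 * bb k J) := gg_le (Nat.zero_le J)
    have h2 : qq k J - qq k 0 = qq k J := by simp [qq]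
    have h3 : 4 * mx d (qq k J) h / 2 ^ (2 * bb k J) * 2 ^ (2 * bb k J) ≤ 4 * mx d (qq k J) h :=
      Nat.div_mul_le_self _ _
    rw [h2]
    calc (4 * mx d (qq k J) h / 2 ^ (2 * bb k J) + 1) * 2 ^ qq k J * gg k J 0
        ≤ (4 * mx d (qq k J) h / 2 ^ (2 * bb k J) + 1) * 2 ^ qq k J * (2 * 2 ^ (2 * bb k J)) :=
          Nat.mul_le_mul_left _ h1
      _ = 2 * 2 ^ qq k J * (4 * mx d (qq k J) h / 2 ^ (2 * bb k J) * 2 ^ (2 * bb k J)
            + 2 ^ (2 * bb k J)) := by ring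
      _ ≤ _ := Nat.mul_le_mul_left _ (Nat.add_le_add_right h3 _)
  have hsum : ∑ h ∈ range (d + 1),
      SS k J (fun h => 4 * mx d (qq k J) h / 2 ^ (2 * bb k J) + 1) 0 h ≤
      552 * 2 ^ (2 * b0 k) * 2 ^ d := by
    have h4 := window_sum hq
    have h5 := pow_lin hq
    have h6 : 2 ^ qq k J * 2 ^ (d - qq k J) = 2 ^ d := by
      rw [← pow_add]; congr 1; omega
    calc ∑ h ∈ range (d + 1),
        SS k J (fun h => 4 * mx d (qq k J) h / 2 ^ (2 * bb k J) + 1) 0 h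
        ≤ ∑ h ∈ range (d + 1), 2 * 2 ^ qq k J * (4 * mx d (qq k J) h + 2 ^ (2 * bb k J)) :=
          Finset.sum_le_sum (fun h _ => hSS h)
      _ = 2 * 2 ^ qq k J * (4 * ∑ h ∈ range (d + 1), mx d (qq k J) h
            + (d + 1) * 2 ^ (2 * bb k J)) := by
          rw [← Finset.mul_sum, Finset.sum_add_distrib, ← Finset.mul_sum]
          simp
      _ ≤ 2 * 2 ^ qq k J * (4 * (5 * 2 ^ (d - qq k J))
            + (d + 1) * (32 * d * 2 ^ (2 * b0 k))) :=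
          Nat.mul_le_mul_left _ (Nat.add_le_add (Nat.mul_le_mul_left _ h4)
            (Nat.mul_le_mul_left _ hb))
      _ = 40 * (2 ^ qq k J * 2 ^ (d - qq k J)) +
            64 * 2 ^ (2 * b0 k) * (2 ^ qq k J * (d * (d + 1))) := by ring
      _ ≤ 40 * 2 ^ d + 64 * 2 ^ (2 * b0 k) * (8 * 2 ^ d) := by
          rw [h6]
          exact Nat.add_le_add_left (Nat.mul_le_mul_left _ h5) _
      _ ≤ 40 * (2 ^ (2 * b0 k) * 2 ^ d) + 64 * 2 ^ (2 * b0 k) * (8 * 2 ^ d) := by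
          refine Nat.add_le_add_right (Nat.mul_le_mul_left _ ?_) _
          exact Nat.le_mul_of_pos_left _ (by positivity)
      _ = 552 * 2 ^ (2 * b0 k) * 2 ^ d := by ring
  have hd2 : (d + 2) ^ 2 ≤ 5 * 2 ^ d := by
    clear hq hb hm hqd hSS hsum
    induction d, hd using Nat.le_induction with
    | base => norm_num
    | succ d hd ih =>
      rw [pow_succ 2 d]
      nlinarith
  have hK : KK k (DD k 0) ≤ 2 ^ (128 * (k + 1) * b0 k) := by
    have := KK_bound k 0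
    have hbb : bb k 0 = b0 k := by simp [bb]
    rwa [hbb] at this
  have hK1 : 1 ≤ KK k (DD k 0) := by
    unfold KK DD
    exact Nat.one_le_iff_ne_zero.mpr (by positivity)
  have hfin := final_num k
  rw [← Finset.mul_sum]
  rw [← Finset.mul_sum] at hm
  calc 4 * ∑ h ∈ range (d + 2), m h
      ≤ 4 * (4 * (8 * KK k (DD k 0) * (552 * 2 ^ (2 * b0 k) * 2 ^ d)) + 2 * (5 * 2 ^ d)) := by
        refine Nat.mul_le_mul_left _ (hm.trans ?_)
        exact Nat.add_le_add (Nat.mul_le_mul_left _ (Nat.mul_le_mul_left _ hsum))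
          (Nat.mul_le_mul_left _ hd2)
    _ ≤ 4 * (4 * (8 * KK k (DD k 0) * (552 * 2 ^ (2 * b0 k) * 2 ^ d)) +
          2 * (5 * (KK k (DD k 0) * (2 ^ (2 * b0 k) * 2 ^ d)))) := by
        refine Nat.mul_le_mul_left _ (Nat.add_le_add_left (Nat.mul_le_mul_left _
          (Nat.mul_le_mul_left _ ?_)) _)
        calc 2 ^ d ≤ 2 ^ (2 * b0 k) * 2 ^ d := Nat.le_mul_of_pos_left _ (by positivity)
          _ ≤ KK k (DD k 0) * (2 ^ (2 * b0 k) * 2 ^ d) := Nat.le_mul_of_pos_left _ hK1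
    _ = 70696 * (KK k (DD k 0) * 2 ^ (2 * b0 k) * 2 ^ d) := by ring
    _ ≤ 2 ^ 20 * (2 ^ (128 * (k + 1) * b0 k) * 2 ^ (2 * b0 k) * 2 ^ d) := by
        refine Nat.mul_le_mul (by norm_num) (Nat.mul_le_mul_right _ (Nat.mul_le_mul_right _ hK))
    _ = 2 ^ d * 2 ^ (20 + 2 * b0 k + 128 * (k + 1) * b0 k) := by
        rw [pow_add, pow_add]; ring
    _ ≤ 2 ^ d * (k + 2) ^ (3000 * (k + 1)) := Nat.mul_le_mul_left _ hfin

theorem main [Fintype V] {T : V → V → Prop} (hT : IsTournament T) {k d : ℕ} (hk : VCle T k)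
    (hd : 1 ≤ d) (hN : 2 ^ d * (k + 2) ^ (3000 * (k + 1)) ≤ Fintype.card V) :
    ∃ φ : Finset ℕ → V, (∀ x ⊆ range d, ∀ y ⊆ range d, φ x = φ y → x = y) ∧
      ∀ x ⊆ range d, ∀ i ∈ range d, i ∉ x → T (φ x) (φ (insert i x)) := by
  classical
  obtain ⟨J, hJ1, hJ2, hJ3⟩ := exists_J k hd
  set q := qq k J with hqdef
  set s : ℕ → ℕ := fun h => 4 * mx d q h / 2 ^ (2 * bb k J) + 1 with hsdef
  have hqd : q ≤ d := by
    rcases Nat.eq_zero_or_pos q with h | h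
    · omega
    · exact (Nat.le_self_pow two_ne_zero q).trans hJ2
  obtain ⟨m, hm1, hm2, hm3, hm4⟩ := smooth (fun h => 8 * KK k (DD k 0) * SS k J s 0 h) d
  have hn := (card_bound hd hJ2 hJ3 hm4).trans hN
  have hD : 0 < DD k 0 := by unfold DD; positivity
  have he : 0 < ep k 0 := by unfold ep; positivity
  have heD : 64 ≤ ep k 0 * (DD k 0 : ℝ) := by
    have h16 : 16 ≤ bb k 0 := by
      unfold bb b0; omega
    have e1 : ep k 0 * (DD k 0 : ℝ) = 4 * 2 ^ (32 * bb k 0) := by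
      unfold ep DD
      push_cast
      rw [inv_mul_eq_iff_eq_mul₀ (by positivity), show 48 * bb k 0 = 16 * bb k 0 + 32 * bb k 0 by ring,
        pow_add]
      ring
    rw [e1]
    have e2 : (2 : ℝ) ^ 4 ≤ 2 ^ (32 * bb k 0) := pow_le_pow_right₀ (by norm_num) (by omega)
    linarith
  obtain ⟨X0, hX1, hX2, hX3⟩ := chain (S := SS k J s 0) hT hk hD he heD hm2 hm3 hn
    (fun h hh => hm1 h hh)
  have hB0 : Blue T d 0 (ep k 0) (SS k J s 0) (fun h _ => X0 h) := by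
    refine ⟨fun h hh z _ => hX1 h hh, ?_, fun h hh z _ z' _ _ => hX3 h hh⟩
    intro h hh h' hh' z hz z' hz' hne
    have e1 : z = ∅ := by simpa using hz
    have e2 : z' = ∅ := by simpa using hz'
    rcases hne with h1 | h1
    · exact hX2 h hh h' hh' h1
    · exact absurd (e1.trans e2.symm) h1
  obtain ⟨X, hX⟩ := iter hT hk (fun h _ => Nat.succ_pos _) hB0 (le_refl J)
  have hSJ : ∀ h, SS k J s J h = s h * 2 ^ (2 * bb k J) := by
    intro h
    unfold SS gg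
    simp
  refine embed hX hd ?_ ?_ ?_
  · have h1 : ((qq k J : ℝ) + 1) ≤ 2 ^ bb k J := by exact_mod_cast qq_bound k J
    have h2 : (32 * d : ℝ) ≤ 2 ^ (15 * bb k J) := by exact_mod_cast hJ1
    have h3 : (2 : ℝ) ^ (16 * bb k J) = 2 ^ (15 * bb k J) * 2 ^ bb k J := by
      rw [← pow_add]; congr 1; ring
    unfold ep
    rw [h3, mul_inv_le_iff₀ (by positivity), one_mul]
    exact mul_le_mul h2 h1 (by positivity) (by positivity)
  · intro h _
    rw [hSJ]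
    have : 0 < s h := Nat.succ_pos _
    positivity
  · intro h _ z hz
    refine (Nat.mul_le_mul_left 4 (class_card_le hqd hz)).trans ?_
    rw [hSJ]
    have h1 := Nat.lt_div_mul_add (a := 4 * mx d q h) (b := 2 ^ (2 * bb k J)) (by positivity)
    simp only [hsdef]
    rw [add_mul, one_mul]
    exact h1.le

end Pool.Agent.H9.BV
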