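import Pool.Agent.H9.BV.Basic

/-!
# Neighbouring classes
-/

namespace Pool.Agent.H9.BV

open Finset

lemma adj_inter {z z' : Finset ℕ} (h : Adj z z') (s : Finset ℕ) : Adj (z ∩ s) (z' ∩ s) := by
  obtain ⟨h1, h2⟩ := h
  refine ⟨Finset.inter_subset_inter_right h1, ?_⟩
  have h3 : (z' ∩ s).card ≤ (z ∩ s).card + (z' \ z).card := by
    have : z' ∩ s ⊆ (z ∩ s) ∪ (z' \ z) := by
      intro x hx
      simp only [mem_inter, mem_union, mem_sdiff] at hx ⊢
      tauto
    exact (Finset.card_le_card this).trans (Finset.card_union_le _ _)
  have h4 : (z' \ z).card = z'.card - z.card := Finset.card_sdiff_of_subset h1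
  omega

open Classical in
/-- classes `z` with `Adj z z'` -/
noncomputable def inN (q : ℕ) (z' : Finset ℕ) : Finset (Finset ℕ) :=
  (range q).powerset.filter (fun z => Adj z z')

open Classical in
/-- classes `z'` with `Adj z z'` -/
noncomputable def outN (q : ℕ) (z : Finset ℕ) : Finset (Finset ℕ) :=
  (range q).powerset.filter (fun z' => Adj z z')

lemma mem_inN {q : ℕ} {z z' : Finset ℕ} : z ∈ inN q z' ↔ z ⊆ range q ∧ Adj z z' := by
  classical
  simp [inN, Finset.mem_filter, Finset.mem_powerset]

lemma mem_outN {q : ℕ} {z z' : Finset ℕ} : z' ∈ outN q z ↔ z' ⊆ range q ∧ Adj z z' := by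
  classical
  simp [outN, Finset.mem_filter, Finset.mem_powerset]

lemma outN_card (q : ℕ) (z : Finset ℕ) : (outN q z).card ≤ q + 1 := by
  classical
  have h : outN q z ⊆ insert z ((range q).image (fun i => insert i z)) := by
    intro z' hz'
    obtain ⟨h1, h2, h3⟩ := mem_outN.1 hz'
    by_cases he : z = z'
    · rw [he]; exact Finset.mem_insert_self _ _
    · apply Finset.mem_insert_of_mem
      have hss : z ⊂ z' := Finset.ssubset_iff_subset_ne.2 ⟨h2, he⟩
      obtain ⟨i, hi, hiz⟩ := Finset.exists_of_ssubset hss
      refine Finset.mem_image.2 ⟨i, h1 hi, ?_⟩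
      apply Finset.eq_of_subset_of_card_le
      · exact Finset.insert_subset hi h2
      · rw [Finset.card_insert_of_notMem hiz]; exact h3
  refine (Finset.card_le_card h).trans ?_
  refine (Finset.card_insert_le _ _).trans ?_
  have := Finset.card_image_le (s := range q) (f := fun i => insert i z)
  rw [Finset.card_range] at this
  omega

lemma inN_card {q : ℕ} {z' : Finset ℕ} (hz' : z' ⊆ range q) : (inN q z').card ≤ q + 1 := by
  classical
  have h : inN q z' ⊆ insert z' ((range q).image (fun i => z'.erase i)) := by
    intro z hz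
    obtain ⟨h1, h2, h3⟩ := mem_inN.1 hz
    by_cases he : z = z'
    · rw [he]; exact Finset.mem_insert_self _ _
    · apply Finset.mem_insert_of_mem
      have hss : z ⊂ z' := Finset.ssubset_iff_subset_ne.2 ⟨h2, he⟩
      obtain ⟨i, hi, hiz⟩ := Finset.exists_of_ssubset hss
      refine Finset.mem_image.2 ⟨i, hz' hi, ?_⟩
      symm
      apply Finset.eq_of_subset_of_card_le
      · intro x hx
        exact Finset.mem_erase.2 ⟨fun hxi => hiz (hxi ▸ hx), h2 hx⟩
      · rw [Finset.card_erase_of_mem hi]; omega
  refine (Finset.card_le_card h).trans ?_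
  refine (Finset.card_insert_le _ _).trans ?_
  have := Finset.card_image_le (s := range q) (f := fun i => z'.erase i)
  rw [Finset.card_range] at this
  omega

/-- the number of refinements of a class -/
lemma fib_card (q p : ℕ) (w : Finset ℕ) :
    ((range (q + p)).powerset.filter (fun z => z ∩ range q = w)).card ≤ 2 ^ p := by
  classical
  have h : ((range (q + p)).powerset.filter (fun z => z ∩ range q = w)).card ≤
      ((range (q + p)) \ (range q)).powerset.card := by
    apply Finset.card_le_card_of_injOn (fun z => z \ range q)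
    · intro z hz
      have hz' := (Finset.mem_filter.1 hz).1
      rw [Finset.mem_powerset] at hz'
      exact Finset.mem_powerset.2 (Finset.sdiff_subset_sdiff hz' (Finset.Subset.refl _))
    · intro z hz z1 hz1 he
      have h1 := (Finset.mem_filter.1 hz).2
      have h2 := (Finset.mem_filter.1 hz1).2
      simp only at he
      rw [← Finset.sdiff_union_inter z (range q), ← Finset.sdiff_union_inter z1 (range q), he, h1, h2]
  refine h.trans ?_
  rw [Finset.card_powerset]
  apply Nat.pow_le_pow_right (by norm_num)
  rw [Finset.card_sdiff_of_subset (by intro x hx; simp only [mem_range] at hx ⊢; omega),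
    Finset.card_range, Finset.card_range]
  omega

end Pool.Agent.H9.BV
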