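import Pool.Agent.H9.BV.Trace

/-!
# JOB BV-2: the packing lemma (weak form of Haussler's lemma)

Let `N = F.card`. `N ≤ 1`: trivial (`KK` is positive as `D > 0`). Let `N ≥ 2`; so `Y` is nonempty
(`Y.card < D * (df T Y u v).card` and `df T Y u v ⊆ Y`).
(1) `exists_points`: if `(N:ℝ)^2 * exp (-(m/D)) < 1` then some `y : Fin m → V` with values in `Y`
separates `F`: for `u ≠ v` in `F` exactly `(Y.card - (df T Y u v).card)^m` of the `Y.card^m` functions
(`Fintype.piFinset (fun _ => Y)`) do not separate `u` and `v`, and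
`(Y.card - (df T Y u v).card)^m ≤ (Y.card (1-1/D))^m ≤ Y.card^m exp(-m/D)`; the sum over all pairs is
`< Y.card^m`. With `S = image y` and `trace_card`: `N ≤ (m+1)^k`.
(2) `m = ⌊2 D log N⌋ + 1`: `exp(-m/D) < N^(-2)`. So `N ≤ (2 D log N + 2)^k`.
(3) `x = N^(1/(2(k+1))) ≥ 1`, `log N = 2(k+1) log x ≤ 2(k+1) x`, so
`N ≤ (4 D (k+1) x + 2)^k ≤ (6 D (k+1) x)^k ≤ (6D(k+1))^k x^(k+1) = (6D(k+1))^k N^(1/2)`, hence
`N ≤ (6D(k+1))^(2k) ≤ KK k D`.
-/

namespace Pool.Agent.H9.BV

open Finset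

variable {V : Type}

open Classical in
private theorem pk_points [Fintype V] {T : V → V → Prop} {m D : ℕ} (hD : 0 < D)
    (Y F : Finset V) (hY : 0 < Y.card)
    (hsep : ∀ u ∈ F, ∀ v ∈ F, u ≠ v → Y.card < D * (df T Y u v).card)
    (hm : (F.card : ℝ) ^ 2 * Real.exp (-(m / D)) < 1) :
    ∃ y : Fin m → V, ∀ u ∈ F, ∀ v ∈ F, u ≠ v → ∃ i, y i ∈ df T Y u v := by
  set P : Finset (Fin m → V) := Fintype.piFinset (fun _ : Fin m => Y) with hP
  set B : V × V → Finset (Fin m → V) :=
    fun p => Fintype.piFinset (fun _ : Fin m => Y \ df T Y p.1 p.2) with hB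
  have hDr : (0 : ℝ) < D := by exact_mod_cast hD
  have hYr : (0 : ℝ) < Y.card := by exact_mod_cast hY
  have hPc : P.card = Y.card ^ m := by simp [hP]
  have hBc : ∀ p ∈ F.offDiag, ((B p).card : ℝ) ≤ (Y.card : ℝ) ^ m * Real.exp (-(m / D)) := by
    intro p hp
    rw [mem_offDiag] at hp
    have h1 := hsep p.1 hp.1 p.2 hp.2.1 hp.2.2
    have hsub : df T Y p.1 p.2 ⊆ Y := by
      unfold df
      exact filter_subset _ _
    have hc : (Y \ df T Y p.1 p.2).card = Y.card - (df T Y p.1 p.2).card :=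
      card_sdiff_of_subset hsub
    have h2 : ((Y \ df T Y p.1 p.2).card : ℝ) ≤ (Y.card : ℝ) * Real.exp (-(1 / D)) := by
      rw [hc, Nat.cast_sub (card_le_card hsub)]
      have h3 : (Y.card : ℝ) ≤ D * ((df T Y p.1 p.2).card : ℝ) := by
        have : ((Y.card : ℕ) : ℝ) < ((D * (df T Y p.1 p.2).card : ℕ) : ℝ) := by exact_mod_cast h1
        push_cast at this
        exact this.le
      have h4 : (Y.card : ℝ) / D ≤ ((df T Y p.1 p.2).card : ℝ) := by
        rw [div_le_iff₀ hDr]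
        linarith
      have h5 : 1 - 1 / (D : ℝ) ≤ Real.exp (-(1 / D)) := by
        have := Real.add_one_le_exp (-(1 / (D : ℝ)))
        linarith
      calc (Y.card : ℝ) - ((df T Y p.1 p.2).card : ℝ) ≤ (Y.card : ℝ) - (Y.card : ℝ) / D := by
            linarith
        _ = (Y.card : ℝ) * (1 - 1 / (D : ℝ)) := by ring
        _ ≤ (Y.card : ℝ) * Real.exp (-(1 / D)) := by
            exact mul_le_mul_of_nonneg_left h5 hYr.le
    have h6 : (B p).card = (Y \ df T Y p.1 p.2).card ^ m := by simp [hB]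
    rw [h6]
    push_cast
    calc ((Y \ df T Y p.1 p.2).card : ℝ) ^ m
        ≤ ((Y.card : ℝ) * Real.exp (-(1 / D))) ^ m := by
          exact pow_le_pow_left₀ (by positivity) h2 m
      _ = (Y.card : ℝ) ^ m * Real.exp (-(m / D)) := by
          rw [mul_pow, ← Real.exp_nat_mul]
          congr 2
          ring
  have hsum : ((F.offDiag.biUnion B).card : ℝ) < P.card := by
    have h1 : ((F.offDiag.biUnion B).card : ℝ) ≤ ∑ p ∈ F.offDiag, ((B p).card : ℝ) := by
      exact_mod_cast card_biUnion_le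
    have h2 : ∑ p ∈ F.offDiag, ((B p).card : ℝ) ≤
        ∑ _p ∈ F.offDiag, (Y.card : ℝ) ^ m * Real.exp (-(m / D)) := sum_le_sum hBc
    have h3 : (F.offDiag.card : ℝ) ≤ (F.card : ℝ) ^ 2 := by
      have h : F.offDiag.card ≤ F.card ^ 2 := by
        rw [offDiag_card, sq]
        exact Nat.sub_le _ _
      exact_mod_cast h
    rw [sum_const, nsmul_eq_mul] at h2
    have h4 : (F.offDiag.card : ℝ) * ((Y.card : ℝ) ^ m * Real.exp (-(m / D))) ≤
        (F.card : ℝ) ^ 2 * ((Y.card : ℝ) ^ m * Real.exp (-(m / D))) :=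
      mul_le_mul_of_nonneg_right h3 (by positivity)
    have h5 : (F.card : ℝ) ^ 2 * ((Y.card : ℝ) ^ m * Real.exp (-(m / D))) < (Y.card : ℝ) ^ m := by
      have h6 : (0 : ℝ) < (Y.card : ℝ) ^ m := by positivity
      calc (F.card : ℝ) ^ 2 * ((Y.card : ℝ) ^ m * Real.exp (-(m / D)))
          = (Y.card : ℝ) ^ m * ((F.card : ℝ) ^ 2 * Real.exp (-(m / D))) := by ring
        _ < (Y.card : ℝ) ^ m * 1 := by exact mul_lt_mul_of_pos_left hm h6
        _ = (Y.card : ℝ) ^ m := mul_one _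
    rw [hPc]
    push_cast
    linarith
  have hsum' : (F.offDiag.biUnion B).card < P.card := by exact_mod_cast hsum
  obtain ⟨y, hy, hyB⟩ := exists_mem_notMem_of_card_lt_card hsum'
  refine ⟨y, fun u hu v hv huv => ?_⟩
  by_contra hcon
  push Not at hcon
  apply hyB
  rw [mem_biUnion]
  refine ⟨(u, v), by rw [mem_offDiag]; exact ⟨hu, hv, huv⟩, ?_⟩
  rw [hB, Fintype.mem_piFinset]
  intro i
  rw [mem_sdiff]
  rw [hP, Fintype.mem_piFinset] at hy
  exact ⟨hy i, hcon i⟩

theorem pack_count [Fintype V] {T : V → V → Prop} {k m D : ℕ} (hk : VCle T k) (hD : 0 < D)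
    (Y F : Finset V) (hsep : ∀ u ∈ F, ∀ v ∈ F, u ≠ v → Y.card < D * (df T Y u v).card)
    (hm : (F.card : ℝ) ^ 2 * Real.exp (-(m / D)) < 1) : F.card ≤ (m + 1) ^ k := by
  classical
  rcases Nat.lt_or_ge 1 F.card with h1 | h1
  · obtain ⟨a, ha, b, hb, hab⟩ := one_lt_card.1 h1
    have hY : 0 < Y.card := by
      have h2 := hsep a ha b hb hab
      have h3 : (df T Y a b).card ≤ Y.card := by
        unfold df
        exact card_filter_le _ _
      rcases Nat.eq_zero_or_pos Y.card with h | h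
      · rw [h] at h2 h3
        have : (df T Y a b).card = 0 := by omega
        rw [this] at h2
        simp at h2
      · exact h
    obtain ⟨y, hy⟩ := pk_points hD Y F hY hsep hm
    refine trace_card hk (univ.image y) F ?_ ?_
    · calc (univ.image y).card ≤ (univ : Finset (Fin m)).card := card_image_le
        _ = m := by simp
    · intro u hu v hv huv
      obtain ⟨i, hi⟩ := hy u hu v hv huv
      refine ⟨y i, mem_image_of_mem _ (mem_univ _), ?_⟩
      unfold df at hi
      exact (mem_filter.1 hi).2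
  · calc F.card ≤ 1 := h1
      _ ≤ (m + 1) ^ k := Nat.one_le_pow _ _ (Nat.succ_pos _)

theorem pack_num {N k D : ℕ} (hN : 1 ≤ N) (hD : 0 < D)
    (h : (N : ℝ) ≤ (2 * D * Real.log N + 2) ^ k) : N ≤ KK k D := by
  have hNr : (1 : ℝ) ≤ N := by exact_mod_cast hN
  have hDr : (1 : ℝ) ≤ D := by exact_mod_cast hD
  set x : ℝ := (N : ℝ) ^ ((1 : ℝ) / (2 * (k + 1))) with hx
  have hx1 : 1 ≤ x := Real.one_le_rpow hNr (by positivity)
  have hxN : x ^ (2 * k + 2) = N := by
    rw [hx, ← Real.rpow_natCast, ← Real.rpow_mul (by linarith)]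
    have : (1 : ℝ) / (2 * (k + 1)) * ((2 * k + 2 : ℕ) : ℝ) = 1 := by
      push_cast
      field_simp
    rw [this, Real.rpow_one]
  have hlog : Real.log N ≤ 2 * (k + 1) * x := by
    rw [← hxN, Real.log_pow]
    have h1 : Real.log x ≤ x := (Real.log_le_sub_one_of_pos (by linarith)).trans (by linarith)
    calc ((2 * k + 2 : ℕ) : ℝ) * Real.log x ≤ ((2 * k + 2 : ℕ) : ℝ) * x :=
          mul_le_mul_of_nonneg_left h1 (by positivity)
      _ = 2 * (k + 1) * x := by push_cast; ring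
  set c : ℝ := 6 * D * (k + 1) with hc
  have hk0 : (0 : ℝ) ≤ k := by positivity
  have hc1 : 1 ≤ c := by
    rw [hc]
    nlinarith [mul_nonneg (by linarith : (0 : ℝ) ≤ D) hk0]
  have hbase : 2 * D * Real.log N + 2 ≤ c * x := by
    have h1 : 2 * D * Real.log N ≤ 2 * D * (2 * (k + 1) * x) :=
      mul_le_mul_of_nonneg_left hlog (by positivity)
    have h2 : (1 : ℝ) ≤ D * (k + 1) * x := by
      have h3 : (1 : ℝ) ≤ D * (k + 1) := by nlinarith [mul_nonneg (by linarith : (0 : ℝ) ≤ D) hk0]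
      nlinarith
    calc 2 * D * Real.log N + 2 ≤ 2 * D * (2 * (k + 1) * x) + 2 * (D * (k + 1) * x) := by linarith
      _ = c * x := by rw [hc]; ring
  have hlog0 : 0 ≤ Real.log N := Real.log_nonneg hNr
  have h1 : (N : ℝ) ≤ (c * x) ^ k := by
    refine h.trans (pow_le_pow_left₀ (by positivity) hbase k)
  have h2 : x ^ (k + 1) * x ^ (k + 1) ≤ c ^ k * x ^ (k + 1) := by
    calc x ^ (k + 1) * x ^ (k + 1) = x ^ (2 * k + 2) := by rw [← pow_add]; congr 1; ring
      _ = N := hxN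
      _ ≤ (c * x) ^ k := h1
      _ = c ^ k * x ^ k := mul_pow _ _ _
      _ ≤ c ^ k * x ^ (k + 1) := by
          refine mul_le_mul_of_nonneg_left ?_ (by positivity)
          exact pow_le_pow_right₀ hx1 (Nat.le_succ k)
  have h3 : x ^ (k + 1) ≤ c ^ k := le_of_mul_le_mul_right h2 (by positivity)
  have h4 : (N : ℝ) ≤ c ^ (2 * k + 2) := by
    calc (N : ℝ) = x ^ (k + 1) * x ^ (k + 1) := by
          rw [← hxN, ← pow_add]; congr 1; ring
      _ ≤ c ^ k * c ^ k := by
          exact mul_le_mul h3 h3 (by positivity) (by positivity)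
      _ = c ^ (2 * k) := by rw [← pow_add]; congr 1; ring
      _ ≤ c ^ (2 * k + 2) := pow_le_pow_right₀ hc1 (by omega)
  have h5 : (N : ℝ) ≤ ((KK k D : ℕ) : ℝ) := by
    unfold KK
    push_cast
    rw [← hc]
    exact h4
  exact_mod_cast h5

theorem pack [Fintype V] {T : V → V → Prop} {k D : ℕ} (hk : VCle T k) (hD : 0 < D)
    (Y F : Finset V) (hsep : ∀ u ∈ F, ∀ v ∈ F, u ≠ v → Y.card < D * (df T Y u v).card) :
    F.card ≤ KK k D := by
  rcases Nat.eq_zero_or_pos F.card with h0 | h0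
  · rw [h0]; exact Nat.zero_le _
  have hNr : (1 : ℝ) ≤ F.card := by exact_mod_cast h0
  have hDr : (0 : ℝ) < D := by exact_mod_cast hD
  have hlog0 : 0 ≤ Real.log F.card := Real.log_nonneg hNr
  set m : ℕ := ⌊2 * D * Real.log F.card⌋₊ + 1 with hm
  have hm1 : 2 * D * Real.log F.card < m := by
    rw [hm]
    push_cast
    exact Nat.lt_floor_add_one _
  have hm2 : (m : ℝ) ≤ 2 * D * Real.log F.card + 1 := by
    rw [hm]
    push_cast
    have := Nat.floor_le (show 0 ≤ 2 * (D : ℝ) * Real.log F.card by positivity)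
    linarith
  have hexp : (F.card : ℝ) ^ 2 * Real.exp (-(m / D)) < 1 := by
    have h1 : 2 * Real.log F.card < m / D := by
      rw [lt_div_iff₀ hDr]
      linarith
    have h2 : Real.exp (-(m / D)) < Real.exp (-(2 * Real.log F.card)) :=
      Real.exp_lt_exp.2 (by linarith)
    have h3 : (F.card : ℝ) ^ 2 * Real.exp (-(2 * Real.log F.card)) = 1 := by
      have hpos : (0 : ℝ) < F.card := by linarith
      have h4 : Real.exp (2 * Real.log F.card) = (F.card : ℝ) ^ 2 := by
        have : 2 * Real.log F.card = ((2 : ℕ) : ℝ) * Real.log F.card := by norm_num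
        rw [this, Real.exp_nat_mul, Real.exp_log hpos]
      rw [Real.exp_neg, h4]
      exact mul_inv_cancel₀ (by positivity)
    have h5 : (0 : ℝ) < (F.card : ℝ) ^ 2 := by positivity
    calc (F.card : ℝ) ^ 2 * Real.exp (-(m / D))
        < (F.card : ℝ) ^ 2 * Real.exp (-(2 * Real.log F.card)) := mul_lt_mul_of_pos_left h2 h5
      _ = 1 := h3
  have hc := pack_count hk hD Y F hsep hexp
  refine pack_num h0 hD ?_
  have h1 : (F.card : ℝ) ≤ ((m : ℝ) + 1) ^ k := by exact_mod_cast hc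
  exact h1.trans (pow_le_pow_left₀ (by positivity) (by linarith) k)

end Pool.Agent.H9.BV
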