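import Pool.Agent.H9.BV.Main

/-!
# Oriented cubes in tournaments of bounded VC-dimension (test of the final statement)
-/

namespace Pool.Agent.H9.BV.Res

/-- A tournament on the vertex set `V` (`T a b` means that `a b` is an arc): there are no loops,
and of any two distinct vertices exactly one dominates the other. -/
def IsTournament {V : Type} (T : V → V → Prop) : Prop :=
  (∀ a, ¬ T a a) ∧ ∀ a b, a ≠ b → (T a b ↔ ¬ T b a)

/-- The arcs of the oriented hypercube: `y` arises from `x` by changing a single coordinate from
`0` to `1`. -/
def CubeArc {d : ℕ} (x y : Fin d → Bool) : Prop :=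
  ∃ i : Fin d, x i = false ∧ y = Function.update x i true

/-- `S` is shattered by the out-neighbourhoods: every subset of `S` consists of exactly those
elements of `S` that are dominated by some vertex `v`. -/
def Shattered {V : Type} (T : V → V → Prop) (S : Finset V) : Prop :=
  ∀ R ⊆ S, ∃ v : V, ∀ s ∈ S, (T v s ↔ s ∈ R)

theorem result (k d : ℕ) (V : Type) [Fintype V] (T : V → V → Prop) (hT : IsTournament T)
    (hk : ∀ S : Finset V, Shattered T S → S.card ≤ k)
    (hN : 2 ^ d * (k + 2) ^ (3000 * (k + 1)) ≤ Fintype.card V) :
    ∃ φ : (Fin d → Bool) → V, Function.Injective φ ∧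
      ∀ x y : Fin d → Bool, CubeArc x y → T (φ x) (φ y) := by
  classical
  rcases Nat.eq_zero_or_pos d with hd | hd
  · subst hd
    have hne : Nonempty V := by
      rw [← Fintype.card_pos_iff]
      refine lt_of_lt_of_le ?_ hN
      positivity
    obtain ⟨v⟩ := hne
    refine ⟨fun _ => v, fun x y _ => Subsingleton.elim x y, ?_⟩
    rintro x y ⟨i, -⟩
    exact i.elim0
  · obtain ⟨φ, h1, h2⟩ := main (T := T) hT (k := k) hk hd hN
    let c : (Fin d → Bool) → Finset ℕ := fun x =>
      (Finset.univ.filter (fun i : Fin d => x i = true)).image (fun i : Fin d => (i : ℕ))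
    have hc : ∀ x, c x ⊆ Finset.range d := by
      intro x i hi
      obtain ⟨j, -, rfl⟩ := Finset.mem_image.1 hi
      exact Finset.mem_range.2 j.2
    have hmem : ∀ x (i : Fin d), (i : ℕ) ∈ c x ↔ x i = true := by
      intro x i
      constructor
      · intro h
        obtain ⟨j, hj, hji⟩ := Finset.mem_image.1 h
        have : j = i := Fin.ext hji
        subst this
        simpa using hj
      · intro h
        exact Finset.mem_image.2 ⟨i, by simpa using h, rfl⟩
    refine ⟨fun x => φ (c x), ?_, ?_⟩
    · intro x y hxy
      have h := h1 _ (hc x) _ (hc y) hxy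
      funext i
      have h3 := hmem x i
      have h4 := hmem y i
      rw [h] at h3
      cases hx : x i <;> cases hy : y i <;> simp_all
    · rintro x y ⟨i, hi, rfl⟩
      have hni : (i : ℕ) ∉ c x := by
        rw [hmem]; simp [hi]
      have h3 := h2 (c x) (hc x) i (Finset.mem_range.2 i.2) hni
      have h4 : c (Function.update x i true) = insert (i : ℕ) (c x) := by
        ext j
        simp only [Finset.mem_insert]
        constructor
        · intro hj
          have hjd := Finset.mem_range.1 (hc _ hj)
          by_cases hji : j = i
          · exact Or.inl hji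
          · right
            have h5 := (hmem (Function.update x i true) ⟨j, hjd⟩).1 hj
            rw [Function.update_of_ne (by intro h; exact hji (by rw [← h]))] at h5
            exact (hmem x ⟨j, hjd⟩).2 h5
        · rintro (rfl | hj)
          · exact (hmem _ i).2 (by simp)
          · have hjd := Finset.mem_range.1 (hc _ hj)
            have h5 := (hmem x ⟨j, hjd⟩).1 hj
            refine (hmem _ ⟨j, hjd⟩).2 ?_
            by_cases hji : (⟨j, hjd⟩ : Fin d) = i
            · subst hji; simp
            · rw [Function.update_of_ne hji]; exact h5
      simp only [h4]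
      exact h3

end Pool.Agent.H9.BV.Res
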