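import Pool.Agent.H9.BV.Clus
import Pool.Agent.H9.BV.Hom
import Pool.Agent.H9.BV.Layer

/-!
# The refinement step (job BV-7, helper24)

Notation: `N h = S h / S' h` (real), `η₂ = η / (4 (q+p+1))`, `t = 2(q+1)`.
For `h ≤ d`, `z ⊆ range q` apply `exists_parts` with `s = S' h` to `X h z` and the family `F h z` of the sets
`X (h+1) z'`, `z' ∈ outN q z`, and `X (h-1) z'`, `z' ∈ inN q z` (at most `t` sets, `outN_card`,
`inN_card`; include `X (h-1) z'` only for `h ≥ 1`): parts `P h z`,
`S h ≤ (|P h z| + KK k D ^ t) S' h`, so `|P h z| ≥ N h - KK^t ≥ (1 - η/4) N h` by `h1`; also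
`|P h z| S' h ≤ S h` is not needed. Let `bad A B := ρ |A| |B| < miss T A B`.
Let `Ty h z` be the set of the `A ∈ P h z` with: (`h = d` or) for all `z' ∈ outN q z`
`#{B ∈ P (h+1) z' : bad A B} ≤ b (h+1) := η₂ N (h+1)`. By `bad_pairs` (with `X = X h z`,
`Y = X (h+1) z'`, disjoint by `hB.disj`, `hB.arc`) the hypothesis of `atyp_card` holds
(`x = S h`, `y = S (h+1)`, `s = S' h`, `s' = S' (h+1)`, `η = η₂`), so at most
`(q+1) 3 ε S h / (S' h η₂) = 12 ε (q+1)(q+p+1)/η * N h ≤ (η/4) N h` elements of `P h z` are not in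
`Ty h z` (`h2`). So `|Ty h z| ≥ (1 - η/2) N h`, and with `2^p ≤ (1-η) N h` (`hSS`)
`2^p + (q+p+1) b h = 2^p + (η/4) N h ≤ (1 - 3η/4) N h ≤ |Ty h z|`.
`Ty h z` and `Ty h z'` are disjoint for `z ≠ z'` (their elements are nonempty subsets, `S' h > 0`, of the
disjoint sets `X h z`, `X h z'`). Apply `layers`; `X' := f`. The sets `f h z` and `f h' z'` are
disjoint: if `h ≠ h'` or `z ∩ range q ≠ z' ∩ range q` they lie in disjoint sets of `X`; else they are
different parts of the same family. `¬ bad` gives `miss ≤ ρ (S' h) (S' (h+1))`.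
-/

namespace Pool.Agent.H9.BV

open Finset Pool.Agent.H97.QD

variable {V : Type}

private theorem bv7_arith {N η p' c P T M R : ℝ} (hN : 0 ≤ N) (hη : 0 < η) (h1 : p' ≤ (1 - η) * N)
    (h2 : c ≤ η / 4 * N) (h3 : N ≤ P + M) (h4 : M ≤ η / 4 * N) (h5 : R ≤ η / 4 * N) (h6 : P ≤ T + R) :
    p' + c ≤ T := by
  have : 0 ≤ η * N := mul_nonneg hη.le hN
  nlinarith

private theorem bv7_R {S s ε η R : ℝ} {q p J : ℝ} (hs : 0 < s) (hS : 0 ≤ S) (hη : 0 < η)
    (hε : 0 < ε) (hq : 0 ≤ q) (hp : 0 ≤ p) (hJ : J ≤ q + 1) (h2 : 48 * ε * (q + 1) * (q + p + 1) ≤ η ^ 2)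
    (hR : R * (s * (η / (4 * (q + p + 1)))) ≤ J * (3 * ε * S)) : R ≤ η / 4 * (S / s) := by
  have hw : 0 < q + p + 1 := by linarith
  have h3 : J * (3 * ε * S) ≤ (q + 1) * (3 * ε * S) :=
    mul_le_mul_of_nonneg_right hJ (by positivity)
  have h4 : R * (s * η) ≤ 12 * (q + 1) * (q + p + 1) * ε * S := by
    have : R * (s * (η / (4 * (q + p + 1)))) = R * (s * η) / (4 * (q + p + 1)) := by
      field_simp
    rw [this, div_le_iff₀ (by positivity)] at hR
    calc R * (s * η) ≤ J * (3 * ε * S) * (4 * (q + p + 1)) := hR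
      _ ≤ (q + 1) * (3 * ε * S) * (4 * (q + p + 1)) :=
        mul_le_mul_of_nonneg_right h3 (by positivity)
      _ = 12 * (q + 1) * (q + p + 1) * ε * S := by ring
  have h5 : 12 * (q + 1) * (q + p + 1) * ε * S ≤ η ^ 2 / 4 * S := by
    have : 12 * (q + 1) * (q + p + 1) * ε ≤ η ^ 2 / 4 := by nlinarith
    exact mul_le_mul_of_nonneg_right this hS
  have h6 : (R * s) * η ≤ (η / 4 * S) * η := by nlinarith
  have h7 : R * s ≤ η / 4 * S := le_of_mul_le_mul_right h6 hη
  rw [← mul_div_assoc, le_div_iff₀ hs]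
  exact h7

theorem refine_step [Fintype V] {T : V → V → Prop} (hT : IsTournament T) {k : ℕ} (hk : VCle T k)
    {d q p D : ℕ} {ε ρ η : ℝ} {S S' : ℕ → ℕ} {X : ℕ → Finset ℕ → Finset V}
    (hB : Blue T d q ε S X) (hε : 0 < ε) (hρ : 0 < ρ) (hη : 0 < η) (hη1 : η < 1)
    (hD : 4 ≤ ρ * ε * D) (hS' : ∀ h ≤ d, 0 < S' h)
    (hSS : ∀ h ≤ d, (2 : ℝ) ^ p * S' h ≤ (1 - η) * S h)
    (h1 : ∀ h ≤ d, ((KK k D : ℝ) ^ (2 * (q + 1))) * S' h ≤ η / 4 * S h)
    (h2 : 48 * ε * (q + 1) * (q + p + 1) ≤ η ^ 2) :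
    ∃ X' : ℕ → Finset ℕ → Finset V, Blue T d (q + p) ρ S' X' := by
  classical
  have hD0 : 0 < D := by
    rcases Nat.eq_zero_or_pos D with h | h
    · exfalso
      rw [h] at hD
      norm_num at hD
    · exact h
  have hw : (0 : ℝ) < (q : ℝ) + p + 1 := by positivity
  set η₂ : ℝ := η / (4 * ((q : ℝ) + p + 1)) with hη₂
  have hη₂0 : 0 < η₂ := by positivity
  set F : ℕ → Finset ℕ → Finset (Finset V) := fun h z =>
    (outN q z).image (X (h + 1)) ∪ (if 1 ≤ h ∧ z ⊆ range q then (inN q z).image (X (h - 1)) else ∅)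
    with hFdef
  have hF : ∀ h z, (F h z).card ≤ 2 * (q + 1) := by
    intro h z
    have h1 := card_union_le ((outN q z).image (X (h + 1)))
      (if 1 ≤ h ∧ z ⊆ range q then (inN q z).image (X (h - 1)) else ∅)
    have h2 : ((outN q z).image (X (h + 1))).card ≤ q + 1 := card_image_le.trans (outN_card q z)
    have h3 : (if 1 ≤ h ∧ z ⊆ range q then (inN q z).image (X (h - 1)) else ∅ :
        Finset (Finset V)).card ≤ q + 1 := by
      split_ifs with hc
      · exact card_image_le.trans (inN_card hc.2)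
      · simp
    have h4 : (F h z).card ≤ ((outN q z).image (X (h + 1))).card +
      (if 1 ≤ h ∧ z ⊆ range q then (inN q z).image (X (h - 1)) else ∅ :
        Finset (Finset V)).card := h1
    omega
  have hex : ∀ (h : ℕ) (z : Finset ℕ), ∃ P : Finset (Finset V), h ≤ d →
      (Parts T (X h z) (F h z) D (S' h) P ∧
        (X h z).card ≤ (P.card + KK k D ^ (2 * (q + 1))) * S' h) := by
    intro h z
    by_cases hh : h ≤ d
    · obtain ⟨P, hP⟩ := exists_parts hk hD0 (hS' h hh) (X h z) (F h z) (hF h z)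
      exact ⟨P, fun _ => hP⟩
    · exact ⟨∅, fun h' => absurd h' hh⟩
  choose P hP using hex
  set bad : Finset V → Finset V → Prop := fun A B =>
    ρ * A.card * B.card < (miss T A B : ℝ) with hbaddef
  set Ty : ℕ → Finset ℕ → Finset (Finset V) := fun h z =>
    (P h z).filter (fun A => h < d → ∀ z' ∈ outN q z,
      (S' (h + 1) : ℝ) * (((P (h + 1) z').filter (fun B => bad A B)).card : ℝ) ≤
        η₂ * S (h + 1)) with hTydef
  set b : ℕ → ℝ := fun h => η₂ * S h / S' h with hbdef
  have hTyP : ∀ h z, Ty h z ⊆ P h z := fun h z => filter_subset _ _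
  have hcardP : ∀ h ≤ d, ∀ z, ∀ A ∈ P h z, A.card = S' h := fun h hh z A hA =>
    (hP h z hh).1.card A hA
  have hsubP : ∀ h ≤ d, ∀ z, ∀ A ∈ P h z, A ⊆ X h z := fun h hh z A hA =>
    (hP h z hh).1.sub A hA
  -- the number of bad pairs
  have hbadp : ∀ h < d, ∀ z ⊆ range q, ∀ z' ∈ outN q z,
      (((P h z ×ˢ P (h + 1) z').filter (fun p => bad p.1 p.2)).card : ℝ) *
        ((S' h : ℝ) * S' (h + 1)) ≤ 3 * ε * S h * S (h + 1) := by
    intro h hh z hz z' hz'
    obtain ⟨hz'1, hadj⟩ := mem_outN.1 hz'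
    have hh' : h ≤ d := hh.le
    have hh1 : h + 1 ≤ d := hh
    have hdis : Disjoint (X h z) (X (h + 1) z') :=
      hB.disj h hh' (h + 1) hh1 z hz z' hz'1 (Or.inl (by omega))
    have hmem1 : X (h + 1) z' ∈ F h z := by
      rw [hFdef]
      exact mem_union_left _ (mem_image_of_mem _ hz')
    have hmem2 : X h z ∈ F (h + 1) z' := by
      rw [hFdef]
      refine mem_union_right _ ?_
      have hc : 1 ≤ h + 1 ∧ z' ⊆ range q := ⟨by omega, hz'1⟩
      rw [if_pos hc]
      have : X h z = X (h + 1 - 1) z := by simp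
      rw [this]
      exact mem_image_of_mem _ (mem_inN.2 ⟨hz, hadj⟩)
    have hm : (miss T (X h z) (X (h + 1) z') : ℝ) ≤
        ε * (X h z).card * (X (h + 1) z').card := by
      rw [hB.card h hh' z hz, hB.card (h + 1) hh1 z' hz'1]
      exact hB.arc h hh z hz z' hz'1 hadj
    have key := bad_pairs hT hdis hmem1 hmem2 (hS' h hh') (hS' (h + 1) hh1) (hP h z hh').1
      (hP (h + 1) z' hh1).1 hε hρ hm hD
    rw [hB.card h hh' z hz, hB.card (h + 1) hh1 z' hz'1] at key
    have hfe : (P h z ×ˢ P (h + 1) z').filter (fun p => bad p.1 p.2) =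
        (P h z ×ˢ P (h + 1) z').filter
          (fun p => ρ * S' h * S' (h + 1) < (miss T p.1 p.2 : ℝ)) := by
      refine filter_congr ?_
      intro p hp
      obtain ⟨hp1, hp2⟩ := mem_product.1 hp
      rw [hbaddef]
      simp only [hcardP h hh' z p.1 hp1, hcardP (h + 1) hh1 z' p.2 hp2]
    rw [hfe]
    exact key
  -- the number of atypical parts
  have hat : ∀ h ≤ d, ∀ z ⊆ range q,
      (((P h z) \ (Ty h z)).card : ℝ) ≤ η / 4 * ((S h : ℝ) / S' h) := by
    intro h hh z hz
    have hs0 : (0 : ℝ) < S' h := by exact_mod_cast hS' h hh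
    rcases Nat.lt_or_ge h d with hlt | hge
    · by_cases hS1 : S (h + 1) = 0
      · -- then all sets of the next layer are empty
        have hemp : (P h z) \ (Ty h z) = ∅ := by
          rw [sdiff_eq_empty_iff_subset]
          intro A hA
          rw [hTydef]
          refine mem_filter.2 ⟨hA, ?_⟩
          intro _ z' hz'
          obtain ⟨hz'1, hadj⟩ := mem_outN.1 hz'
          have hPe : P (h + 1) z' = ∅ := by
            rw [eq_empty_iff_forall_notMem]
            intro B hB'
            have h1 := hsubP (h + 1) hlt z' B hB'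
            have h2 := hB.card (h + 1) hlt z' hz'1
            rw [hS1, card_eq_zero] at h2
            rw [h2] at h1
            have h3 := hcardP (h + 1) hlt z' B hB'
            rw [subset_empty.1 h1, card_empty] at h3
            have := hS' (h + 1) hlt
            omega
          rw [hPe, hS1]
          simp
        rw [hemp]
        simp only [card_empty, Nat.cast_zero]
        positivity
      · have hy : (0 : ℝ) < S (h + 1) := by exact_mod_cast Nat.pos_of_ne_zero hS1
        have hs1 : (0 : ℝ) < S' (h + 1) := by exact_mod_cast hS' (h + 1) hlt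
        have key := atyp_card (outN q z) (P h z) (fun z' => P (h + 1) z') bad (x := (S h : ℝ))
          (y := (S (h + 1) : ℝ)) (s := (S' h : ℝ)) (s' := (S' (h + 1) : ℝ)) (ε := ε) (η := η₂)
          hη₂0 hy hs0 hs1 (fun z' hz' => hbadp h hlt z hz z' hz')
        have heq : (P h z) \ (Ty h z) = (P h z).filter (fun A => ∃ j ∈ outN q z,
            η₂ * (S (h + 1) : ℝ) < (S' (h + 1) : ℝ) *
              (((P (h + 1) j).filter (fun B => bad A B)).card : ℝ)) := by
          ext A
          rw [mem_sdiff, mem_filter, mem_filter]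
          simp only [not_and, not_forall, not_le]
          constructor
          · rintro ⟨h1, h2⟩
            obtain ⟨_, j, hj, hj2⟩ := h2 h1
            exact ⟨h1, j, hj, hj2⟩
          · rintro ⟨h1, j, hj, hj2⟩
            exact ⟨h1, fun _ => ⟨hlt, j, hj, hj2⟩⟩
        rw [heq]
        refine bv7_R (q := (q : ℝ)) (p := (p : ℝ)) (J := ((outN q z).card : ℝ)) (ε := ε) hs0
          (by positivity) hη hε (by positivity) (by positivity) ?_ h2 key
        exact_mod_cast outN_card q z
    · have hemp : (P h z) \ (Ty h z) = ∅ := by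
        rw [sdiff_eq_empty_iff_subset]
        intro A hA
        rw [hTydef]
        refine mem_filter.2 ⟨hA, ?_⟩
        intro hlt
        omega
      rw [hemp]
      simp only [card_empty, Nat.cast_zero]
      positivity
  have hdisjTy : ∀ h ≤ d, ∀ z ⊆ range q, ∀ z' ⊆ range q, z ≠ z' →
      Disjoint (Ty h z) (Ty h z') := by
    intro h hh z hz z' hz' hne
    rw [disjoint_left]
    intro A hA hA'
    have h1 := hsubP h hh z A (hTyP h z hA)
    have h2 := hsubP h hh z' A (hTyP h z' hA')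
    have h3 := hcardP h hh z A (hTyP h z hA)
    have h4 := hB.disj h hh h hh z hz z' hz' (Or.inr hne)
    have h5 : A = ∅ := by
      rw [eq_empty_iff_forall_notMem]
      intro x hx
      exact (disjoint_left.1 h4) (h1 hx) (h2 hx)
    rw [h5, card_empty] at h3
    have := hS' h hh
    omega
  have hcardTy : ∀ h ≤ d, ∀ z ⊆ range q,
      (2 : ℝ) ^ p + ((q : ℝ) + p + 1) * b h ≤ ((Ty h z).card : ℝ) := by
    intro h hh z hz
    have hs0 : (0 : ℝ) < S' h := by exact_mod_cast hS' h hh
    have hN : (0 : ℝ) ≤ (S h : ℝ) / S' h := by positivity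
    have e1 : (2 : ℝ) ^ p ≤ (1 - η) * ((S h : ℝ) / S' h) := by
      rw [← mul_div_assoc, le_div_iff₀ hs0]
      exact hSS h hh
    have e2 : ((q : ℝ) + p + 1) * b h ≤ η / 4 * ((S h : ℝ) / S' h) := by
      rw [hbdef, hη₂]
      apply le_of_eq
      field_simp
    have e3 : (S h : ℝ) / S' h ≤ ((P h z).card : ℝ) + (KK k D : ℝ) ^ (2 * (q + 1)) := by
      rw [div_le_iff₀ hs0]
      have := (hP h z hh).2
      rw [hB.card h hh z hz] at this
      exact_mod_cast this
    have e4 : (KK k D : ℝ) ^ (2 * (q + 1)) ≤ η / 4 * ((S h : ℝ) / S' h) := by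
      rw [← mul_div_assoc, le_div_iff₀ hs0]
      exact h1 h hh
    have e6 : ((P h z).card : ℝ) ≤ ((Ty h z).card : ℝ) + (((P h z) \ (Ty h z)).card : ℝ) := by
      have := card_sdiff_add_card_eq_card (hTyP h z)
      have h' : (P h z).card ≤ (Ty h z).card + ((P h z) \ (Ty h z)).card := by omega
      exact_mod_cast h'
    exact bv7_arith hN hη e1 e2 e3 e4 (hat h hh z hz) e6
  have hb0 : ∀ h, 0 ≤ b h := by
    intro h
    rw [hbdef]
    positivity
  have hbl : ∀ h < d, ∀ z ⊆ range q, ∀ z' ⊆ range q, Adj z z' → ∀ A ∈ Ty h z,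
      (((Ty (h + 1) z').filter (fun B => bad A B)).card : ℝ) ≤ b (h + 1) := by
    intro h hh z hz z' hz' hadj A hA
    have hs1 : (0 : ℝ) < S' (h + 1) := by exact_mod_cast hS' (h + 1) hh
    have h1 := (mem_filter.1 hA).2 hh z' (mem_outN.2 ⟨hz', hadj⟩)
    have h2' : ((Ty (h + 1) z').filter (fun B => bad A B)).card ≤
        ((P (h + 1) z').filter (fun B => bad A B)).card :=
      card_le_card (filter_subset_filter _ (hTyP (h + 1) z'))
    have h3 : (((Ty (h + 1) z').filter (fun B => bad A B)).card : ℝ) ≤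
        (((P (h + 1) z').filter (fun B => bad A B)).card : ℝ) := by exact_mod_cast h2'
    refine h3.trans ?_
    rw [hbdef]
    simp only
    rw [le_div_iff₀ hs1, mul_comm]
    exact h1
  obtain ⟨f, hf1, hf2, hf3⟩ := layers Ty bad b hb0 hdisjTy hcardTy hbl
  refine ⟨f, ?_, ?_, ?_⟩
  · intro h hh z hz
    exact hcardP h hh _ _ (hTyP _ _ (hf1 h hh z hz))
  · intro h hh h' hh' z hz z' hz' hne
    have hm := hTyP _ _ (hf1 h hh z hz)
    have hm' := hTyP _ _ (hf1 h' hh' z' hz')
    have hs := hsubP h hh _ _ hm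
    have hs' := hsubP h' hh' _ _ hm'
    by_cases heq : h = h'
    · subst heq
      have hzz : z ≠ z' := by
        rcases hne with h0 | h0
        · exact absurd rfl h0
        · exact h0
      by_cases hzi : z ∩ range q = z' ∩ range q
      · have hne' := hf2 h hh z hz z' hz' hzz
        rw [← hzi] at hm'
        exact (hP h _ hh).1.disj _ hm _ hm' hne'
      · exact Disjoint.mono hs hs' (hB.disj h hh h hh _ inter_subset_right _ inter_subset_right
          (Or.inr hzi))
    · exact Disjoint.mono hs hs' (hB.disj h hh h' hh' _ inter_subset_right _ inter_subset_right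
          (Or.inl heq))
  · intro h hh z hz z' hz' hadj
    have hnb := hf3 h hh z hz z' hz' hadj
    have h1' := hcardP h hh.le _ _ (hTyP _ _ (hf1 h hh.le z hz))
    have h2' := hcardP (h + 1) hh _ _ (hTyP _ _ (hf1 (h + 1) hh z' hz'))
    rw [hbaddef] at hnb
    simp only [h1', h2', not_lt] at hnb
    exact hnb

end Pool.Agent.H9.BV
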