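import Pool.Agent.H9.BV.Basic

/-!
# JOB BV-1: few traces (Sauer-Shelah)

Let `fam` be the family of the sets `S.filter (T u)` for `u ∈ F`; by the hypothesis on `F` the map from
`F` to `fam` is injective. If `fam` shatters `R` in the sense of Mathlib (`Finset.Shatters`) then
`R ⊆ S` (take the trace `R` itself) and `Shat T R`, so `R.card ≤ k`. So `fam.shatterer` is contained
in the set of the subsets of `S` with at most `k` elements, whose number is
`∑ i ∈ range (k+1), (S.card).choose i ≤ (m+1)^k` (`sum_choose_le` of
Pool/Agent/H65/TL/B.lean has this inequality, proof by induction on `k`; or count functions: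
a subset of size at most `k` of `S` is the image of a map `Fin k → Option S`).
`Finset.card_le_card_shatterer : fam.card ≤ fam.shatterer.card`.
-/

namespace Pool.Agent.H9.BV

open Finset

variable {V : Type}

theorem bvt_sum_choose_le (x n : ℕ) : ∑ i ∈ range (n + 1), x.choose i ≤ (x + 1) ^ n := by
  rw [add_pow]
  refine Finset.sum_le_sum fun i hi => ?_
  rw [one_pow, mul_one]
  have h1 : 1 ≤ n.choose i := Nat.choose_pos (Nat.lt_succ_iff.1 (Finset.mem_range.1 hi))
  calc x.choose i ≤ x ^ i := Nat.choose_le_pow x i
    _ = x ^ i * 1 := (mul_one _).symm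
    _ ≤ x ^ i * n.choose i := Nat.mul_le_mul_left _ h1

theorem trace_card [Fintype V] {T : V → V → Prop} {k m : ℕ} (hk : VCle T k) (S F : Finset V)
    (hS : S.card ≤ m) (hsep : ∀ u ∈ F, ∀ v ∈ F, u ≠ v → ∃ s ∈ S, ¬ (T u s ↔ T v s)) :
    F.card ≤ (m + 1) ^ k := by
  classical
  set fam : Finset (Finset V) := F.image (fun u => S.filter (fun s => T u s)) with hfam
  have hcard : fam.card = F.card := by
    rw [hfam]
    apply Finset.card_image_of_injOn
    intro u hu v hv huv
    by_contra hne
    obtain ⟨s, hs, hsv⟩ := hsep u hu v hv hne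
    apply hsv
    have h1 : s ∈ S.filter (fun s => T u s) ↔ s ∈ S.filter (fun s => T v s) := by
      have h2 : S.filter (fun s => T u s) = S.filter (fun s => T v s) := huv
      rw [h2]
    simpa [Finset.mem_filter, hs] using h1
  have hsub : fam.shatterer ⊆ (range (k + 1)).biUnion (fun i => S.powersetCard i) := by
    intro R hR
    rw [Finset.mem_shatterer] at hR
    have hRS : R ⊆ S := by
      obtain ⟨u, hu, hRu⟩ := hR (Finset.Subset.refl R)
      rw [hfam, Finset.mem_image] at hu
      obtain ⟨v, -, rfl⟩ := hu
      intro s hs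
      rw [← hRu] at hs
      exact (Finset.mem_filter.1 (Finset.mem_inter.1 hs).2).1
    have hsh : Shat T R := by
      intro R' hR'
      obtain ⟨u, hu, hRu⟩ := hR hR'
      rw [hfam, Finset.mem_image] at hu
      obtain ⟨v, -, rfl⟩ := hu
      refine ⟨v, fun s hs => ?_⟩
      rw [← hRu, Finset.mem_inter, Finset.mem_filter]
      constructor
      · intro h
        exact ⟨hs, hRS hs, h⟩
      · intro h
        exact h.2.2
    rw [Finset.mem_biUnion]
    refine ⟨R.card, Finset.mem_range.2 (Nat.lt_succ_of_le (hk R hsh)), ?_⟩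
    rw [Finset.mem_powersetCard]
    exact ⟨hRS, rfl⟩
  calc F.card = fam.card := hcard.symm
    _ ≤ fam.shatterer.card := Finset.card_le_card_shatterer fam
    _ ≤ ((range (k + 1)).biUnion (fun i => S.powersetCard i)).card := Finset.card_le_card hsub
    _ ≤ ∑ i ∈ range (k + 1), (S.powersetCard i).card := Finset.card_biUnion_le
    _ = ∑ i ∈ range (k + 1), S.card.choose i := by
        refine Finset.sum_congr rfl fun i _ => ?_
        rw [Finset.card_powersetCard]
    _ ≤ (S.card + 1) ^ k := bvt_sum_choose_le _ _
    _ ≤ (m + 1) ^ k := Nat.pow_le_pow_left (Nat.add_le_add_right hS 1) k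

end Pool.Agent.H9.BV
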